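import Mathlib
import Pool.Agent.H922R2.R16

set_option autoImplicit false
set_option linter.unusedSectionVars false
set_option linter.style.haveILetI false

open MvPolynomial

namespace Pool.Agent.H922R2.EL

open Pool.Agent.H922R2 (IsDer)
open Pool.Agent.H922R2.R

/-- rational valued order functions, trivial on constants -/
structure OV (k L : Type*) [Field k] [Field L] [Algebra k L] where
  o : L → ℚ
  mul : ∀ x y, x ≠ 0 → y ≠ 0 → o (x * y) = o x + o y
  add : ∀ x y, x ≠ 0 → y ≠ 0 → x + y ≠ 0 → min (o x) (o y) ≤ o (x + y)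
  cst : ∀ c : k, c ≠ 0 → o (algebraMap k L c) = 0

section basic

variable {k L : Type*} [Field k] [CharZero k] [Field L] [Algebra k L] (V : OV k L)

/-- `x` has order at least `c` -/
def OV.ge (c : ℚ) (x : L) : Prop := x = 0 ∨ c ≤ V.o x

theorem OV.ge_iff {c : ℚ} {x : L} (hx : x ≠ 0) : V.ge c x ↔ c ≤ V.o x :=
  ⟨fun h => h.resolve_left hx, Or.inr⟩

theorem OV.ge_self (x : L) : V.ge (V.o x) x := Or.inr le_rfl

theorem OV.ge_zero (c : ℚ) : V.ge c (0 : L) := Or.inl rfl

theorem OV.ge.mono {V : OV k L} {c d : ℚ} {x : L} (h : V.ge c x) (hd : d ≤ c) : V.ge d x :=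
  h.imp_right fun h => hd.trans h

theorem OV.one : V.o 1 = 0 := by
  have := V.mul 1 1 one_ne_zero one_ne_zero
  rw [mul_one] at this
  linarith

theorem OV.neg_one : V.o (-1) = 0 := by
  have := V.mul (-1) (-1) (neg_ne_zero.2 one_ne_zero) (neg_ne_zero.2 one_ne_zero)
  rw [neg_mul_neg, mul_one, V.one] at this
  linarith

theorem OV.neg (x : L) : V.o (-x) = V.o x := by
  by_cases hx : x = 0
  · rw [hx, neg_zero]
  · rw [neg_eq_neg_one_mul, V.mul _ _ (neg_ne_zero.2 one_ne_zero) hx, V.neg_one, zero_add]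

theorem OV.inv (x : L) (hx : x ≠ 0) : V.o x⁻¹ = -V.o x := by
  have := V.mul x x⁻¹ hx (inv_ne_zero hx)
  rw [mul_inv_cancel₀ hx, V.one] at this
  linarith

theorem OV.div (x y : L) (hx : x ≠ 0) (hy : y ≠ 0) : V.o (x / y) = V.o x - V.o y := by
  rw [div_eq_mul_inv, V.mul _ _ hx (inv_ne_zero hy), V.inv _ hy]; ring

theorem OV.pow (x : L) (hx : x ≠ 0) (n : ℕ) : V.o (x ^ n) = n * V.o x := by
  induction n with
  | zero => simp [V.one]
  | succ n ih => rw [pow_succ, V.mul _ _ (pow_ne_zero _ hx) hx, ih]; push_cast; ring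

theorem OV.nat (n : ℕ) (hn : n ≠ 0) : V.o (n : L) = 0 := by
  have := V.cst (n : k) (by exact_mod_cast hn)
  rwa [map_natCast] at this

theorem OV.ge.add {V : OV k L} {c : ℚ} {x y : L} (hx : V.ge c x) (hy : V.ge c y) : V.ge c (x + y) := by
  by_cases h0 : x = 0
  · rw [h0, zero_add]; exact hy
  by_cases h1 : y = 0
  · rw [h1, add_zero]; exact hx
  by_cases h2 : x + y = 0
  · exact Or.inl h2
  rw [V.ge_iff h0] at hx
  rw [V.ge_iff h1] at hy
  rw [V.ge_iff h2]
  exact (le_min hx hy).trans (V.add x y h0 h1 h2)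

theorem OV.ge.neg {V : OV k L} {c : ℚ} {x : L} (hx : V.ge c x) : V.ge c (-x) := by
  rcases hx with rfl | hx
  · rw [neg_zero]; exact V.ge_zero c
  · right; rwa [V.neg]

theorem OV.ge.sub {V : OV k L} {c : ℚ} {x y : L} (hx : V.ge c x) (hy : V.ge c y) : V.ge c (x - y) := by
  rw [sub_eq_add_neg]; exact hx.add hy.neg

theorem OV.ge.mul {V : OV k L} {c d : ℚ} {x y : L} (hx : V.ge c x) (hy : V.ge d y) : V.ge (c + d) (x * y) := by
  rcases hx with rfl | hx
  · rw [zero_mul]; exact V.ge_zero _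
  rcases hy with rfl | hy
  · rw [mul_zero]; exact V.ge_zero _
  by_cases h0 : x = 0
  · rw [h0, zero_mul]; exact V.ge_zero _
  by_cases h1 : y = 0
  · rw [h1, mul_zero]; exact V.ge_zero _
  right
  rw [V.mul _ _ h0 h1]
  linarith

theorem OV.ge.pow {V : OV k L} {c : ℚ} {x : L} (hx : V.ge c x) (n : ℕ) : V.ge (n * c) (x ^ n) := by
  induction n with
  | zero => right; rw [pow_zero, V.one]; simp
  | succ n ih =>
    rw [pow_succ]
    have := ih.mul hx
    push_cast
    rwa [add_mul, one_mul]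

theorem OV.ge_nat (n : ℕ) : V.ge 0 (n : L) := by
  by_cases hn : n = 0
  · rw [hn, Nat.cast_zero]; exact V.ge_zero _
  · right; rw [V.nat n hn]

theorem OV.ge_cst (c : k) : V.ge 0 (algebraMap k L c) := by
  by_cases hn : c = 0
  · rw [hn, map_zero]; exact V.ge_zero _
  · right; rw [V.cst c hn]

theorem OV.ge.div {V : OV k L} {c : ℚ} {x y : L} (hx : V.ge c x) (hy : y ≠ 0) : V.ge (c - V.o y) (x / y) := by
  rw [div_eq_mul_inv]
  have := hx.mul (V.ge_self y⁻¹)
  rwa [V.inv y hy, ← sub_eq_add_neg] at this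

theorem OV.add_eq {x y : L} {c : ℚ} (hx : x ≠ 0) (hy : V.ge c y) (hc : V.o x < c) :
    x + y ≠ 0 ∧ V.o (x + y) = V.o x := by
  have h1 : x + y ≠ 0 := by
    intro h
    have h2 : x = -y := eq_neg_of_add_eq_zero_left h
    have h3 := hy.neg
    rw [← h2, V.ge_iff hx] at h3
    linarith
  refine ⟨h1, ?_⟩
  apply le_antisymm
  · by_contra h
    push Not at h
    have h3 : V.ge (min (V.o (x + y)) c) (x + y - y) :=
      (OV.ge.mono (V.ge_self _) (min_le_left _ _)).sub (hy.mono (min_le_right _ _))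
    rw [add_sub_cancel_right, V.ge_iff hx] at h3
    have := lt_min h hc
    linarith
  · have h3 : V.ge (V.o x) (x + y) := (V.ge_self x).add (hy.mono hc.le)
    rwa [V.ge_iff h1] at h3

/-- order of an exact equation -/
theorem OV.eq_of {x y : L} {c : ℚ} (hx : x ≠ 0) (hy : V.ge c (y - x)) (hc : V.o x < c) :
    y ≠ 0 ∧ V.o y = V.o x := by
  have := V.add_eq hx hy hc
  rwa [add_sub_cancel] at this

end basic

section der

variable {L : Type*} [Field L] {D : L → L}

theorem der_zero (h : IsDer D) : D 0 = 0 := h.zero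

theorem der_one (h : IsDer D) : D 1 = 0 := h.one

theorem der_neg (h : IsDer D) (x : L) : D (-x) = -D x := by
  have := h.add x (-x)
  rw [add_neg_cancel, h.zero] at this
  exact (neg_eq_of_add_eq_zero_right this.symm).symm

theorem der_sub (h : IsDer D) (x y : L) : D (x - y) = D x - D y := by
  rw [sub_eq_add_neg, h.add, der_neg h, ← sub_eq_add_neg]

theorem der_nat (h : IsDer D) (n : ℕ) : D (n : L) = 0 := by
  induction n with
  | zero => rw [Nat.cast_zero, h.zero]
  | succ n ih => rw [Nat.cast_succ, h.add, ih, h.one, add_zero]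

theorem der_inv (h : IsDer D) (x : L) (hx : x ≠ 0) : D x⁻¹ = -(D x / x ^ 2) := by
  have h1 := h.mul x x⁻¹
  rw [mul_inv_cancel₀ hx, h.one] at h1
  generalize D x⁻¹ = z at h1 ⊢
  generalize D x = w at h1 ⊢
  apply mul_left_cancel₀ hx
  have h2 : x * -(w / x ^ 2) = -(x⁻¹ * w) := by field_simp
  rw [h2]
  linear_combination -h1

theorem der_div (h : IsDer D) (x y : L) (hy : y ≠ 0) : D (x / y) = (y * D x - x * D y) / y ^ 2 := by
  rw [div_eq_mul_inv, h.mul, der_inv h y hy]
  field_simp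
  ring

end der

end Pool.Agent.H922R2.EL
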