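import Mathlib
import Pool.Agent.H922R2.EL.Defs

set_option autoImplicit false
set_option linter.unusedSectionVars false

namespace Pool.Agent.H922R2.EL

open Pool.Agent.H922R2 (IsDer)
open Pool.Agent.H922R2.R

variable {k L : Type*} [Field k] [CharZero k] [Field L] [CharZero L] [Algebra k L] (V : OV k L)

/-- inequality (I) from minimality of the Weierstrass equation -/
theorem lemI {D : L → L} (hD : IsDer D) (s a : ℚ) (ha : 0 < a)
    (hJ : ∀ g, g ≠ 0 → V.ge (V.o g + s) (D g)) (X Y a4 a6 f : L)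
    (hXY : Y ^ 2 = X ^ 3 + a4 * X + a6) (h4 : D a4 = 0) (h6 : D a6 = 0)
    (hX : D X = 2 * Y * f) (hY : D Y = (3 * X ^ 2 + a4) * f) (hX0 : D X ≠ 0)
    (hmin : ¬ (V.ge (4 * a) a4 ∧ V.ge (6 * a) a6)) : s - a < V.o f := by
  by_contra hcon
  push Not at hcon
  have hYf : 2 * Y * f ≠ 0 := hX ▸ hX0
  have hf0 : f ≠ 0 := right_ne_zero_of_mul hYf
  have hY0 : Y ≠ 0 := right_ne_zero_of_mul (left_ne_zero_of_mul hYf)
  have h20 : (2 : L) ≠ 0 := two_ne_zero
  have ho2 : V.o (2 : L) = 0 := by simpa using V.nat 2 (by norm_num)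
  have ho3 : V.o (3 : L) = 0 := by simpa using V.nat 3 (by norm_num)
  have g2 : V.ge 0 (2 : L) := Or.inr ho2.ge
  have g3 : V.ge 0 (3 : L) := Or.inr ho3.ge
  have hXne : X ≠ 0 := by rintro rfl; exact hX0 hD.zero
  -- both inequalities, for every constant `x1`
  have key : ∀ x1, D x1 = 0 → X - x1 ≠ 0 ∧ V.o (X - x1) + a ≤ V.o Y := by
    intro x1 hx1
    have h1 : D (X - x1) = D X := by rw [der_sub hD, hx1, sub_zero]
    have h2 : X - x1 ≠ 0 := by
      intro h; rw [h, hD.zero] at h1; exact hX0 h1.symm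
    refine ⟨h2, ?_⟩
    have h3 := hJ _ h2
    rw [h1, V.ge_iff hX0, hX, V.mul _ _ (mul_ne_zero h20 hY0) hf0, V.mul _ _ h20 hY0, ho2] at h3
    linarith
  have hP : V.ge (V.o Y + a) (3 * X ^ 2 + a4) := by
    by_cases hp : 3 * X ^ 2 + a4 = 0
    · rw [hp]; exact V.ge_zero _
    · have h3 := hJ _ hY0
      rw [hY, V.ge_iff (mul_ne_zero hp hf0), V.mul _ _ hp hf0] at h3
      right; linarith
  set ρ := V.o X with hρ
  obtain ⟨-, hb0⟩ := key 0 hD.zero
  rw [sub_zero, ← hρ] at hb0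
  have hε4 : V.ge (ρ + 2 * a) (3 * X ^ 2 + a4) := hP.mono (by linarith)
  have gX : V.ge ρ X := V.ge_self X
  have gY : V.ge (ρ + a) Y := OV.ge.mono (V.ge_self Y) hb0
  have hX2 : V.ge (2 * ρ) (3 * X ^ 2) := by
    have := g3.mul (gX.pow 2); push_cast at this; exact this.mono (by linarith)
  have hX3 : V.ge (3 * ρ) (2 * X ^ 3) := by
    have := g2.mul (gX.pow 3); push_cast at this; exact this.mono (by linarith)
  have e6 : a6 = 2 * X ^ 3 + (Y ^ 2 - X * (3 * X ^ 2 + a4)) := by rw [hXY]; ring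
  have e4 : a4 = (3 * X ^ 2 + a4) - 3 * X ^ 2 := by ring
  have gYY : V.ge (2 * ρ + 2 * a) (Y ^ 2) := by
    have := gY.pow 2; push_cast at this; exact this.mono (by linarith)
  have gXe : V.ge (2 * ρ + 2 * a) (X * (3 * X ^ 2 + a4)) := (gX.mul hε4).mono (by linarith)
  rcases le_or_gt (2 * a) ρ with hc | hc
  · apply hmin
    constructor
    · rw [e4]
      exact (hε4.mono (by linarith)).sub (hX2.mono (by linarith))
    · rw [e6]
      exact (hX3.mono (by linarith)).add ((gYY.sub gXe).mono (by linarith))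
  · have hX2o : 3 * X ^ 2 ≠ 0 ∧ V.o (3 * X ^ 2) = 2 * ρ := by
      refine ⟨mul_ne_zero three_ne_zero (pow_ne_zero _ hXne), ?_⟩
      rw [V.mul _ _ three_ne_zero (pow_ne_zero _ hXne), ho3, V.pow _ hXne]; push_cast; ring
    have ha4 : a4 ≠ 0 ∧ V.o a4 = 2 * ρ := by
      have h1 : V.o (-(3 * X ^ 2)) = 2 * ρ := by rw [V.neg]; exact hX2o.2
      have := V.add_eq (neg_ne_zero.2 hX2o.1) hε4 (by rw [h1]; linarith)
      rw [h1] at this
      rw [show -(3 * X ^ 2) + (3 * X ^ 2 + a4) = a4 by ring] at this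
      exact this
    have ha6 : V.ge (3 * ρ) a6 := by
      rw [e6]
      exact hX3.add ((gYY.sub gXe).mono (by linarith))
    set x1 := -(3 * a6) / (2 * a4) with hx1
    have h2a4 : 2 * a4 ≠ 0 := mul_ne_zero h20 ha4.1
    have ho2a4 : V.o (2 * a4) = 2 * ρ := by rw [V.mul _ _ h20 ha4.1, ho2, ha4.2]; ring
    have hDx1 : D x1 = 0 := by
      have h3 : D (-(3 * a6)) = 0 := by
        rw [der_neg hD, hD.mul, h6]
        have := der_nat hD 3
        norm_cast at this ⊢
        rw [this]; ring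
      have h2 : D (2 * a4) = 0 := by
        rw [hD.mul, h4]
        have := der_nat hD 2
        norm_cast at this ⊢
        rw [this]; ring
      rw [hx1, der_div hD _ _ h2a4, h3, h2]; ring
    obtain ⟨hne, hb1⟩ := key x1 hDx1
    set α := V.o (X - x1) with hα
    have gx1 : V.ge ρ x1 := by
      have := ((g3.mul ha6).neg).div h2a4
      rw [ho2a4] at this
      exact this.mono (by linarith)
    have hαρ : ρ ≤ α := by
      have := gX.sub gx1
      rwa [V.ge_iff hne] at this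
    have hε4' : V.ge (α + 2 * a) (3 * X ^ 2 + a4) := hP.mono (by linarith)
    have gY' : V.ge (α + a) Y := OV.ge.mono (V.ge_self Y) hb1
    have gYY' : V.ge (ρ + α + 2 * a) (Y ^ 2) := by
      have := gY'.pow 2; push_cast at this; exact this.mono (by linarith)
    have gXe' : V.ge (ρ + α + 2 * a) (X * (3 * X ^ 2 + a4)) := (gX.mul hε4').mono (by linarith)
    have e : X - x1 = (2 * (X * (3 * X ^ 2 + a4)) + 3 * (Y ^ 2 - X * (3 * X ^ 2 + a4))) / (2 * a4) := by
      rw [hx1, eq_div_iff h2a4, sub_mul, div_mul_cancel₀ _ h2a4, hXY]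
      ring
    have gfin := (((g2.mul gXe').mono (by linarith : ρ + α + 2 * a ≤ _)).add
      ((g3.mul (gYY'.sub gXe')).mono (by linarith : ρ + α + 2 * a ≤ _))).div h2a4
    rw [← e, ho2a4, V.ge_iff hne] at gfin
    linarith

end Pool.Agent.H922R2.EL
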