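import Mathlib
import Pool.Agent.H922R2.EL.Defs

set_option autoImplicit false
set_option linter.unusedSectionVars false

namespace Pool.Agent.H922R2.EL

open Pool.Agent.H922R2 (IsDer)
open Pool.Agent.H922R2.R

section ext

variable {A L : Type*} [CommRing A] [IsDomain A] [Field L] [Algebra A L] [IsFractionRing A L]

/-- `a ↦ a + D a ε` -/
noncomputable def dualHom (D : A → A) (hD : IsDer D) : A →+* TrivSqZeroExt L L where
  toFun a := ((algebraMap A L a, algebraMap A L (D a)) : L × L)
  map_one' := by
    apply TrivSqZeroExt.ext
    · exact map_one _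
    · change algebraMap A L (D 1) = 0
      rw [hD.one, map_zero]
  map_mul' a b := by
    apply TrivSqZeroExt.ext
    · exact map_mul _ _ _
    · change algebraMap A L (D (a * b)) = algebraMap A L a • algebraMap A L (D b) +
        MulOpposite.op (algebraMap A L b) • algebraMap A L (D a)
      rw [hD.mul, map_add, map_mul, map_mul, smul_eq_mul, MulOpposite.smul_eq_mul_unop, MulOpposite.unop_op,
        mul_comm (algebraMap A L b)]
  map_zero' := by
    apply TrivSqZeroExt.ext
    · exact map_zero _
    · change algebraMap A L (D 0) = 0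
      rw [hD.zero, map_zero]
  map_add' a b := by
    apply TrivSqZeroExt.ext
    · exact map_add _ _ _
    · change algebraMap A L (D (a + b)) = algebraMap A L (D a) + algebraMap A L (D b)
      rw [hD.add, map_add]

theorem exists_ext (D : A → A) (hD : IsDer D) :
    ∃ D' : L → L, IsDer D' ∧ ∀ a : A, D' (algebraMap A L a) = algebraMap A L (D a) := by
  have hinj : Function.Injective (algebraMap A L) := IsFractionRing.injective A L
  have hunit : ∀ y : nonZeroDivisors A, IsUnit (dualHom (L := L) D hD y) := by
    intro y
    rw [TrivSqZeroExt.isUnit_iff_isUnit_fst]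
    change IsUnit (algebraMap A L y)
    rw [isUnit_iff_ne_zero, Ne, map_eq_zero_iff _ hinj]
    exact nonZeroDivisors.ne_zero y.2
  let φ : L →+* TrivSqZeroExt L L := IsLocalization.lift (M := nonZeroDivisors A) (S := L) hunit
  have hφ : ∀ a, φ (algebraMap A L a) = dualHom (L := L) D hD a := fun a => IsLocalization.lift_eq hunit a
  have hfst : ∀ z, (φ z).fst = z := by
    have : (TrivSqZeroExt.fstHom L L L : TrivSqZeroExt L L →+* L).comp φ = RingHom.id L := by
      apply IsLocalization.ringHom_ext (nonZeroDivisors A)
      ext a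
      rw [RingHom.comp_apply, RingHom.comp_apply, hφ]
      rfl
    intro z
    exact congrFun (congrArg DFunLike.coe this) z
  refine ⟨fun z => (φ z).snd, ⟨fun x y => ?_, fun x y => ?_⟩, fun a => ?_⟩
  · change (φ (x + y)).snd = _
    rw [map_add, TrivSqZeroExt.snd_add]
  · change (φ (x * y)).snd = _
    rw [map_mul, TrivSqZeroExt.snd_mul, hfst, hfst, smul_eq_mul, MulOpposite.smul_eq_mul_unop, MulOpposite.unop_op,
      mul_comm (φ x).snd]
  · change (φ (algebraMap A L a)).snd = _
    rw [hφ]
    rfl

/-- uniqueness principle: an identity `D z = E z * c` -/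
theorem ext_frac (D : L → L) (hD : IsDer D) (z : L) (n d : A)
    (hz : z * algebraMap A L d = algebraMap A L n) :
    D z * algebraMap A L d ^ 2 = algebraMap A L d * D (algebraMap A L n) - algebraMap A L n * D (algebraMap A L d) := by
  rw [← hz, hD.mul]; ring

end ext

open MvPolynomial

section JL

variable {k : Type*} [Field k]

theorem Jb_isDer (u : MvPolynomial (Fin 2) k) : IsDer (Jb u) where
  add a b := by simp only [Jb, map_add]; ring
  mul a b := by simp only [Jb, Derivation.leibniz, smul_eq_mul]; ring

variable (L : Type*) [Field L] [Algebra (MvPolynomial (Fin 2) k) L] [IsFractionRing (MvPolynomial (Fin 2) k) L]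

/-- the derivation `J(u, ·)` on the function field -/
noncomputable def DL (u : MvPolynomial (Fin 2) k) : L → L :=
  (exists_ext (L := L) (Jb u) (Jb_isDer u)).choose

variable {L}

theorem DL_isDer (u : MvPolynomial (Fin 2) k) : IsDer (DL L u) :=
  (exists_ext (L := L) (Jb u) (Jb_isDer u)).choose_spec.1

theorem DL_alg (u f : MvPolynomial (Fin 2) k) :
    DL L u (algebraMap (MvPolynomial (Fin 2) k) L f) = algebraMap (MvPolynomial (Fin 2) k) L (Jb u f) :=
  (exists_ext (L := L) (Jb u) (Jb_isDer u)).choose_spec.2 f

end JL

end Pool.Agent.H922R2.EL
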