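import Mathlib
import Pool.Agent.H922R2.EL.Ext

set_option autoImplicit false
set_option linter.unusedSectionVars false

open MvPolynomial

namespace Pool.Agent.H922R2.EL

open Pool.Agent.H922R2 (IsDer)
open Pool.Agent.H922R2.R

/-- order function of an embedding into a field of Hahn series -/
noncomputable def OV.ofHahn {k L F : Type*} [Field k] [Field L] [Algebra k L] [Field F]
    (j : L →+* HahnSeries ℚ F) (hj : ∀ c : k, c ≠ 0 → (j (algebraMap k L c)).order = 0) : OV k L where
  o z := (j z).order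
  mul x y hx hy := by
    rw [map_mul, HahnSeries.order_mul]
    · rw [Ne, map_eq_zero_iff _ j.injective]; exact hx
    · rw [Ne, map_eq_zero_iff _ j.injective]; exact hy
  add x y hx hy hxy := by
    rw [map_add]
    apply HahnSeries.min_order_le_order_add
    rw [← map_add, Ne, map_eq_zero_iff _ j.injective]
    exact hxy
  cst := hj

section jac

variable {k L : Type*} [Field k] [CharZero k] [Field L] [Algebra (MvPolynomial (Fin 2) k) L]
  [IsFractionRing (MvPolynomial (Fin 2) k) L] [Algebra k L] [IsScalarTower k (MvPolynomial (Fin 2) k) L]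

theorem alg_ne {f : MvPolynomial (Fin 2) k} (hf : f ≠ 0) : algebraMap (MvPolynomial (Fin 2) k) L f ≠ 0 := by
  rw [Ne, map_eq_zero_iff _ (IsFractionRing.injective (MvPolynomial (Fin 2) k) L)]; exact hf

/-- extension of the Jacobian inequality to the function field -/
theorem jacL (V : OV k L) (u : MvPolynomial (Fin 2) k) (s : ℚ)
    (hA : ∀ a : MvPolynomial (Fin 2) k, a ≠ 0 →
      V.ge (V.o (algebraMap _ L a) + s) (algebraMap _ L (Jb u a))) (z : L) (hz : z ≠ 0) :
    V.ge (V.o z + s) (DL L u z) := by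
  obtain ⟨n, d, hd, rfl⟩ := IsFractionRing.div_surjective (A := MvPolynomial (Fin 2) k) z
  have hd0 : d ≠ 0 := nonZeroDivisors.ne_zero hd
  have hn0 : n ≠ 0 := by rintro rfl; rw [map_zero, zero_div] at hz; exact hz rfl
  have hd1 := alg_ne (L := L) hd0
  have hn1 := alg_ne (L := L) hn0
  rw [der_div (DL_isDer u) _ _ hd1, DL_alg, DL_alg, V.div _ _ hn1 hd1]
  have h1 := (V.ge_self (algebraMap _ L d)).mul (hA n hn0)
  have h2 := (V.ge_self (algebraMap _ L n)).mul (hA d hd0)
  have h3 := ((h1.mono (d := V.o (algebraMap _ L n) + V.o (algebraMap _ L d) + s) (by linarith)).sub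
    (h2.mono (by linarith))).div (pow_ne_zero 2 hd1)
  rw [V.pow _ hd1] at h3
  exact h3.mono (by push_cast; linarith)

end jac

section EXL

variable {k L : Type*} [Field k] [CharZero k] [Field L] [Algebra (MvPolynomial (Fin 2) k) L]
  [IsFractionRing (MvPolynomial (Fin 2) k) L] [Algebra k L] [IsScalarTower k (MvPolynomial (Fin 2) k) L]

variable (L) in
/-- the place `E` on the function field -/
noncomputable def EXL (r : ℚ) (Y : HahnSeries ℚ k) : L →+* HahnSeries ℚ (KK k) :=
  IsFractionRing.lift (A := MvPolynomial (Fin 2) k) (K := L)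
    (g := (hmap (algebraMap (Polynomial k) (KK k))).comp (EX r Y))
    ((hmap_injective _ (IsFractionRing.injective (Polynomial k) (KK k))).comp (EX_injective r Y))

theorem EXL_alg (r : ℚ) (Y : HahnSeries ℚ k) (f : MvPolynomial (Fin 2) k) :
    EXL L r Y (algebraMap (MvPolynomial (Fin 2) k) L f) = hmap (algebraMap (Polynomial k) (KK k)) (EX r Y f) := by
  rw [EXL, IsFractionRing.lift_algebraMap]; rfl

variable (L) in
noncomputable def VE (r : ℚ) (Y : HahnSeries ℚ k) : OV k L :=
  OV.ofHahn (EXL L r Y) (fun c hc => by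
    rw [IsScalarTower.algebraMap_apply k (MvPolynomial (Fin 2) k) L, EXL_alg, MvPolynomial.algebraMap_eq, EX_C,
      hmap_C, HahnSeries.C_apply, HahnSeries.order_single]
    rw [Ne, map_eq_zero_iff _ (IsFractionRing.injective (Polynomial k) (KK k)), Polynomial.C_eq_zero]
    exact hc)

theorem VE_alg (r : ℚ) (Y : HahnSeries ℚ k) (f : MvPolynomial (Fin 2) k) :
    (VE L r Y).o (algebraMap (MvPolynomial (Fin 2) k) L f) = (EX r Y f).order := by
  change (EXL L r Y _).order = _
  rw [EXL_alg, (order_hmap _ (IsFractionRing.injective (Polynomial k) (KK k)) _).1]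

theorem VE_jac (r : ℚ) (Y : HahnSeries ℚ k) (u : MvPolynomial (Fin 2) k) (z : L) (hz : z ≠ 0) :
    (VE L r Y).ge ((VE L r Y).o z + ((EX r Y u).order + 1 - r)) (DL L u z) := by
  apply jacL _ _ _ _ z hz
  intro a ha
  by_cases h0 : Jb u a = 0
  · rw [h0, map_zero]; exact OV.ge_zero _ _
  right
  rw [VE_alg, VE_alg]
  have h1 := EX_bracket r Y u a
  have h2 : Lb ((EX r Y u).order + (EX r Y a).order)
      (eul k (EX r Y u) * dxi (EX r Y a) - dxi (EX r Y u) * eul k (EX r Y a)) :=
    ((((Lb_order _).eul k).mul (Lb_order _).dxi)).sub (((Lb_order _).dxi).mul ((Lb_order _).eul k))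
  rw [h1] at h2
  have h3 : EX r Y (Jb u a) ≠ 0 := by
    rw [Ne, map_eq_zero_iff _ (EX_injective r Y)]; exact h0
  have h4 : (HahnSeries.single (r - 1) (1 : Polynomial k)) ≠ 0 := HahnSeries.single_ne_zero one_ne_zero
  have h5 := h2.neg.le_order (by rw [neg_neg]; exact mul_ne_zero h4 h3)
  rw [neg_neg, HahnSeries.order_mul h4 h3, HahnSeries.order_single one_ne_zero] at h5
  linarith

end EXL

section GPL

variable {k : Type*} [Field k] [CharZero k] [IsAlgClosed k] {u : MvPolynomial (Fin 2) k}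
variable {L : Type*} [Field L] [Algebra (MvPolynomial (Fin 2) k) L] [IsFractionRing (MvPolynomial (Fin 2) k) L]
  [Algebra k L] [IsScalarTower k (MvPolynomial (Fin 2) k) L]

variable (L) in
noncomputable def VG (g : GP u) : OV k L :=
  OV.ofHahn (g.j L) (fun c hc => by
    rw [IsScalarTower.algebraMap_apply k (MvPolynomial (Fin 2) k) L, g.j_algebraMap, MvPolynomial.algebraMap_eq,
      g.hC, hmap_C, HahnSeries.C_apply, HahnSeries.order_single]
    rw [Ne, map_eq_zero_iff _ (IsFractionRing.injective (Polynomial k) (KK k)), Polynomial.C_eq_zero]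
    exact hc)

theorem VG_o (g : GP u) (z : L) : (VG L g).o z = (g.j L z).order := rfl

theorem VG_alg (g : GP u) (f : MvPolynomial (Fin 2) k) :
    (VG L g).o (algebraMap (MvPolynomial (Fin 2) k) L f) = (g.ι f).order := g.j_order f

theorem GP.jDL (g : GP u) (z : L) :
    eul k (g.j L z) = g.j L (DL L u z) * eul k (g.j L ((algebraMap (MvPolynomial (Fin 2) k) L) g.v)) := by
  obtain ⟨n, d, hd, rfl⟩ := IsFractionRing.div_surjective (A := MvPolynomial (Fin 2) k) z
  have hd0 : d ≠ 0 := nonZeroDivisors.ne_zero hd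
  have hd1 := alg_ne (L := L) hd0
  have hd2 : g.j L (algebraMap _ L d) ≠ 0 := by rw [Ne, map_eq_zero_iff _ g.j_inj]; exact hd1
  rw [der_div (DL_isDer u) _ _ hd1, DL_alg, DL_alg]
  simp only [map_div₀, map_sub, map_mul, map_pow]
  have hn := g.j_der (L := L) n
  have hdd := g.j_der (L := L) d
  have h1 := eul_mul k (g.j L (algebraMap _ L n) / g.j L (algebraMap _ L d)) (g.j L (algebraMap _ L d))
  rw [div_mul_cancel₀ _ hd2] at h1
  rw [hn, hdd] at h1
  generalize g.j L (algebraMap (MvPolynomial (Fin 2) k) L (Jb u n)) = a at *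
  generalize g.j L (algebraMap (MvPolynomial (Fin 2) k) L (Jb u d)) = b at *
  generalize eul k (g.j L (algebraMap (MvPolynomial (Fin 2) k) L n) / g.j L (algebraMap (MvPolynomial (Fin 2) k) L d)) = e at *
  generalize g.j L (algebraMap (MvPolynomial (Fin 2) k) L n) = n' at *
  generalize g.j L (algebraMap (MvPolynomial (Fin 2) k) L d) = d' at *
  generalize eul k (g.j L (algebraMap (MvPolynomial (Fin 2) k) L g.v)) = v' at *
  field_simp
  field_simp at h1
  linear_combination (-1 : HahnSeries ℚ (KK k)) * h1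

theorem order_eul {F : Type*} [CommRing F] [IsDomain F] [Algebra k F] (x : HahnSeries ℚ F) (hx : x ≠ 0)
    (h0 : x.order ≠ 0) : eul k x ≠ 0 ∧ (eul k x).order = x.order := by
  have h1 : (eul k x).coeff x.order ≠ 0 := by
    rw [eul_coeff]
    apply mul_ne_zero
    · rw [Ne, map_eq_zero_iff _ (FaithfulSMul.algebraMap_injective k F)]
      exact_mod_cast h0
    · exact HahnSeries.coeff_order_eq_zero.not.2 hx
  exact ⟨by intro h; rw [h] at h1; exact h1 rfl, order_eq_of ((Lb_order x).eul k) h1⟩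

theorem VG_E (g : GP u) (z : L) (hz : z ≠ 0) (hoz : (VG L g).o z ≠ 0) :
    DL L u z ≠ 0 ∧ (VG L g).o (DL L u z) = (VG L g).o z + g.b := by
  have h1 := GP.jDL (L := L) g z
  have hj0 : g.j L z ≠ 0 := by rw [Ne, map_eq_zero_iff _ g.j_inj]; exact hz
  obtain ⟨h2, h3⟩ := order_eul (k := k) (g.j L z) hj0 hoz
  rw [h1] at h2
  have h4 : g.j L (DL L u z) ≠ 0 := left_ne_zero_of_mul h2
  have h5 : eul k (g.j L ((algebraMap (MvPolynomial (Fin 2) k) L) g.v)) ≠ 0 := right_ne_zero_of_mul h2
  refine ⟨by rwa [Ne, map_eq_zero_iff _ g.j_inj] at h4, ?_⟩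
  rw [h1, HahnSeries.order_mul h4 h5] at h3
  have h6 : (g.j L ((algebraMap (MvPolynomial (Fin 2) k) L) g.v)).order = -g.b := by
    rw [g.j_order]
    exact order_eq_of g.hv (by rw [g.hvc]; exact Polynomial.C_ne_zero.2 g.hβ)
  have h7 : g.j L ((algebraMap (MvPolynomial (Fin 2) k) L) g.v) ≠ 0 := by
    intro h; rw [h, HahnSeries.order_zero] at h6; have := g.hb; linarith
  have h8 := (order_eul (k := k) _ h7 (by rw [h6]; have := g.hb; linarith)).2
  rw [h8, h6] at h3
  rw [VG_o, VG_o]
  linarith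

theorem VG_kap (g : GP u) (hu : Function.Injective (uP u)) (x : KK k) (_ : x ≠ 0) :
    (VG L g).o (kap L hu x) = 0 := by
  rw [VG_o, g.j_kap]
  exact HahnSeries.order_C

end GPL

end Pool.Agent.H922R2.EL
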