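import Mathlib
import Pool.Agent.H922R2.EL.Inst

set_option autoImplicit false
set_option linter.unusedSectionVars false

open MvPolynomial

namespace Pool.Agent.H922R2.EL

open Pool.Agent.H922R2 (IsDer)
open Pool.Agent.H922R2.R

section

variable {k L : Type*} [Field k] [CharZero k] [IsAlgClosed k] [Field L] [Algebra (MvPolynomial (Fin 2) k) L]
  [IsFractionRing (MvPolynomial (Fin 2) k) L] [Algebra k L] [IsScalarTower k (MvPolynomial (Fin 2) k) L]

variable {π : MvPolynomial (Fin 2) k}

theorem fm (hπ : Prime π) {a : MvPolynomial (Fin 2) k} (ha : a ≠ 0) : FiniteMultiplicity π a :=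
  FiniteMultiplicity.of_not_isUnit hπ.not_isUnit ha

theorem pm_mul (hπ : Prime π) {a b : MvPolynomial (Fin 2) k} (ha : a ≠ 0) (hb : b ≠ 0) :
    multiplicity π (a * b) = multiplicity π a + multiplicity π b :=
  multiplicity_mul hπ (fm hπ (mul_ne_zero ha hb))

theorem pm_fac (hπ : Prime π) {a : MvPolynomial (Fin 2) k} (ha : a ≠ 0) :
    ∃ a', a = π ^ (multiplicity π a) * a' ∧ ¬ π ∣ a' := by
  obtain ⟨a', h⟩ := pow_multiplicity_dvd π a
  refine ⟨a', h, ?_⟩
  rintro ⟨c, rfl⟩
  have h1 : π ^ (multiplicity π a + 1) ∣ a := ⟨c, by rw [pow_succ]; rw [mul_assoc]; exact h⟩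
  rw [(fm hπ ha).pow_dvd_iff_le_multiplicity] at h1
  omega

variable (L) in
theorem exists_rep (z : L) : ∃ n d : MvPolynomial (Fin 2) k, d ≠ 0 ∧ z * algebraMap _ L d = algebraMap _ L n := by
  obtain ⟨n, d, hd, rfl⟩ := IsFractionRing.div_surjective (A := MvPolynomial (Fin 2) k) z
  have hd0 : d ≠ 0 := nonZeroDivisors.ne_zero hd
  exact ⟨n, d, hd0, div_mul_cancel₀ _ (alg_ne hd0)⟩

variable (L π) in
noncomputable def vpo (z : L) : ℚ :=
  (multiplicity π (exists_rep (k := k) L z).choose : ℚ) -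
    (multiplicity π (exists_rep (k := k) L z).choose_spec.choose : ℚ)

theorem vpo_eq (hπ : Prime π) (z : L) (hz : z ≠ 0) (n d : MvPolynomial (Fin 2) k) (hd : d ≠ 0)
    (h : z * algebraMap _ L d = algebraMap _ L n) :
    vpo L π z = (multiplicity π n : ℚ) - (multiplicity π d : ℚ) := by
  have h1 := (exists_rep (k := k) L z).choose_spec.choose_spec
  set n' := (exists_rep (k := k) L z).choose with hn'
  set d' := (exists_rep (k := k) L z).choose_spec.choose with hd'
  have hvd : vpo L π z = (multiplicity π n' : ℚ) - (multiplicity π d' : ℚ) := rfl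
  rw [hvd]
  have hne : ∀ n d : MvPolynomial (Fin 2) k, d ≠ 0 → z * algebraMap _ L d = algebraMap _ L n → n ≠ 0 := by
    rintro n d hd h rfl
    rw [map_zero] at h
    exact mul_ne_zero hz (alg_ne hd) h
  have hn0 := hne n d hd h
  have hn0' := hne n' d' h1.1 h1.2
  have he : n' * d = n * d' := by
    apply IsFractionRing.injective (MvPolynomial (Fin 2) k) L
    rw [map_mul, map_mul, ← h1.2, ← h]; ring
  have h2 := congrArg (multiplicity π) he
  rw [pm_mul hπ hn0' hd, pm_mul hπ hn0 h1.1] at h2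
  have h3 : (multiplicity π n' : ℚ) + multiplicity π d = multiplicity π n + multiplicity π d' := by exact_mod_cast h2
  linarith

variable (L) in
/-- the order along a prime divisor of the plane -/
noncomputable def VP (hπ : Prime π) : OV k L where
  o := vpo L π
  mul x y hx hy := by
    obtain ⟨n, d, hd, h⟩ := exists_rep (k := k) L x
    obtain ⟨n', d', hd', h'⟩ := exists_rep (k := k) L y
    have hn : n ≠ 0 := by rintro rfl; rw [map_zero] at h; exact mul_ne_zero hx (alg_ne hd) h
    have hn' : n' ≠ 0 := by rintro rfl; rw [map_zero] at h'; exact mul_ne_zero hy (alg_ne hd') h'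
    rw [vpo_eq hπ x hx n d hd h, vpo_eq hπ y hy n' d' hd' h', vpo_eq hπ (x * y) (mul_ne_zero hx hy) (n * n') (d * d')
      (mul_ne_zero hd hd') (by rw [map_mul, map_mul, ← h, ← h']; ring), pm_mul hπ hn hn', pm_mul hπ hd hd']
    push_cast; ring
  add x y hx hy hxy := by
    obtain ⟨n, d, hd, h⟩ := exists_rep (k := k) L x
    obtain ⟨n', d', hd', h'⟩ := exists_rep (k := k) L y
    have hn : n ≠ 0 := by rintro rfl; rw [map_zero] at h; exact mul_ne_zero hx (alg_ne hd) h
    have hn' : n' ≠ 0 := by rintro rfl; rw [map_zero] at h'; exact mul_ne_zero hy (alg_ne hd') h'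
    have hs : (x + y) * algebraMap _ L (d * d') = algebraMap _ L (n * d' + n' * d) := by
      rw [map_mul, map_add, map_mul, map_mul, ← h, ← h']; ring
    have hs0 : n * d' + n' * d ≠ 0 := by
      intro h0
      rw [h0, map_zero] at hs
      exact mul_ne_zero hxy (alg_ne (mul_ne_zero hd hd')) hs
    rw [vpo_eq hπ x hx n d hd h, vpo_eq hπ y hy n' d' hd' h', vpo_eq hπ (x + y) hxy _ _ (mul_ne_zero hd hd') hs,
      pm_mul hπ hd hd']
    have h1 : min (multiplicity π n + multiplicity π d') (multiplicity π n' + multiplicity π d) ≤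
        multiplicity π (n * d' + n' * d) := by
      rw [← (fm hπ hs0).pow_dvd_iff_le_multiplicity]
      apply dvd_add
      · exact (pow_dvd_pow π (min_le_left _ _)).trans (by
          rw [pow_add]; exact mul_dvd_mul (pow_multiplicity_dvd _ _) (pow_multiplicity_dvd _ _))
      · exact (pow_dvd_pow π (min_le_right _ _)).trans (by
          rw [pow_add]; exact mul_dvd_mul (pow_multiplicity_dvd _ _) (pow_multiplicity_dvd _ _))
    have h2 : min ((multiplicity π n : ℚ) + multiplicity π d') (multiplicity π n' + multiplicity π d) ≤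
        multiplicity π (n * d' + n' * d) := by exact_mod_cast h1
    push_cast
    rcases min_le_iff.1 h2 with h3 | h3
    · apply (min_le_left _ _).trans; linarith
    · apply (min_le_right _ _).trans; linarith
  cst c hc := by
    have h1 : algebraMap k L c ≠ 0 := by
      rw [Ne, map_eq_zero]; exact hc
    rw [vpo_eq hπ _ h1 (C c) 1 one_ne_zero (by
      rw [map_one, mul_one, IsScalarTower.algebraMap_apply k (MvPolynomial (Fin 2) k) L, MvPolynomial.algebraMap_eq])]
    have h2 : ∀ a : MvPolynomial (Fin 2) k, IsUnit a → multiplicity π a = 0 := by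
      intro a ha
      by_contra h0
      have h3 : π ∣ a := by
        have := pow_dvd_of_le_multiplicity (show 1 ≤ multiplicity π a by omega)
        rwa [pow_one] at this
      exact hπ.not_isUnit (isUnit_of_dvd_unit h3 ha)
    rw [h2 _ ((isUnit_iff_ne_zero.2 hc).map C), h2 _ isUnit_one]
    simp

theorem VP_alg (hπ : Prime π) {a : MvPolynomial (Fin 2) k} (ha : a ≠ 0) :
    (VP L hπ).o (algebraMap _ L a) = multiplicity π a := by
  change vpo L π _ = _
  rw [vpo_eq hπ _ (alg_ne ha) a 1 one_ne_zero (by rw [map_one, mul_one])]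
  have : multiplicity π (1 : MvPolynomial (Fin 2) k) = 0 := by
    by_contra h0
    have h3 := pow_dvd_of_le_multiplicity (show 1 ≤ multiplicity π (1 : MvPolynomial (Fin 2) k) by omega)
    rw [pow_one] at h3
    exact hπ.not_isUnit (isUnit_of_dvd_one h3)
  rw [this]; simp

theorem VP_int (hπ : Prime π) (z : L) : ∃ n : ℤ, (VP L hπ).o z = n :=
  ⟨(multiplicity π (exists_rep (k := k) L z).choose : ℤ) -
    (multiplicity π (exists_rep (k := k) L z).choose_spec.choose : ℤ), by
      change vpo L π z = _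
      rw [vpo]; push_cast; rfl⟩

theorem Jb_dvd_pow (π f g : MvPolynomial (Fin 2) k) (m n : ℕ) (hf : π ^ m ∣ f) (hg : π ^ n ∣ g) (h : 1 ≤ m + n) :
    π ^ (m + n - 1) ∣ Jb f g := by
  have dJ : ∀ (p q : MvPolynomial (Fin 2) k) (j : ℕ), Jb p (π ^ (j + 1) * q) =
      π ^ j * (π * Jb p q + q * ((j + 1 : ℕ) * Jb p π)) := by
    intro p q j
    rw [Jb_mul, (Jb_isDer p).pow]
    rw [pow_succ]; ring
  have sJ : ∀ p q : MvPolynomial (Fin 2) k, Jb p q = -Jb q p := by
    intro p q; simp only [Jb]; ring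
  obtain ⟨a, rfl⟩ := hf
  obtain ⟨b, rfl⟩ := hg
  rcases n with _ | n
  · rcases m with _ | m
    · omega
    · rw [pow_zero, one_mul, sJ, dvd_neg, dJ, Nat.add_zero, Nat.add_sub_cancel]
      exact dvd_mul_right _ _
  · rw [dJ, show m + (n + 1) - 1 = n + m by omega, pow_add]
    apply mul_dvd_mul_left
    rcases m with _ | m
    · simp
    · rw [sJ (π ^ (m + 1) * a) b, sJ (π ^ (m + 1) * a) π, dJ, dJ, Jb_self, mul_zero, mul_zero, add_zero]
      refine dvd_add ?_ ?_
      · rw [mul_neg, dvd_neg, pow_succ, mul_comm π]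
        exact mul_dvd_mul_right (dvd_mul_right _ _) _
      · rw [mul_neg, mul_neg, dvd_neg]
        refine dvd_mul_of_dvd_right (dvd_mul_of_dvd_right ?_ _) _
        rw [pow_succ, mul_comm π (Jb π a), ← mul_assoc, mul_comm _ π, mul_comm _ π]
        exact mul_dvd_mul_left _ (dvd_mul_right _ _)

/-- the Jacobian inequality along a prime divisor -/
theorem VP_jac (hπ : Prime π) (u : MvPolynomial (Fin 2) k) (m : ℕ) (hu : π ^ m ∣ u) (z : L) (hz : z ≠ 0) :
    (VP L hπ).ge ((VP L hπ).o z + (m - 1)) (DL L u z) := by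
  apply jacL _ _ _ _ z hz
  intro a ha
  by_cases h0 : Jb u a = 0
  · rw [h0, map_zero]; exact OV.ge_zero _ _
  right
  rw [VP_alg hπ ha, VP_alg hπ h0]
  by_cases h1 : 1 ≤ m + multiplicity π a
  · have h2 := Jb_dvd_pow π u a m _ hu (pow_multiplicity_dvd π a) h1
    rw [(fm hπ h0).pow_dvd_iff_le_multiplicity] at h2
    have h3 : ((m + multiplicity π a : ℕ) : ℚ) ≤ multiplicity π (Jb u a) + 1 := by
      have : m + multiplicity π a ≤ multiplicity π (Jb u a) + 1 := by omega
      exact_mod_cast this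
    push_cast at h3
    linarith
  · have h2 : m = 0 ∧ multiplicity π a = 0 := by omega
    rw [h2.1, h2.2]
    have : (0 : ℚ) ≤ multiplicity π (Jb u a) := Nat.cast_nonneg _
    push_cast
    linarith

/-- reduced representation of an element of nonnegative order -/
theorem VP_rep (hπ : Prime π) (z : L) (hz : z ≠ 0) (h : 0 ≤ (VP L hπ).o z) :
    ∃ n d : MvPolynomial (Fin 2) k, ¬ π ∣ d ∧ d ≠ 0 ∧ z * algebraMap _ L d = algebraMap _ L n := by
  obtain ⟨n, d, hd, he⟩ := exists_rep (k := k) L z
  have hn : n ≠ 0 := by rintro rfl; rw [map_zero] at he; exact mul_ne_zero hz (alg_ne hd) he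
  have h1 : vpo L π z = (multiplicity π n : ℚ) - (multiplicity π d : ℚ) := vpo_eq hπ z hz n d hd he
  have h2 : multiplicity π d ≤ multiplicity π n := by
    change 0 ≤ vpo L π z at h
    rw [h1] at h
    have : (multiplicity π d : ℚ) ≤ multiplicity π n := by linarith
    exact_mod_cast this
  obtain ⟨d', hd', hnd⟩ := pm_fac hπ hd
  obtain ⟨n', hn'⟩ : π ^ (multiplicity π d) ∣ n := (pow_dvd_pow π h2).trans (pow_multiplicity_dvd _ _)
  have hp : π ^ (multiplicity π d) ≠ 0 := pow_ne_zero _ hπ.ne_zero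
  have hd0 : d' ≠ 0 := by rintro rfl; exact hnd (dvd_zero _)
  refine ⟨n', d', hnd, hd0, ?_⟩
  apply mul_left_cancel₀ (alg_ne (L := L) hp)
  rw [← map_mul, ← hn', ← he]
  conv_rhs => rw [hd', map_mul]
  ring

theorem VP_jac0 (hπ : Prime π) (u : MvPolynomial (Fin 2) k) (z : L) (h : (VP L hπ).ge 0 z) :
    (VP L hπ).ge 0 (DL L u z) := by
  by_cases hz : z = 0
  · rw [hz, (DL_isDer u).zero]; exact OV.ge_zero _ _
  rw [OV.ge_iff _ hz] at h
  obtain ⟨n, d, hnd, hd0, he⟩ := VP_rep hπ z hz h
  have hd1 := alg_ne (L := L) hd0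
  have e : z = algebraMap _ L n / algebraMap _ L d := by rw [eq_div_iff hd1, he]
  have h0 : (VP L hπ).o (algebraMap _ L d) = 0 := by
    rw [VP_alg hπ hd0]
    have : multiplicity π d = 0 := by
      by_contra h0
      have h3 := pow_dvd_of_le_multiplicity (show 1 ≤ multiplicity π d by omega)
      rw [pow_one] at h3
      exact hnd h3
    rw [this]; simp
  have ga : ∀ a : MvPolynomial (Fin 2) k, (VP L hπ).ge 0 (algebraMap _ L a) := by
    intro a
    by_cases ha : a = 0
    · rw [ha, map_zero]; exact OV.ge_zero _ _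
    · right; rw [VP_alg hπ ha]; exact Nat.cast_nonneg _
  rw [e, der_div (DL_isDer u) _ _ hd1, DL_alg, DL_alg, ← map_mul, ← map_mul, ← map_sub]
  have h3 := (ga (d * Jb u n - n * Jb u d)).div (pow_ne_zero 2 hd1)
  rw [OV.pow _ _ hd1, h0] at h3
  exact h3.mono (by simp)

end

end Pool.Agent.H922R2.EL
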