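import Mathlib
import Pool.Agent.H922R2.EL.VP

set_option autoImplicit false
set_option linter.unusedSectionVars false
set_option linter.style.haveILetI false

open MvPolynomial

namespace Pool.Agent.H922R2.EL

open Pool.Agent.H922R2 (IsDer SS jac det_jac DJ_apply algebraic_SS)
open Pool.Agent.H922R2.R

section

variable {k L : Type*} [Field k] [CharZero k] [IsAlgClosed k] [Field L] [Algebra (MvPolynomial (Fin 2) k) L]
  [IsFractionRing (MvPolynomial (Fin 2) k) L] [Algebra k L] [IsScalarTower k (MvPolynomial (Fin 2) k) L]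

/-- injectivity of `k[U] → k[x,y]` for a component of a Jacobian pair -/
theorem uP_inj_of (u v : MvPolynomial (Fin 2) k) (hJ : Jb u v = 1) : Function.Injective (uP u) := by
  have hne : ∀ a : k, u - C a ≠ 0 := by
    intro a h
    have h1 : Jb (u - C a) v = 1 := by rw [← hJ]; simp [Jb]
    rw [h] at h1
    simp [Jb] at h1
  rw [injective_iff_map_eq_zero]
  intro s hs
  by_contra h0
  have h1 : s.Splits := IsAlgClosed.splits s
  have h2 := h1.eq_prod_roots
  rw [h2, map_mul, map_multiset_prod, mul_eq_zero] at hs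
  rcases hs with hs | hs
  · rw [uP_C, C_eq_zero] at hs
    exact h0 (Polynomial.leadingCoeff_eq_zero.1 hs)
  · rw [Multiset.prod_eq_zero_iff, Multiset.mem_map] at hs
    obtain ⟨t, ht, h3⟩ := hs
    rw [Multiset.mem_map] at ht
    obtain ⟨a, -, rfl⟩ := ht
    rw [map_sub, uP_X, uP_C] at h3
    exact hne a h3

theorem no_rel (u v π : MvPolynomial (Fin 2) k) (hπ : Prime π) (hJ : Jb u v = 1)
    (hhor : ∀ c : k, ¬ π ∣ u - C c) (hd : π ∣ Jb u π) (N : ℕ) :
    ∀ F : Polynomial (Polynomial k), F.natDegree = N → F ≠ 0 → ¬ π ∣ F.eval₂ (uP u) v := by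
  induction N using Nat.strong_induction_on with
  | _ N ih =>
  intro F hN hF hdv
  by_cases hN0 : F.natDegree = 0
  · rw [Polynomial.eq_C_of_natDegree_eq_zero hN0, Polynomial.eval₂_C] at hdv
    have h0 : F.coeff 0 ≠ 0 := by
      intro h
      apply hF
      rw [Polynomial.eq_C_of_natDegree_eq_zero hN0, h, map_zero]
    obtain ⟨c, hc⟩ := (vertF_uP (uP_inj_of u v hJ) _ h0).2 π hπ hdv
    exact hhor c hc
  · apply ih F.derivative.natDegree (by rw [← hN]; exact Polynomial.natDegree_derivative_lt hN0) F.derivative rfl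
    · intro h
      exact hN0 (Polynomial.derivative_eq_zero.1 h)
    · have h1 : Jb u (F.eval₂ (uP u) v) = F.derivative.eval₂ (uP u) v := by
        rw [Pool.Agent.H922R2.R.IsDer.eval₂ (Jb_isDer u) (uP u) (fun a => Jb_uP u a) v F, hJ, mul_one]
      rw [← h1]
      obtain ⟨m, hm⟩ := hdv
      rw [hm, Jb_mul]
      exact dvd_add (dvd_mul_right _ _) (dvd_mul_of_dvd_right hd _)

theorem toY_eval₂ (u v P : MvPolynomial (Fin 2) k) :
    (toY k P).eval₂ (uP u) v = aeval ![u, v] P := by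
  induction P using MvPolynomial.induction_on with
  | C a => rw [toY_C, Polynomial.eval₂_C, uP_C, aeval_C, MvPolynomial.algebraMap_eq]
  | add p q hp hq => rw [map_add, Polynomial.eval₂_add, hp, hq, map_add]
  | mul_X p i hp =>
    rw [map_mul, Polynomial.eval₂_mul, hp, map_mul, aeval_X]
    congr 1
    fin_cases i
    · change Polynomial.eval₂ (uP u) v (toY k (X 0)) = _
      rw [toY_X0, Polynomial.eval₂_C, uP_X]; rfl
    · change Polynomial.eval₂ (uP u) v (toY k (X 1)) = _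
      rw [toY_X1, Polynomial.eval₂_X]; rfl

theorem not_dvd_Jb (u v π : MvPolynomial (Fin 2) k) (hπ : Prime π) (hJ : Jb u v = 1)
    (hhor : ∀ c : k, ¬ π ∣ u - C c) : ¬ π ∣ Jb u π := by
  intro hd
  have hJ' : IsUnit (Matrix.det (jac ![u, v])) := by
    rw [det_jac, DJ_apply]
    have : pderiv 0 u * pderiv 1 v - pderiv 1 u * pderiv 0 v = 1 := hJ
    simp only [Matrix.cons_val_zero, Matrix.cons_val_one, this]
    exact isUnit_one
  haveI := algebraic_SS ![u, v] hJ'
  obtain ⟨r, hr0, hr⟩ := (Algebra.IsAlgebraic.isAlgebraic (R := SS ![u, v]) π).exists_nonzero_dvd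
    (mem_nonZeroDivisors_of_ne_zero hπ.ne_zero)
  obtain ⟨⟨r', hr'⟩⟩ : Nonempty {r' // aeval ![u, v] r' = (r : MvPolynomial (Fin 2) k)} := by
    obtain ⟨r', h⟩ := r.2
    exact ⟨⟨r', h⟩⟩
  have h1 : π ∣ (toY k r').eval₂ (uP u) v := by
    rw [toY_eval₂, hr']; exact hr
  apply no_rel u v π hπ hJ hhor hd _ (toY k r') rfl _ h1
  rw [Ne, map_eq_zero_iff _ toY_injective]
  rintro rfl
  apply hr0
  rw [map_zero] at hr'
  exact Subtype.ext hr'.symm

/-- exactness along a horizontal prime -/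
theorem VP_E (u v : MvPolynomial (Fin 2) k) {π : MvPolynomial (Fin 2) k} (hπ : Prime π) (hJ : Jb u v = 1)
    (hhor : ∀ c : k, ¬ π ∣ u - C c) (z : L) (hz : z ≠ 0) (hoz : (VP L hπ).o z ≠ 0) :
    DL L u z ≠ 0 ∧ (VP L hπ).o (DL L u z) = (VP L hπ).o z - 1 := by
  set V := VP L hπ with hV
  set P := algebraMap (MvPolynomial (Fin 2) k) L π with hP
  have hP0 : P ≠ 0 := alg_ne hπ.ne_zero
  have hPo : V.o P = 1 := by
    rw [hP, hV, VP_alg hπ hπ.ne_zero]
    have : multiplicity π π = 1 := multiplicity_self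
    rw [this]; simp
  have hnd := not_dvd_Jb u v π hπ hJ hhor
  have hDP : DL L u P ≠ 0 ∧ V.o (DL L u P) = 0 := by
    have h0 : Jb u π ≠ 0 := by intro h; rw [h] at hnd; exact hnd (dvd_zero _)
    rw [hP, DL_alg]
    refine ⟨alg_ne h0, ?_⟩
    rw [hV, VP_alg hπ h0]
    have : multiplicity π (Jb u π) = 0 := by
      by_contra h1
      have h3 := pow_dvd_of_le_multiplicity (show 1 ≤ multiplicity π (Jb u π) by omega)
      rw [pow_one] at h3
      exact hnd h3
    rw [this]; simp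
  obtain ⟨m, hm⟩ := VP_int hπ z
  rw [← hV] at hm
  have hm0 : m ≠ 0 := by rintro rfl; rw [hm] at hoz; exact hoz (by simp)
  -- powers
  have hzp : ∀ n : ℤ, P ^ n ≠ 0 ∧ V.o (P ^ n) = n := by
    intro n
    refine ⟨zpow_ne_zero _ hP0, ?_⟩
    obtain ⟨j, rfl | rfl⟩ := n.eq_nat_or_neg
    · rw [zpow_natCast, V.pow _ hP0, hPo]; push_cast; ring
    · rw [zpow_neg, zpow_natCast, V.inv _ (pow_ne_zero _ hP0), V.pow _ hP0, hPo]; push_cast; ring
  have hDp : ∀ n : ℤ, DL L u (P ^ n) = (n : L) * P ^ (n - 1) * DL L u P := by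
    have hnat : ∀ j : ℕ, DL L u (P ^ j) = (j : L) * P ^ ((j : ℤ) - 1) * DL L u P := by
      intro j
      rcases j with _ | j
      · rw [pow_zero, (DL_isDer u).one]; simp
      · rw [(DL_isDer u).pow]
        have : ((j + 1 : ℕ) : ℤ) - 1 = j := by push_cast; ring
        rw [this, zpow_natCast]
    intro n
    obtain ⟨j, rfl | rfl⟩ := n.eq_nat_or_neg
    · rw [zpow_natCast, hnat]; push_cast; rfl
    · rw [zpow_neg, zpow_natCast, der_inv (DL_isDer u) _ (pow_ne_zero _ hP0), hnat]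
      have e1 : P ^ (-(j : ℤ) - 1) = P ^ ((j : ℤ) - 1) / (P ^ j) ^ 2 := by
        rw [eq_div_iff (pow_ne_zero _ (pow_ne_zero _ hP0)), ← pow_mul, ← zpow_natCast, ← zpow_add₀ hP0]
        congr 1; push_cast; ring
      rw [e1]; push_cast; ring
  set z' := z * P ^ (-m) with hz'
  have hz'0 : z' ≠ 0 := mul_ne_zero hz (hzp _).1
  have hz'o : V.o z' = 0 := by
    rw [hz', V.mul _ _ hz (hzp _).1, hm, (hzp _).2]; push_cast; ring
  have e : z = P ^ m * z' := by
    rw [hz', mul_comm z, ← mul_assoc, ← zpow_add₀ hP0, add_neg_cancel, zpow_zero, one_mul]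
  have hD : DL L u z = z' * ((m : L) * P ^ (m - 1) * DL L u P) + P ^ m * DL L u z' := by
    conv_lhs => rw [e]
    rw [(DL_isDer u).mul, hDp]; ring
  haveI : CharZero L := charZero_of_injective_algebraMap (algebraMap k L).injective
  have hmL : (m : L) ≠ 0 := by exact_mod_cast hm0
  have hmo : V.o (m : L) = 0 := by
    have := V.cst (m : k) (by exact_mod_cast hm0)
    rwa [map_intCast] at this
  have h1 : z' * ((m : L) * P ^ (m - 1) * DL L u P) ≠ 0 :=
    mul_ne_zero hz'0 (mul_ne_zero (mul_ne_zero hmL (hzp _).1) hDP.1)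
  have h2 : V.o (z' * ((m : L) * P ^ (m - 1) * DL L u P)) = m - 1 := by
    rw [V.mul _ _ hz'0 (mul_ne_zero (mul_ne_zero hmL (hzp _).1) hDP.1), V.mul _ _ (mul_ne_zero hmL (hzp _).1) hDP.1,
      V.mul _ _ hmL (hzp _).1, hz'o, hmo, (hzp _).2, hDP.2]
    push_cast; ring
  have h3 : V.ge m (P ^ m * DL L u z') := by
    have h4 : V.ge 0 (DL L u z') := VP_jac0 hπ u z' (Or.inr hz'o.ge)
    have h5 := (OV.ge.mono (V.ge_self (P ^ m)) (hzp m).2.ge).mul h4
    rwa [add_zero] at h5
  have h6 := V.add_eq h1 h3 (by rw [h2]; linarith)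
  rw [← hD, h2] at h6
  exact ⟨h6.1, by rw [h6.2, hm]⟩

theorem VP_kap (u : MvPolynomial (Fin 2) k) {π : MvPolynomial (Fin 2) k} (hπ : Prime π)
    (hhor : ∀ c : k, ¬ π ∣ u - C c) (hu : Function.Injective (uP u)) (x : KK k) (hx : x ≠ 0) :
    (VP L hπ).o (kap L hu x) = 0 := by
  obtain ⟨a, b, hb, rfl⟩ := IsFractionRing.div_surjective (A := Polynomial k) x
  have hb0 : b ≠ 0 := nonZeroDivisors.ne_zero hb
  have ha0 : a ≠ 0 := by rintro rfl; rw [map_zero, zero_div] at hx; exact hx rfl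
  have h1 : ∀ s : Polynomial k, s ≠ 0 → (VP L hπ).o (algebraMap (MvPolynomial (Fin 2) k) L (uP u s)) = 0 := by
    intro s hs
    have hs0 : uP u s ≠ 0 := by rw [Ne, map_eq_zero_iff _ hu]; exact hs
    rw [VP_alg hπ hs0]
    have : multiplicity π (uP u s) = 0 := by
      by_contra h1
      have h3 := pow_dvd_of_le_multiplicity (show 1 ≤ multiplicity π (uP u s) by omega)
      rw [pow_one] at h3
      obtain ⟨c, hc⟩ := (vertF_uP hu s hs).2 π hπ h3
      exact hhor c hc
    rw [this]; simp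
  have hs0 : ∀ s : Polynomial k, s ≠ 0 → algebraMap (MvPolynomial (Fin 2) k) L (uP u s) ≠ 0 := fun s hs =>
    alg_ne (by rw [Ne, map_eq_zero_iff _ hu]; exact hs)
  rw [map_div₀, kap_algebraMap, kap_algebraMap, OV.div _ _ _ (hs0 a ha0) (hs0 b hb0), h1 a ha0, h1 b hb0]
  ring

end

end Pool.Agent.H922R2.EL
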