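import Mathlib
import Pool.Agent.H922R2.EL.VH
import Pool.Agent.H922R2.EL.I

set_option autoImplicit false
set_option linter.unusedSectionVars false
set_option linter.style.haveILetI false

open MvPolynomial

namespace Pool.Agent.H922R2.EL

open Pool.Agent.H922R2 (IsDer)
open Pool.Agent.H922R2.R

section

variable {k L : Type*} [Field k] [CharZero k] [IsAlgClosed k] [Field L] [Algebra (MvPolynomial (Fin 2) k) L]
  [IsFractionRing (MvPolynomial (Fin 2) k) L] [Algebra k L] [IsScalarTower k (MvPolynomial (Fin 2) k) L]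

theorem der_unique {D E : L → L} (hD : IsDer D) (hE : IsDer E)
    (h : ∀ a : MvPolynomial (Fin 2) k, D (algebraMap (MvPolynomial (Fin 2) k) L a) =
      E (algebraMap (MvPolynomial (Fin 2) k) L a)) : D = E := by
  funext z
  obtain ⟨n, d, hd, rfl⟩ := IsFractionRing.div_surjective (A := MvPolynomial (Fin 2) k) z
  have hd1 : algebraMap (MvPolynomial (Fin 2) k) L d ≠ 0 := by
    rw [Ne, map_eq_zero_iff _ (IsFractionRing.injective (MvPolynomial (Fin 2) k) L)]
    exact nonZeroDivisors.ne_zero hd
  rw [der_div hD _ _ hd1, der_div hE _ _ hd1, h, h]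

theorem DL_sub_C (u : MvPolynomial (Fin 2) k) (c : k) : DL L (u - C c) = DL L u := by
  apply der_unique (k := k) (DL_isDer _) (DL_isDer _)
  intro a
  rw [DL_alg, DL_alg]
  congr 1
  simp [Jb]

theorem pm_zero {π a : MvPolynomial (Fin 2) k} (h : ¬ π ∣ a) : multiplicity π a = 0 := by
  by_contra h1
  have h3 := pow_dvd_of_le_multiplicity (show 1 ≤ multiplicity π a by omega)
  rw [pow_one] at h3
  exact h h3

theorem VP_zero {π a : MvPolynomial (Fin 2) k} (hπ : Prime π) (h : ¬ π ∣ a) :
    (VP L hπ).o (algebraMap _ L a) = 0 := by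
  have ha : a ≠ 0 := by rintro rfl; exact h (dvd_zero _)
  rw [VP_alg hπ ha, pm_zero h]; simp

theorem VP_ge0 {π : MvPolynomial (Fin 2) k} (hπ : Prime π) (a : MvPolynomial (Fin 2) k) :
    (VP L hπ).ge 0 (algebraMap _ L a) := by
  by_cases ha : a = 0
  · rw [ha, map_zero]; exact OV.ge_zero _ _
  · right; rw [VP_alg hπ ha]; exact Nat.cast_nonneg _

theorem VP_uP_vert {u π : MvPolynomial (Fin 2) k} (hπ : Prime π) (c : k) (hc : π ∣ u - C c)
    (hu0 : u - C c ≠ 0) (s : Polynomial k) (m : ℕ)
    (h : (VP L hπ).ge (m * (VP L hπ).o (algebraMap _ L (u - C c))) (algebraMap _ L (uP u s))) :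
    (Polynomial.X - Polynomial.C c) ^ m ∣ s := by
  by_cases hs : s = 0
  · rw [hs]; exact dvd_zero _
  obtain ⟨s', hs', hns⟩ := Polynomial.exists_eq_pow_rootMultiplicity_mul_and_not_dvd s hs c
  set j := s.rootMultiplicity c with hj
  have hev : s'.eval c ≠ 0 := by
    intro h0
    exact hns (Polynomial.dvd_iff_isRoot.2 h0)
  have hnd : ¬ π ∣ uP u s' := by
    intro hd
    have h1 : u - C c ∣ uP u s' - C (s'.eval c) := by
      have h2 : Polynomial.X - Polynomial.C c ∣ s' - Polynomial.C (s'.eval c) :=
        Polynomial.X_sub_C_dvd_sub_C_eval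
      have h3 := map_dvd (uP u) h2
      rwa [map_sub, map_sub, uP_X, uP_C, uP_C] at h3
    have h4 : π ∣ C (s'.eval c) := by
      have := dvd_sub hd (hc.trans h1)
      rwa [sub_sub_cancel] at this
    exact hπ.not_isUnit (isUnit_of_dvd_unit h4 ((isUnit_iff_ne_zero.2 hev).map C))
  have e : uP u s = (u - C c) ^ j * uP u s' := by
    conv_lhs => rw [hs']
    rw [map_mul, map_pow, map_sub, uP_X, uP_C]
  have hs'0 : uP u s' ≠ 0 := by intro h0; rw [h0] at hnd; exact hnd (dvd_zero _)
  have hpos : 0 < (VP L hπ).o (algebraMap _ L (u - C c)) := by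
    rw [VP_alg hπ hu0]
    have : 1 ≤ multiplicity π (u - C c) := by
      rw [← (fm hπ hu0).pow_dvd_iff_le_multiplicity, pow_one]; exact hc
    exact_mod_cast this
  rw [e, map_mul, map_pow, OV.ge_iff _ (mul_ne_zero (pow_ne_zero _ (alg_ne hu0)) (alg_ne hs'0)),
    OV.mul _ _ _ (pow_ne_zero _ (alg_ne hu0)) (alg_ne hs'0), OV.pow _ _ (alg_ne hu0), VP_zero hπ hnd, add_zero] at h
  have h5 : (m : ℚ) ≤ j := le_of_mul_le_mul_right h hpos
  have h6 : m ≤ j := by exact_mod_cast h5
  rw [hs']
  exact (pow_dvd_pow _ h6).mul_right _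

/-- the function `f` is a polynomial -/
theorem f_mem (u : MvPolynomial (Fin 2) k) (hu : Function.Injective (uP u)) (α β : Polynomial k)
    (hdisc : 4 * α ^ 3 + 27 * β ^ 2 ≠ 0)
    (hmin : ∀ c : k, ¬ ((Polynomial.X - Polynomial.C c) ^ 4 ∣ α ∧ (Polynomial.X - Polynomial.C c) ^ 6 ∣ β))
    (X Y f : L) (hXY : Y ^ 2 = X ^ 3 + algebraMap _ L (uP u α) * X + algebraMap _ L (uP u β))
    (hX : DL L u X = 2 * Y * f) (hY : DL L u Y = (3 * X ^ 2 + algebraMap _ L (uP u α)) * f)
    (hX0 : DL L u X ≠ 0) : ∃ F : MvPolynomial (Fin 2) k, f = algebraMap _ L F := by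
  haveI : CharZero L := charZero_of_injective_algebraMap (algebraMap k L).injective
  obtain ⟨n, d, hrel, hfd⟩ := IsFractionRing.exists_reduced_fraction (A := MvPolynomial (Fin 2) k) (K := L) f
  have hd0 : (d : MvPolynomial (Fin 2) k) ≠ 0 := nonZeroDivisors.ne_zero d.2
  have hfd' : f * algebraMap _ L (d : MvPolynomial (Fin 2) k) = algebraMap _ L n := by
    rw [← hfd]; exact IsLocalization.mk'_spec L n d
  have hYf : 2 * Y * f ≠ 0 := hX ▸ hX0
  have hf0 : f ≠ 0 := right_ne_zero_of_mul hYf
  have hY0 : Y ≠ 0 := right_ne_zero_of_mul (left_ne_zero_of_mul hYf)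
  have hXne : X ≠ 0 := by rintro rfl; exact hX0 (DL_isDer u).zero
  have hdunit : IsUnit (d : MvPolynomial (Fin 2) k) := by
    by_contra hdu
    obtain ⟨π, hπi, hπd⟩ := WfDvdMonoid.exists_irreducible_factor hdu hd0
    have hπ : Prime π := hπi.prime
    have hπn : ¬ π ∣ n := fun h => hπ.not_isUnit (hrel h hπd)
    set V := VP L hπ with hV
    have hof : V.o f ≤ -1 := by
      have hn0 : n ≠ 0 := by rintro rfl; exact hπn (dvd_zero _)
      have h1 : V.o f = (multiplicity π n : ℚ) - (multiplicity π (d : MvPolynomial (Fin 2) k) : ℚ) :=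
        vpo_eq hπ f hf0 n d hd0 hfd'
      rw [h1, pm_zero hπn]
      have : 1 ≤ multiplicity π (d : MvPolynomial (Fin 2) k) := by
        rw [← (fm hπ hd0).pow_dvd_iff_le_multiplicity, pow_one]; exact hπd
      have : (1 : ℚ) ≤ multiplicity π (d : MvPolynomial (Fin 2) k) := by exact_mod_cast this
      push_cast
      linarith
    have ho2 : V.o (2 : L) = 0 := by simpa using V.nat 2 (by norm_num)
    have h20 : (2 : L) ≠ 0 := two_ne_zero
    by_cases hver : ∃ c : k, π ∣ u - C c
    · obtain ⟨c, hc⟩ := hver
      have hu0 : u - C c ≠ 0 := by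
        intro h
        have h1 : uP u (Polynomial.X - Polynomial.C c) = 0 := by rw [map_sub, uP_X, uP_C, h]
        rw [map_eq_zero_iff _ hu] at h1
        exact Polynomial.X_sub_C_ne_zero c h1
      set a := V.o (algebraMap _ L (u - C c)) with ha
      have ham : a = multiplicity π (u - C c) := by rw [ha, hV, VP_alg hπ hu0]
      have hpos : 0 < a := by
        rw [ham]
        have : 1 ≤ multiplicity π (u - C c) := by
          rw [← (fm hπ hu0).pow_dvd_iff_le_multiplicity, pow_one]; exact hc
        exact_mod_cast this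
      have hDα : ∀ s : Polynomial k, DL L u (algebraMap _ L (uP u s)) = 0 := fun s => by
        rw [DL_alg, Jb_uP, map_zero]
      have hI := lemI (k := k) V (DL_isDer u) (a - 1) a hpos (by
        intro g hg
        have := VP_jac (L := L) hπ (u - C c) _ (pow_multiplicity_dvd _ _) g hg
        rw [DL_sub_C, ← ham] at this
        exact this) X Y _ _ f hXY (hDα α) (hDα β) hX hY hX0 (by
        rintro ⟨h1, h2⟩
        apply hmin c
        constructor
        · apply VP_uP_vert (L := L) hπ c hc hu0 α 4
          rw [show ((4 : ℕ) : ℚ) = 4 by norm_num]; exact h1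
        · apply VP_uP_vert (L := L) hπ c hc hu0 β 6
          rw [show ((6 : ℕ) : ℚ) = 6 by norm_num]; exact h2)
      linarith
    · push Not at hver
      have hu0 : ∀ s : Polynomial k, s ≠ 0 → ¬ π ∣ uP u s := by
        intro s hs h3
        obtain ⟨c, hc⟩ := (vertF_uP hu s hs).2 π hπ h3
        exact hver c hc
      have gα : V.ge 0 (algebraMap _ L (uP u α)) := VP_ge0 hπ _
      have gβ : V.ge 0 (algebraMap _ L (uP u β)) := VP_ge0 hπ _
      by_cases hXge : V.ge 0 X
      · have hYge : V.ge 0 Y := by
          right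
          have h1 : V.ge 0 (Y ^ 2) := by
            rw [hXY]
            have h2 := hXge.pow 3
            have h3 := gα.mul hXge
            rw [mul_zero] at h2
            rw [add_zero] at h3
            exact (h2.add h3).add gβ
          rw [V.ge_iff (pow_ne_zero _ hY0), V.pow _ hY0] at h1
          push_cast at h1
          linarith
        have h1 : V.ge 1 Y := by
          have h2 := VP_jac0 hπ u X hXge
          rw [hX, ← hV, V.ge_iff hYf, V.mul _ _ (mul_ne_zero h20 hY0) hf0, V.mul _ _ h20 hY0, ho2] at h2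
          right; linarith
        have h2 : V.ge 1 (3 * X ^ 2 + algebraMap _ L (uP u α)) := by
          by_cases hp : 3 * X ^ 2 + algebraMap _ L (uP u α) = 0
          · rw [hp]; exact V.ge_zero _
          have h3 := VP_jac0 hπ u Y hYge
          rw [hY, ← hV, V.ge_iff (mul_ne_zero hp hf0), V.mul _ _ hp hf0] at h3
          right; linarith
        have h3 : V.ge 1 (algebraMap _ L (uP u (4 * α ^ 3 + 27 * β ^ 2))) := by
          have e : algebraMap _ L (uP u (4 * α ^ 3 + 27 * β ^ 2)) =
              (3 * X ^ 2 + algebraMap _ L (uP u α)) *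
                (6 * algebraMap _ L (uP u α) * X ^ 2 - 9 * algebraMap _ L (uP u β) * X +
                  4 * algebraMap _ L (uP u α) ^ 2) -
              Y ^ 2 * (18 * algebraMap _ L (uP u α) * X - 27 * algebraMap _ L (uP u β)) := by
            simp only [map_add, map_mul, map_pow, map_ofNat]
            rw [hXY]; ring
          have gn : ∀ m : ℕ, V.ge 0 (m : L) := fun m => V.ge_nat m
          have g6 := gn 6
          have g9 := gn 9
          have g4 := gn 4
          have g18 := gn 18
          have g27 := gn 27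
          push_cast at g6 g9 g4 g18 g27
          have gA : V.ge 0 (6 * algebraMap _ L (uP u α) * X ^ 2 - 9 * algebraMap _ L (uP u β) * X +
                  4 * algebraMap _ L (uP u α) ^ 2) := by
            have q1 := (g6.mul gα).mul (hXge.pow 2)
            have q2 := (g9.mul gβ).mul hXge
            have q3 := g4.mul (gα.pow 2)
            simp only [add_zero, mul_zero] at q1 q2 q3
            exact (q1.sub q2).add q3
          have gB : V.ge 0 (18 * algebraMap _ L (uP u α) * X - 27 * algebraMap _ L (uP u β)) := by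
            have q1 := (g18.mul gα).mul hXge
            have q2 := g27.mul gβ
            simp only [add_zero] at q1 q2
            exact q1.sub q2
          rw [e]
          have q1 := h2.mul gA
          have q2 := (h1.pow 2).mul gB
          exact (q1.mono (by linarith)).sub (q2.mono (by norm_num))
        have h4 := VP_zero (L := L) hπ (hu0 _ hdisc)
        have h5 : algebraMap _ L (uP u (4 * α ^ 3 + 27 * β ^ 2)) ≠ 0 := alg_ne (by
          intro h; exact hu0 _ hdisc (by rw [h]; exact dvd_zero _))
        rw [V.ge_iff h5, hV, h4] at h3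
        linarith
      · rw [V.ge_iff hXne] at hXge
        push Not at hXge
        have hX3 : V.o (X ^ 3) = 3 * V.o X := by rw [V.pow _ hXne]; push_cast; ring
        have hY2 : 2 * V.o Y = 3 * V.o X := by
          have h1 := V.add_eq (pow_ne_zero 3 hXne) (c := V.o X)
            (y := algebraMap _ L (uP u α) * X + algebraMap _ L (uP u β))
            (((gα.mul (V.ge_self X)).mono (by linarith)).add (gβ.mono hXge.le))
            (by rw [hX3]; linarith)
          rw [← add_assoc, ← hXY, V.pow _ hY0, hX3] at h1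
          have := h1.2
          push_cast at this
          linarith
        obtain ⟨p, hp⟩ := VP_int (L := L) hπ X
        obtain ⟨q, hq⟩ := VP_int (L := L) hπ Y
        rw [← hV] at hp hq
        rw [hp, hq] at hY2
        rw [hp] at hXge
        have hY2' : 2 * q = 3 * p := by exact_mod_cast hY2
        have hp0 : p < 0 := by exact_mod_cast hXge
        have hp2 : p ≤ -2 := by omega
        have h1 := VP_jac (L := L) hπ u 0 (by rw [pow_zero]; exact one_dvd _) X hXne
        rw [hX, ← hV, V.ge_iff hYf, V.mul _ _ (mul_ne_zero h20 hY0) hf0, V.mul _ _ h20 hY0, ho2, hp, hq] at h1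
        have hp2' : (p : ℚ) ≤ -2 := by exact_mod_cast hp2
        push_cast at h1
        linarith
  obtain ⟨d', hd'⟩ := hdunit
  refine ⟨n * ((d'⁻¹ : (MvPolynomial (Fin 2) k)ˣ) : MvPolynomial (Fin 2) k), ?_⟩
  rw [map_mul, ← hfd', ← hd', mul_assoc, ← map_mul, Units.mul_inv, map_one, mul_one]

end

end Pool.Agent.H922R2.EL
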