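import Mathlib
import Pool.Agent.H922R2.EL.FA

set_option autoImplicit false
set_option linter.unusedSectionVars false
set_option linter.style.haveILetI false

open MvPolynomial

namespace Pool.Agent.H922R2.EL

open Pool.Agent.H922R2 (IsDer)
open Pool.Agent.H922R2.R

section

variable {k L : Type*} [Field k] [CharZero k] [IsAlgClosed k] [Field L] [Algebra (MvPolynomial (Fin 2) k) L]
  [IsFractionRing (MvPolynomial (Fin 2) k) L] [Algebra k L] [IsScalarTower k (MvPolynomial (Fin 2) k) L]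

theorem ord_uP (V : OV k L) (u : MvPolynomial (Fin 2) k) (hu0 : u ≠ 0) (A : ℚ) (hA : 0 < A)
    (huo : V.o (algebraMap _ L u) = -A) (s : Polynomial k) (hs : s ≠ 0) :
    algebraMap _ L (uP u s) ≠ 0 ∧ V.o (algebraMap _ L (uP u s)) = -(s.natDegree * A) := by
  have h1 : ∀ c : k, algebraMap _ L (u - C c) ≠ 0 ∧ V.o (algebraMap _ L (u - C c)) = -A := by
    intro c
    have h2 : V.ge 0 (-algebraMap _ L (C c : MvPolynomial (Fin 2) k)) := by
      rw [← MvPolynomial.algebraMap_eq, ← IsScalarTower.algebraMap_apply]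
      exact (V.ge_cst c).neg
    have h3 := V.add_eq (alg_ne hu0) h2 (by rw [huo]; linarith)
    rw [← sub_eq_add_neg, ← map_sub, huo] at h3
    exact h3
  have hlc : algebraMap _ L (uP u (Polynomial.C s.leadingCoeff)) ≠ 0 ∧
      V.o (algebraMap _ L (uP u (Polynomial.C s.leadingCoeff))) = 0 := by
    rw [uP_C, ← MvPolynomial.algebraMap_eq, ← IsScalarTower.algebraMap_apply]
    have : s.leadingCoeff ≠ 0 := Polynomial.leadingCoeff_ne_zero.2 hs
    exact ⟨by rw [Ne, map_eq_zero]; exact this, V.cst _ this⟩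
  have hprod : ∀ M : Multiset k, algebraMap _ L (uP u (M.map fun a => Polynomial.X - Polynomial.C a).prod) ≠ 0 ∧
      V.o (algebraMap _ L (uP u (M.map fun a => Polynomial.X - Polynomial.C a).prod)) = -(M.card * A) := by
    intro M
    induction M using Multiset.induction_on with
    | empty => simp [V.one]
    | cons a M ih =>
      rw [Multiset.map_cons, Multiset.prod_cons, map_mul, map_mul, map_sub, uP_X, uP_C]
      refine ⟨mul_ne_zero (h1 a).1 ih.1, ?_⟩
      rw [V.mul _ _ (h1 a).1 ih.1, (h1 a).2, ih.2, Multiset.card_cons]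
      push_cast; ring
  have hsp : s.Splits := IsAlgClosed.splits s
  have e := hsp.eq_prod_roots
  have hcard : s.roots.card = s.natDegree := hsp.natDegree_eq_card_roots.symm
  rw [e, map_mul, map_mul, ← e]
  refine ⟨mul_ne_zero hlc.1 (hprod _).1, ?_⟩
  rw [V.mul _ _ hlc.1 (hprod _).1, hlc.2, (hprod _).2, hcard]
  ring

/-- inequality (I) at a place at infinity of `k(u)` -/
theorem lemInf (V : OV k L) (u : MvPolynomial (Fin 2) k) (r A : ℚ) (hA : 0 < A) (hu0 : u ≠ 0)
    (huo : V.o (algebraMap _ L u) = -A)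
    (hJ : ∀ z : L, z ≠ 0 → V.ge (V.o z + (-A + 1 - r)) (DL L u z))
    (α β : Polynomial k) (N : ℕ)
    (hN : ¬ ((α = 0 ∨ α.natDegree + 4 ≤ 4 * N) ∧ (β = 0 ∨ β.natDegree + 6 ≤ 6 * N)))
    (X Y f : L) (hXY : Y ^ 2 = X ^ 3 + algebraMap _ L (uP u α) * X + algebraMap _ L (uP u β))
    (hX : DL L u X = 2 * Y * f) (hY : DL L u Y = (3 * X ^ 2 + algebraMap _ L (uP u α)) * f)
    (hX0 : DL L u X ≠ 0) : 1 - r + (N - 2) * A < V.o f := by
  haveI : CharZero L := charZero_of_injective_algebraMap (algebraMap k L).injective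
  set U := algebraMap _ L u with hU
  have hU0 : U ≠ 0 := alg_ne hu0
  set w := U⁻¹ with hw
  have hw0 : w ≠ 0 := inv_ne_zero hU0
  have hwo : V.o w = A := by rw [hw, V.inv _ hU0, huo, neg_neg]
  have hDU : DL L u U = 0 := by rw [hU, DL_alg, Jb_self, map_zero]
  have hDw : DL L u w = 0 := by rw [hw, der_inv (DL_isDer u) _ hU0, hDU]; simp
  have hDwn : ∀ n : ℕ, DL L u (w ^ n) = 0 := by
    intro n
    rcases n with _ | n
    · rw [pow_zero, (DL_isDer u).one]
    · rw [(DL_isDer u).pow, hDw, mul_zero]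
  have hDa : ∀ s : Polynomial k, DL L u (algebraMap _ L (uP u s)) = 0 := fun s => by
    rw [DL_alg, Jb_uP, map_zero]
  have hYf : 2 * Y * f ≠ 0 := hX ▸ hX0
  have hf0 : f ≠ 0 := right_ne_zero_of_mul hYf
  let D : L → L := fun z => -w ^ 2 * DL L u z
  have hD : IsDer D := ⟨fun x y => by simp only [D, (DL_isDer u).add]; ring,
    fun x y => by simp only [D, (DL_isDer u).mul]; ring⟩
  have hw2 : V.o (-w ^ 2) = 2 * A := by rw [V.neg, V.pow _ hw0, hwo]; push_cast; ring
  have hWU : w * U = 1 := by rw [hw]; exact inv_mul_cancel₀ hU0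
  have hWUn : w ^ N * U ^ N = 1 := by rw [← mul_pow, hWU, one_pow]
  have hI := lemI (k := k) V hD (A + 1 - r) A hA (by
      intro g hg
      have h1 := (V.ge_self (-w ^ 2)).mul (hJ g hg)
      rw [hw2] at h1
      exact h1.mono (by linarith)) (w ^ (2 * N) * X) (w ^ (3 * N) * Y) (w ^ (4 * N) * algebraMap _ L (uP u α))
    (w ^ (6 * N) * algebraMap _ L (uP u β)) (-w ^ 2 * (U ^ N * f))
    (by
      have e1 : (w ^ (3 * N) * Y) ^ 2 = w ^ (6 * N) * Y ^ 2 := by
        rw [mul_pow, ← pow_mul]; congr 2; ring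
      rw [e1, hXY, mul_pow, ← pow_mul]
      have e2 : w ^ (6 * N) = w ^ (2 * N * 3) := by congr 1; ring
      have e3 : w ^ (6 * N) = w ^ (4 * N) * w ^ (2 * N) := by rw [← pow_add]; congr 1; ring
      rw [mul_add, mul_add]
      congr 1
      congr 1
      · rw [e2]
      · rw [e3]; ring)
    (by simp only [D]; rw [(DL_isDer u).mul, hDwn, hDa]; ring)
    (by simp only [D]; rw [(DL_isDer u).mul, hDwn, hDa]; ring)
    (by
      simp only [D]
      rw [(DL_isDer u).mul, hDwn, hX]
      have e3 : w ^ (3 * N) = w ^ (2 * N) * w ^ N := by rw [← pow_add]; congr 1; ring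
      rw [e3]
      linear_combination (2 * w ^ 2 * w ^ (2 * N) * Y * f) * hWUn)
    (by
      simp only [D]
      rw [(DL_isDer u).mul, hDwn, hY]
      have e4 : w ^ (4 * N) = w ^ (3 * N) * w ^ N := by rw [← pow_add]; congr 1; ring
      have e5 : (w ^ (2 * N) * X) ^ 2 = w ^ (3 * N) * w ^ N * X ^ 2 := by
        rw [mul_pow, ← pow_mul, ← pow_add]; congr 2; ring
      rw [e5, e4]
      linear_combination (w ^ 2 * w ^ (3 * N) * (3 * X ^ 2 + algebraMap _ L (uP u α)) * f) * hWUn)
    (by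
      simp only [D]
      rw [(DL_isDer u).mul, hDwn, mul_zero, add_zero]
      exact mul_ne_zero (neg_ne_zero.2 (pow_ne_zero _ hw0)) (mul_ne_zero (pow_ne_zero _ hw0) hX0))
    (by
      rintro ⟨h1, h2⟩
      apply hN
      have key : ∀ (s : Polynomial k) (m n : ℕ), V.ge (m * A) (w ^ n * algebraMap _ L (uP u s)) →
          (s = 0 ∨ s.natDegree + m ≤ n) := by
        intro s m n h
        by_cases hs : s = 0
        · exact Or.inl hs
        right
        obtain ⟨h3, h4⟩ := ord_uP V u hu0 A hA huo s hs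
        rw [V.ge_iff (mul_ne_zero (pow_ne_zero _ hw0) h3), V.mul _ _ (pow_ne_zero _ hw0) h3, V.pow _ hw0, hwo, h4] at h
        have h5 : ((s.natDegree + m : ℕ) : ℚ) * A ≤ n * A := by push_cast; linarith
        have h6 := le_of_mul_le_mul_right h5 hA
        exact_mod_cast h6
      exact ⟨key α 4 (4 * N) (by rw [show ((4 : ℕ) : ℚ) = 4 by norm_num]; exact h1),
        key β 6 (6 * N) (by rw [show ((6 : ℕ) : ℚ) = 6 by norm_num]; exact h2)⟩)
  rw [V.mul _ _ (neg_ne_zero.2 (pow_ne_zero _ hw0)) (mul_ne_zero (pow_ne_zero _ hU0) hf0), hw2,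
    V.mul _ _ (pow_ne_zero _ hU0) hf0, V.pow _ hU0, huo] at hI
  linarith

/-- support in nonpositive exponents -/
def Ub (x : HahnSeries ℚ (Polynomial k)) : Prop := ∀ q, 0 < q → x.coeff q = 0

theorem Ub.mul {x y : HahnSeries ℚ (Polynomial k)} (hx : Ub x) (hy : Ub y) : Ub (x * y) := by
  intro q hq
  rw [HahnSeries.coeff_mul]
  apply Finset.sum_eq_zero
  rintro ⟨i, j⟩ hij
  rw [Finset.mem_antidiagonal] at hij
  obtain ⟨_, _, h⟩ := hij
  simp only at h ⊢
  by_cases hi : 0 < i
  · rw [hx i hi, zero_mul]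
  · push Not at hi
    rw [hy j (by linarith), mul_zero]

theorem EX_Ub (F : MvPolynomial (Fin 2) k) : Ub (EX (-1) (0 : HahnSeries ℚ k) F) := by
  induction F using MvPolynomial.induction_on with
  | C a =>
    rw [EX_C, HahnSeries.C_apply]
    intro q hq
    rw [HahnSeries.coeff_single, if_neg hq.ne']
  | add p q hp hq =>
    intro s hs
    rw [map_add, HahnSeries.coeff_add, hp s hs, hq s hs, add_zero]
  | mul_X p i hp =>
    rw [map_mul]
    apply hp.mul
    fin_cases i
    · change Ub (EX (-1) (0 : HahnSeries ℚ k) (X 0))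
      rw [EX_X0]
      intro q hq
      rw [HahnSeries.coeff_single, if_neg (by linarith)]
    · change Ub (EX (-1) (0 : HahnSeries ℚ k) (X 1))
      rw [EX_X1, map_zero, zero_add]
      intro q hq
      rw [HahnSeries.coeff_single, if_neg (by linarith)]

theorem Vinf_le (F : MvPolynomial (Fin 2) k) (hF : F ≠ 0) :
    (VE L (-1) (0 : HahnSeries ℚ k)).o (algebraMap _ L F) ≤ 0 := by
  rw [VE_alg]
  have h0 : EX (-1) (0 : HahnSeries ℚ k) F ≠ 0 := by
    rw [Ne, map_eq_zero_iff _ (EX_injective _ _)]; exact hF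
  by_contra h
  push Not at h
  exact HahnSeries.coeff_order_eq_zero.not.2 h0 (EX_Ub F _ h)

theorem Vinf_X0 : (VE L (-1) (0 : HahnSeries ℚ k)).o (algebraMap _ L (X 0 : MvPolynomial (Fin 2) k)) = -1 := by
  rw [VE_alg, EX_X0, HahnSeries.order_single one_ne_zero]

theorem Vinf_X1 : (VE L (-1) (0 : HahnSeries ℚ k)).o (algebraMap _ L (X 1 : MvPolynomial (Fin 2) k)) = -1 := by
  rw [VE_alg, EX_X1, map_zero, zero_add, HahnSeries.order_single Polynomial.X_ne_zero]

end

end Pool.Agent.H922R2.EL
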