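import Mathlib

set_option autoImplicit false

namespace Pool.Agent.H922R2.EL

/-- value `F` and smallest active index `i` of the tropical polynomial `min (c i + s i)` at `s` -/
def IsT (I : Finset ℕ) (c : ℕ → ℚ) (s F : ℚ) (i : ℕ) : Prop :=
  i ∈ I ∧ c i + s * i = F ∧ (∀ j ∈ I, F ≤ c j + s * j) ∧ (∀ j ∈ I, j < i → F < c j + s * j)

theorem exists_isT (I : Finset ℕ) (hI : I.Nonempty) (c : ℕ → ℚ) (s : ℚ) : ∃ F i, IsT I c s F i := by
  classical
  obtain ⟨i0, hi0, hmin⟩ := Finset.exists_min_image I (fun j => c j + s * j) hI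
  set F := c i0 + s * i0 with hF
  set J := I.filter (fun j => c j + s * j = F) with hJ
  have hJn : J.Nonempty := ⟨i0, by rw [hJ, Finset.mem_filter]; exact ⟨hi0, rfl⟩⟩
  refine ⟨F, J.min' hJn, ?_, ?_, ?_, ?_⟩
  · exact (Finset.mem_filter.1 (J.min'_mem hJn)).1
  · exact (Finset.mem_filter.1 (J.min'_mem hJn)).2
  · exact hmin
  · intro j hj hlt
    apply lt_of_le_of_ne (hmin j hj)
    intro h
    have : J.min' hJn ≤ j := J.min'_le j (Finset.mem_filter.2 ⟨hj, h.symm⟩)
    omega

theorem isT_unique {I : Finset ℕ} {c : ℕ → ℚ} {s F F' : ℚ} {i i' : ℕ} (h : IsT I c s F i) (h' : IsT I c s F' i') :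
    F = F' ∧ i = i' := by
  have h1 : F = F' := le_antisymm (h'.2.1 ▸ h.2.2.1 i' h'.1) (h.2.1 ▸ h'.2.2.1 i h.1)
  refine ⟨h1, ?_⟩
  rcases lt_trichotomy i i' with h2 | h2 | h2
  · have := h'.2.2.2 i h.1 h2
    rw [h.2.1] at this; linarith
  · exact h2
  · have := h.2.2.2 i' h'.1 h2
    rw [h'.2.1] at this; linarith

theorem isT_next {I : Finset ℕ} {c : ℕ → ℚ} {s F : ℚ} {i : ℕ} (h : IsT I c s F i) (r : ℚ) (hr : s < r) :
    ∃ s2, s < s2 ∧ s2 ≤ r ∧ (∀ t, s ≤ t → t ≤ s2 → ∀ j ∈ I, c i + t * i ≤ c j + t * j) ∧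
      (s2 < r → ∃ j ∈ I, j < i ∧ c j + s2 * j = c i + s2 * i) := by
  classical
  set B := (I.filter (fun j => j < i)).image (fun j : ℕ => (c j - c i) / ((i : ℚ) - j)) with hB
  set B' := insert r B with hB'
  have hB'n : B'.Nonempty := ⟨r, Finset.mem_insert_self _ _⟩
  have hgt : ∀ x ∈ B', s < x := by
    intro x hx
    rw [hB', Finset.mem_insert] at hx
    rcases hx with rfl | hx
    · exact hr
    · rw [hB, Finset.mem_image] at hx
      obtain ⟨j, hj, rfl⟩ := hx
      rw [Finset.mem_filter] at hj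
      have h1 := h.2.2.2 j hj.1 hj.2
      rw [← h.2.1] at h1
      have h2 : (0 : ℚ) < (i : ℚ) - j := by
        have : (j : ℚ) < i := by exact_mod_cast hj.2
        linarith
      rw [lt_div_iff₀ h2]
      linarith
  refine ⟨B'.min' hB'n, hgt _ (B'.min'_mem hB'n), B'.min'_le r (Finset.mem_insert_self _ _), ?_, ?_⟩
  · intro t ht1 ht2 j hj
    rcases lt_trichotomy j i with hlt | rfl | hlt
    · have h2 : (0 : ℚ) < (i : ℚ) - j := by
        have : (j : ℚ) < i := by exact_mod_cast hlt
        linarith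
      have h3 : t ≤ (c j - c i) / ((i : ℚ) - j) := by
        apply ht2.trans
        apply B'.min'_le
        rw [hB', Finset.mem_insert]
        right
        rw [hB, Finset.mem_image]
        exact ⟨j, Finset.mem_filter.2 ⟨hj, hlt⟩, rfl⟩
      rw [le_div_iff₀ h2] at h3
      linarith
    · exact le_rfl
    · have h1 := h.2.2.1 j hj
      rw [← h.2.1] at h1
      have h2 : (i : ℚ) < j := by exact_mod_cast hlt
      nlinarith
  · intro hlt
    have hm := B'.min'_mem hB'n
    rcases Finset.mem_insert.1 hm with hm | hm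
    · exfalso
      linarith [hm, hlt]
    · rw [Finset.mem_image] at hm
      obtain ⟨j, hj, he⟩ := hm
      rw [Finset.mem_filter] at hj
      refine ⟨j, hj.1, hj.2, ?_⟩
      have h2 : (0 : ℚ) < (i : ℚ) - j := by
        have : (j : ℚ) < i := by exact_mod_cast hj.2
        linarith
      rw [div_eq_iff h2.ne'] at he
      linarith

/-- constant ratio of two tropical polynomials -/
theorem trop_ratio (I I' : Finset ℕ) (c c' : ℕ → ℚ) (s0 r : ℚ)
    (hrel : ∀ s, s0 ≤ s → s < r → ∀ F i F' i', IsT I c s F i → IsT I' c' s F' i' → (i : ℚ) * F' = i' * F)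
    (hneg : ∀ s, s0 ≤ s → s ≤ r → ∀ F i, IsT I c s F i → F ≠ 0)
    (N : ℕ) : ∀ s, s0 ≤ s → s ≤ r → ∀ F i F' i', IsT I c s F i → IsT I' c' s F' i' → i + i' ≤ N →
      ∀ G j G' j', IsT I c r G j → IsT I' c' r G' j' → G' * F = G * F' := by
  induction N using Nat.strong_induction_on with
  | _ N ih =>
  intro s hs0 hsr F i F' i' h h' hN G j G' j' hG hG'
  rcases hsr.eq_or_lt with rfl | hlt
  · obtain ⟨rfl, -⟩ := isT_unique h hG
    obtain ⟨rfl, -⟩ := isT_unique h' hG'
    ring
  obtain ⟨s2, h1, h2, h3, h4⟩ := isT_next h r hlt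
  obtain ⟨s2', h1', h2', h3', h4'⟩ := isT_next h' r hlt
  set t := min s2 s2' with ht
  have ht1 : s < t := lt_min h1 h1'
  have htr : t ≤ r := (min_le_left _ _).trans h2
  have hFt : ∀ H l, IsT I c t H l → H = F + i * (t - s) ∧ l ≤ i := by
    intro H l hH
    have e : H = c i + t * i := by
      apply le_antisymm
      · exact hH.2.2.1 i h.1
      · rw [← hH.2.1]
        exact h3 t ht1.le (min_le_left _ _) l hH.1
    refine ⟨by rw [e, ← h.2.1]; ring, ?_⟩
    by_contra hl
    push Not at hl
    have := hH.2.2.2 i h.1 hl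
    linarith
  have hFt' : ∀ H l, IsT I' c' t H l → H = F' + i' * (t - s) ∧ l ≤ i' := by
    intro H l hH
    have e : H = c' i' + t * i' := by
      apply le_antisymm
      · exact hH.2.2.1 i' h'.1
      · rw [← hH.2.1]
        exact h3' t ht1.le (min_le_right _ _) l hH.1
    refine ⟨by rw [e, ← h'.2.1]; ring, ?_⟩
    by_contra hl
    push Not at hl
    have := hH.2.2.2 i' h'.1 hl
    linarith
  obtain ⟨H, l, hH⟩ := exists_isT I ⟨i, h.1⟩ c t
  obtain ⟨H', l', hH'⟩ := exists_isT I' ⟨i', h'.1⟩ c' t
  have hr1 := hrel s hs0 hlt F i F' i' h h'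
  have hHe := (hFt H l hH).1
  have hHe' := (hFt' H' l' hH').1
  -- the claim at `t`
  have hPt : G' * H = G * H' := by
    rcases htr.eq_or_lt with he | hlt2
    · rw [he] at hH hH'
      obtain ⟨rfl, -⟩ := isT_unique hH hG
      obtain ⟨rfl, -⟩ := isT_unique hH' hG'
      ring
    · have hdec : l + l' < i + i' := by
        rcases le_total s2 s2' with hle | hle
        · have e : t = s2 := min_eq_left hle
          rw [e] at hlt2
          obtain ⟨m, hm, hmi, hme⟩ := h4 hlt2
          have : l ≤ m := by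
            by_contra hl
            push Not at hl
            have h5 := hH.2.2.2 m hm hl
            rw [e, hme] at h5
            have h6 := hH.2.2.1 i h.1
            rw [hHe, e] at h5
            rw [hHe, e] at h6
            have h7 := h.2.1
            nlinarith [h5, h6, h7]
          have := (hFt' H' l' hH').2
          omega
        · have e : t = s2' := min_eq_right hle
          rw [e] at hlt2
          obtain ⟨m, hm, hmi, hme⟩ := h4' hlt2
          have : l' ≤ m := by
            by_contra hl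
            push Not at hl
            have h5 := hH'.2.2.2 m hm hl
            rw [e, hme] at h5
            rw [hHe', e] at h5
            have h7 := h'.2.1
            nlinarith [h5, h7]
          have := (hFt H l hH).2
          omega
      exact ih (l + l') (by omega) t (by linarith) htr H l H' l' hH hH' le_rfl G j G' j' hG hG'
  have hH0 := hneg t (by linarith) htr H l hH
  have hcomb : H' * F = H * F' := by rw [hHe, hHe']; linear_combination (t - s) * (-hr1)
  apply mul_right_cancel₀ hH0
  linear_combination F * hPt + G * hcomb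

end Pool.Agent.H922R2.EL
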