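import Mathlib
import Pool.Agent.H922R2.EL.TR
import Pool.Agent.H922R2.EL.Inf

set_option autoImplicit false
set_option linter.unusedSectionVars false
set_option linter.style.haveILetI false

open MvPolynomial

namespace Pool.Agent.H922R2.EL

open Pool.Agent.H922R2 (IsDer)
open Pool.Agent.H922R2.R
open Pool.Agent.Helper165.P1 (HQ Pui)

section wt

variable {k R : Type*} [Field k] [CommRing R]

/-- weighted leading coefficient of the image of a polynomial -/
theorem wt_lead (ψ : MvPolynomial (Fin 2) k →+* HahnSeries ℚ R) (φ : k →+* R)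
    (hC : ∀ a, ψ (C a) = HahnSeries.C (φ a)) (a0 a1 : ℚ) (h0 : Lb a0 (ψ (X 0))) (h1 : Lb a1 (ψ (X 1)))
    (F : MvPolynomial (Fin 2) k) (τ : ℚ) (hτ : ∀ m ∈ F.support, τ ≤ m 0 * a0 + m 1 * a1) :
    Lb τ (ψ F) ∧ (ψ F).coeff τ = ∑ m ∈ F.support.filter (fun m => (m 0 : ℚ) * a0 + m 1 * a1 = τ),
      φ (F.coeff m) * (((ψ (X 0)).coeff a0) ^ (m 0) * ((ψ (X 1)).coeff a1) ^ (m 1)) := by
  classical
  have hmon : ∀ m : Fin 2 →₀ ℕ, ψ (monomial m (F.coeff m)) =
      HahnSeries.C (φ (F.coeff m)) * (ψ (X 0) ^ (m 0) * ψ (X 1) ^ (m 1)) := by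
    intro m
    rw [MvPolynomial.monomial_eq, map_mul, hC, Finsupp.prod_fintype _ _ (by simp), Fin.prod_univ_two, map_mul,
      map_pow, map_pow]
  have hL : ∀ m : Fin 2 →₀ ℕ, Lb ((m 0 : ℚ) * a0 + m 1 * a1) (ψ (monomial m (F.coeff m))) := by
    intro m
    rw [hmon]
    have := (Lb_C (φ (F.coeff m))).mul ((h0.pow (m 0)).mul (h1.pow (m 1)))
    rwa [zero_add] at this
  have hc : ∀ m : Fin 2 →₀ ℕ, (ψ (monomial m (F.coeff m))).coeff ((m 0 : ℚ) * a0 + m 1 * a1) =
      φ (F.coeff m) * (((ψ (X 0)).coeff a0) ^ (m 0) * ((ψ (X 1)).coeff a1) ^ (m 1)) := by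
    intro m
    rw [hmon]
    have h2 := (Lb_C (φ (F.coeff m))).coeff_mul ((h0.pow (m 0)).mul (h1.pow (m 1)))
    rw [zero_add] at h2
    rw [h2, (h0.pow (m 0)).coeff_mul (h1.pow (m 1)), h0.coeff_pow, h1.coeff_pow, HahnSeries.C_apply,
      HahnSeries.coeff_single, if_pos rfl]
  have hF : ψ F = ∑ m ∈ F.support, ψ (monomial m (F.coeff m)) := by
    conv_lhs => rw [F.as_sum]
    rw [map_sum]
  rw [hF]
  refine ⟨Lb.sum fun m hm => (hL m).mono (hτ m hm), ?_⟩
  rw [HahnSeries.coeff_sum, Finset.sum_filter]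
  apply Finset.sum_congr rfl
  intro m hm
  split_ifs with h
  · rw [← h, hc]
  · exact hL m τ (lt_of_le_of_ne (hτ m hm) (fun h' => h h'.symm))

end wt

section

variable {k : Type*} [Field k] [CharZero k] [IsAlgClosed k]

/-- `u` has a constant leading coefficient in `y` and `y`-degree equal to its total degree -/
def MonT (u : MvPolynomial (Fin 2) k) : Prop := MonY u ∧ (toY k u).natDegree = u.totalDegree

theorem toY_coeff (F : MvPolynomial (Fin 2) k) (m : Fin 2 →₀ ℕ) :
    ((toY k F).coeff (m 1)).coeff (m 0) = F.coeff m := by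
  classical
  induction F using MvPolynomial.induction_on' with
  | monomial n a =>
    have h1 : toY k (monomial n a) = Polynomial.monomial (n 1) (Polynomial.monomial (n 0) a) := by
      rw [MvPolynomial.monomial_eq, map_mul, toY_C, Finsupp.prod_fintype _ _ (by simp), Fin.prod_univ_two, map_mul,
        map_pow, map_pow, toY_X0, toY_X1, ← Polynomial.C_mul_X_pow_eq_monomial, ← Polynomial.C_mul_X_pow_eq_monomial,
        map_mul, map_pow]
      ring
    rw [h1, Polynomial.coeff_monomial, MvPolynomial.coeff_monomial]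
    by_cases h : n = m
    · rw [h, if_pos rfl, if_pos rfl, Polynomial.coeff_monomial, if_pos rfl]
    · rw [if_neg h]
      split_ifs with h2
      · rw [Polynomial.coeff_monomial, if_neg]
        intro h3
        apply h
        ext i
        fin_cases i
        · exact h3
        · exact h2
      · rfl
  | add p q hp hq => rw [map_add, Polynomial.coeff_add, Polynomial.coeff_add, hp, hq, MvPolynomial.coeff_add]

theorem le_td {F : MvPolynomial (Fin 2) k} {m : Fin 2 →₀ ℕ} (hm : m ∈ F.support) : m 0 + m 1 ≤ F.totalDegree := by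
  have := MvPolynomial.le_totalDegree hm
  rwa [Finsupp.sum_fintype _ _ (by simp), Fin.sum_univ_two] at this

theorem exists_td (F : MvPolynomial (Fin 2) k) (hF : F ≠ 0) : ∃ m ∈ F.support, m 0 + m 1 = F.totalDegree := by
  obtain ⟨m, hm, h⟩ := Finset.exists_mem_eq_sup F.support (MvPolynomial.support_nonempty.2 hF)
    (fun s => s.sum fun _ e => e)
  refine ⟨m, hm, ?_⟩
  rw [MvPolynomial.totalDegree, h, Finsupp.sum_fintype _ _ (by simp), Fin.sum_univ_two]

/-- order at the line at infinity -/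
theorem ord_inf (Y : HahnSeries ℚ k) (hY : Lb (-1) Y) (F : MvPolynomial (Fin 2) k) (hF : F ≠ 0) :
    (EX (-1) Y F).order = -(F.totalDegree : ℚ) := by
  classical
  have h0 : Lb (-1) (EX (-1) Y (X 0)) := by rw [EX_X0]; exact Lb_single _ _
  have h1 : Lb (-1) (EX (-1) Y (X 1)) := by
    rw [EX_X1]; exact (hY.hmap _).add (Lb_single _ _)
  have h := wt_lead (EX (-1) Y) Polynomial.C (fun a => EX_C _ _ a) (-1) (-1) h0 h1 F (-(F.totalDegree : ℚ)) (by
    intro m hm
    have := le_td hm
    have : ((m 0 : ℚ) + m 1) ≤ F.totalDegree := by exact_mod_cast this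
    linarith)
  have c0 : (EX (-1) Y (X 0)).coeff (-1) = 1 := by
    rw [EX_X0, HahnSeries.coeff_single, if_pos rfl]
  have c1 : (EX (-1) Y (X 1)).coeff (-1) = Polynomial.X + Polynomial.C (Y.coeff (-1)) := by
    rw [EX_X1, HahnSeries.coeff_add, hmap_coeff, HahnSeries.coeff_single, if_pos rfl, add_comm]
  apply order_eq_of h.1
  rw [h.2, c0, c1]
  obtain ⟨m, hm, hmt⟩ := exists_td F hF
  intro hz
  have h2 := congrArg (fun P => (P.comp (Polynomial.X - Polynomial.C (Y.coeff (-1)))).coeff (m 1)) hz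
  simp only [Polynomial.zero_comp, Polynomial.coeff_zero] at h2
  rw [Polynomial.sum_comp, Polynomial.finsetSum_coeff, Finset.sum_eq_single m] at h2
  · simp only [one_pow, one_mul, Polynomial.mul_comp, Polynomial.C_comp, Polynomial.pow_comp, Polynomial.add_comp,
      Polynomial.X_comp, sub_add_cancel, Polynomial.coeff_C_mul, Polynomial.coeff_X_pow, if_true, mul_one] at h2
    exact (MvPolynomial.mem_support_iff.1 hm) h2
  · intro m' hm' hne
    simp only [one_pow, one_mul, Polynomial.mul_comp, Polynomial.C_comp, Polynomial.pow_comp, Polynomial.add_comp,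
      Polynomial.X_comp, sub_add_cancel, Polynomial.coeff_C_mul, Polynomial.coeff_X_pow]
    rw [if_neg, mul_zero]
    intro h3
    apply hne
    rw [Finset.mem_filter] at hm'
    have h4 : (m' 0 : ℚ) + m' 1 = F.totalDegree := by linarith [hm'.2]
    have h5 : m' 0 + m' 1 = F.totalDegree := by exact_mod_cast h4
    ext i
    fin_cases i
    · change m' 0 = m 0; omega
    · exact h3.symm
  · intro hn
    exfalso
    apply hn
    rw [Finset.mem_filter]
    refine ⟨hm, ?_⟩
    have : ((m 0 : ℚ) + m 1) = F.totalDegree := by exact_mod_cast hmt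
    linarith

/-- Puiseux roots of fibres of `u` have order at least `-1` -/
theorem ordY (u : MvPolynomial (Fin 2) k) (hm : MonT u) (c : k) (Y : HahnSeries ℚ k)
    (hu : th Y u = HahnSeries.C c) : Lb (-1) Y := by
  classical
  by_cases hY0 : Y = 0
  · rw [hY0]; exact Lb.zero _
  by_contra hcon
  have hσ : Y.order < -1 := by
    by_contra h
    push Not at h
    exact hcon ((Lb_order Y).mono h)
  set σ := Y.order with hσd
  set n := u.totalDegree with hn
  have h0 : Lb (-1) (th Y (X 0 : MvPolynomial (Fin 2) k)) := by rw [th_X0]; exact Lb_single _ _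
  have h1 : Lb σ (th Y (X 1 : MvPolynomial (Fin 2) k)) := by rw [th_X1]; exact Lb_order _
  have hkey : ∀ m ∈ u.support, (n : ℚ) * σ ≤ m 0 * (-1) + m 1 * σ ∧
      ((m 0 : ℚ) * (-1) + m 1 * σ = n * σ → m 0 = 0 ∧ m 1 = n) := by
    intro m hm
    have h2 := le_td hm
    have h3 : ((m 0 : ℚ) + m 1) ≤ n := by exact_mod_cast h2
    have h4 : (0 : ℚ) ≤ m 0 := Nat.cast_nonneg _
    constructor
    · nlinarith
    · intro h5
      have h6 : ((n : ℚ) - m 0 - m 1) * σ + m 0 * (σ + 1) = 0 := by linarith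
      have h7 : ((n : ℚ) - m 0 - m 1) * σ ≤ 0 := by nlinarith
      have h8 : (m 0 : ℚ) * (σ + 1) ≤ 0 := by nlinarith
      have h9 : (m 0 : ℚ) * (σ + 1) = 0 := by linarith
      have h10 : (m 0 : ℚ) = 0 := by
        rcases mul_eq_zero.1 h9 with h | h
        · exact h
        · linarith
      have h11 : ((n : ℚ) - m 0 - m 1) * σ = 0 := by linarith
      have h12 : (n : ℚ) - m 0 - m 1 = 0 := by
        rcases mul_eq_zero.1 h11 with h | h
        · exact h
        · linarith
      constructor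
      · exact_mod_cast h10
      · have : (m 1 : ℚ) = n := by linarith
        exact_mod_cast this
  have h := wt_lead (th Y) (RingHom.id k) (fun a => th_C _ a) (-1) σ h0 h1 u (n * σ) (fun m hm => (hkey m hm).1)
  have hn2 : 2 ≤ n := by rw [hn, ← hm.2]; exact hm.1.1
  have hneg : (n : ℚ) * σ < 0 := by
    have : (2 : ℚ) ≤ n := by exact_mod_cast hn2
    nlinarith
  have hzero : (th Y u).coeff (n * σ) = 0 := by
    rw [hu, HahnSeries.C_apply, HahnSeries.coeff_single, if_neg hneg.ne]
  rw [hzero] at h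
  set m0 : Fin 2 →₀ ℕ := Finsupp.single 1 n with hm0
  have hc0 : u.coeff m0 ≠ 0 := by
    rw [← toY_coeff]
    have e0 : m0 0 = 0 := by rw [hm0]; simp
    have e1 : m0 1 = n := by rw [hm0]; simp
    rw [e0, e1, hn, ← hm.2]
    obtain ⟨κ, hκ, hl⟩ := hm.1.2
    change ((toY k u).leadingCoeff).coeff 0 ≠ 0
    rw [hl]; simpa using hκ
  have hfil : u.support.filter (fun m => (m 0 : ℚ) * (-1) + m 1 * σ = n * σ) = {m0} := by
    ext m
    rw [Finset.mem_filter, Finset.mem_singleton]
    constructor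
    · rintro ⟨hm1, hm2⟩
      have := (hkey m hm1).2 hm2
      ext i
      fin_cases i
      · change m 0 = m0 0
        rw [this.1, hm0]; simp
      · change m 1 = m0 1
        rw [this.2, hm0]; simp
    · rintro rfl
      refine ⟨MvPolynomial.mem_support_iff.2 hc0, ?_⟩
      rw [hm0]; simp
  rw [hfil, Finset.sum_singleton] at h
  have h2 := h.2.symm
  have e0 : m0 0 = 0 := by rw [hm0]; simp
  have e1 : m0 1 = n := by rw [hm0]; simp
  rw [e0, e1, pow_zero, one_mul, th_X1, RingHom.id_apply] at h2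
  exact mul_ne_zero hc0 (pow_ne_zero _ (HahnSeries.coeff_order_eq_zero.not.2 hY0)) h2

/-- coefficients of a product at the lowest index -/
theorem coeff_mul_low {R : Type*} [CommRing R] (P Q : Polynomial R) (i j : ℕ) (hP : ∀ a < i, P.coeff a = 0)
    (hQ : ∀ b < j, Q.coeff b = 0) : (P * Q).coeff (i + j) = P.coeff i * Q.coeff j := by
  rw [Polynomial.coeff_mul]
  rw [Finset.sum_eq_single (i, j)]
  · rintro ⟨a, b⟩ hab hne
    rw [Finset.HasAntidiagonal.mem_antidiagonal] at hab
    simp only at hab ⊢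
    rcases lt_trichotomy a i with h | h | h
    · rw [hP a h, zero_mul]
    · exfalso; apply hne; subst h; congr 1; omega
    · rw [hQ b (by omega), mul_zero]
  · intro h
    exfalso; apply h
    rw [Finset.HasAntidiagonal.mem_antidiagonal]

/-- tropical description of the orders -/
theorem isT_ord (Y : HahnSeries ℚ k) (g : MvPolynomial (Fin 2) k) (s F : ℚ) (i : ℕ)
    (h : IsT (EY Y g).support (fun i => ((EY Y g).coeff i).order) s F i) :
    Lb F (EX s Y g) ∧ ((EX s Y g).coeff F).coeff i ≠ 0 ∧ (∀ j < i, ((EX s Y g).coeff F).coeff j = 0) ∧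
      (EX s Y g).order = F := by
  obtain ⟨h1, h2, h3, h4⟩ := h
  have hL : Lb F (EX s Y g) := by
    rw [EX_apply, Lb_Ph_iff]
    intro j
    by_cases hj : (EY Y g).coeff j = 0
    · rw [hj]; exact Lb.zero _
    · exact (Lb_order _).mono (by have := h3 j (Polynomial.mem_support_iff.2 hj); linarith)
  have hc : ∀ j, ((EX s Y g).coeff F).coeff j = ((EY Y g).coeff j).coeff (F - s * j) := by
    intro j; rw [EX_apply, Ph_coeff]
  have hne : ((EX s Y g).coeff F).coeff i ≠ 0 := by
    rw [hc, show F - s * i = ((EY Y g).coeff i).order by linarith]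
    exact HahnSeries.coeff_order_eq_zero.not.2 (Polynomial.mem_support_iff.1 h1)
  refine ⟨hL, hne, ?_, ?_⟩
  · intro j hj
    rw [hc]
    by_cases hj0 : (EY Y g).coeff j = 0
    · rw [hj0]; rfl
    · have := h4 j (Polynomial.mem_support_iff.2 hj0) hj
      exact Lb_order _ _ (by linarith)
  · apply order_eq_of hL
    intro h0
    rw [h0] at hne
    exact hne rfl

end

end Pool.Agent.H922R2.EL
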