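import Mathlib
import Pool.Agent.H922R2.EL.DR

set_option autoImplicit false
set_option linter.unusedSectionVars false
set_option linter.style.haveILetI false

open MvPolynomial

namespace Pool.Agent.H922R2.EL

open Pool.Agent.H922R2 (IsDer)
open Pool.Agent.H922R2.R
open Pool.Agent.Helper165.P1 (HQ Pui)

section

variable {k : Type*} [Field k] [CharZero k] [IsAlgClosed k]

/-- behaviour below slope `-1` -/
theorem lead_low {R : Type*} [CommRing R] (ψ : MvPolynomial (Fin 2) k →+* HahnSeries ℚ R) (φ : k →+* R)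
    (hC : ∀ a, ψ (C a) = HahnSeries.C (φ a)) (σ : ℚ) (hσ : σ < -1) (h0 : Lb (-1) (ψ (X 0))) (h1 : Lb σ (ψ (X 1)))
    (u : MvPolynomial (Fin 2) k) (hm : MonT u) :
    ∃ κ : k, κ ≠ 0 ∧ Lb (u.totalDegree * σ) (ψ u) ∧
      (ψ u).coeff (u.totalDegree * σ) = φ κ * ((ψ (X 1)).coeff σ) ^ u.totalDegree := by
  classical
  set n := u.totalDegree with hn
  have hkey : ∀ m ∈ u.support, (n : ℚ) * σ ≤ m 0 * (-1) + m 1 * σ ∧
      ((m 0 : ℚ) * (-1) + m 1 * σ = n * σ → m 0 = 0 ∧ m 1 = n) := by
    intro m hm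
    have h2 := le_td hm
    have h3 : ((m 0 : ℚ) + m 1) ≤ n := by exact_mod_cast h2
    have h4 : (0 : ℚ) ≤ m 0 := Nat.cast_nonneg _
    constructor
    · nlinarith
    · intro h5
      have h6 : ((n : ℚ) - m 0 - m 1) * σ + m 0 * (σ + 1) = 0 := by linarith
      have h7 : ((n : ℚ) - m 0 - m 1) * σ ≤ 0 := by nlinarith
      have h8 : (m 0 : ℚ) * (σ + 1) ≤ 0 := by nlinarith
      have h9 : (m 0 : ℚ) * (σ + 1) = 0 := by linarith
      have h10 : (m 0 : ℚ) = 0 := by
        rcases mul_eq_zero.1 h9 with h | h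
        · exact h
        · linarith
      have h11 : ((n : ℚ) - m 0 - m 1) * σ = 0 := by linarith
      have h12 : (n : ℚ) - m 0 - m 1 = 0 := by
        rcases mul_eq_zero.1 h11 with h | h
        · exact h
        · linarith
      constructor
      · exact_mod_cast h10
      · have : (m 1 : ℚ) = n := by linarith
        exact_mod_cast this
  have h := wt_lead ψ φ hC (-1) σ h0 h1 u (n * σ) (fun m hm => (hkey m hm).1)
  set m0 : Fin 2 →₀ ℕ := Finsupp.single 1 n with hm0
  have e0 : m0 0 = 0 := by rw [hm0]; simp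
  have e1 : m0 1 = n := by rw [hm0]; simp
  have hc0 : u.coeff m0 ≠ 0 := by
    rw [← toY_coeff, e0, e1, hn, ← hm.2]
    obtain ⟨κ, hκ, hl⟩ := hm.1.2
    change ((toY k u).leadingCoeff).coeff 0 ≠ 0
    rw [hl]; simpa using hκ
  have hfil : u.support.filter (fun m => (m 0 : ℚ) * (-1) + m 1 * σ = n * σ) = {m0} := by
    ext m
    rw [Finset.mem_filter, Finset.mem_singleton]
    constructor
    · rintro ⟨hm1, hm2⟩
      have := (hkey m hm1).2 hm2
      ext i
      fin_cases i
      · change m 0 = m0 0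
        rw [this.1, e0]
      · change m 1 = m0 1
        rw [this.2, e1]
    · rintro rfl
      refine ⟨MvPolynomial.mem_support_iff.2 hc0, ?_⟩
      rw [e0, e1]; simp
  refine ⟨u.coeff m0, hc0, h.1, ?_⟩
  rw [h.2, hfil, Finset.sum_singleton, e0, e1, pow_zero, one_mul]

theorem ED_r_ge {u : MvPolynomial (Fin 2) k} (hm : MonT u) {c : k} {Y : HahnSeries ℚ k} (hY : Lb (-1) Y)
    (e : R.ED u c Y) : -1 ≤ e.r := by
  by_contra hcon
  push Not at hcon
  have h0 : Lb (-1) (EX e.r Y (X 0 : MvPolynomial (Fin 2) k)) := by rw [EX_X0]; exact Lb_single _ _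
  have h1 : Lb e.r (EX e.r Y (X 1 : MvPolynomial (Fin 2) k)) := by
    rw [EX_X1]; exact ((hY.hmap _).mono hcon.le).add (Lb_single _ _)
  obtain ⟨κ, hκ, hL, hc⟩ := lead_low (EX e.r Y) Polynomial.C (fun a => EX_C _ _ a) e.r hcon h0 h1 u hm
  have hx1 : (EX e.r Y (X 1 : MvPolynomial (Fin 2) k)).coeff e.r = Polynomial.X := by
    rw [EX_X1, HahnSeries.coeff_add, hmap_coeff, hY _ hcon, map_zero, zero_add, HahnSeries.coeff_single, if_pos rfl]
  rw [hx1] at hc
  have hne : (EX e.r Y u).coeff (u.totalDegree * e.r) ≠ 0 := by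
    rw [hc]
    exact mul_ne_zero (Polynomial.C_ne_zero.2 hκ) (pow_ne_zero _ Polynomial.X_ne_zero)
  have hlc := leadingCoeff_eq_of hL hne
  rw [hc, e.lc_u.2] at hlc
  have hn2 : 2 ≤ u.totalDegree := by rw [← hm.2]; exact hm.1.1
  have hp0 : e.p.eval 0 = 0 := by rw [← Polynomial.coeff_zero_eq_eval_zero]; exact e.hp0
  apply e.q_ne 0 hp0
  rw [hlc, Polynomial.derivative_C_mul, Polynomial.derivative_X_pow, Polynomial.eval_mul, Polynomial.eval_mul,
    Polynomial.eval_pow, Polynomial.eval_X, zero_pow (by omega)]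
  ring

theorem coeff_X_mul_der (Q : Polynomial k) (b : ℕ) :
    (Polynomial.X * Polynomial.derivative Q).coeff b = (b : k) * Q.coeff b := by
  rcases b with _ | b
  · simp
  · rw [Polynomial.coeff_X_mul, Polynomial.coeff_derivative]; push_cast; ring

/-- pole orders at `E` are proportional to total degrees -/
theorem ED_ratio {u : MvPolynomial (Fin 2) k} (hm : MonT u) {c : k} {Y : HahnSeries ℚ k}
    (hu : th Y u = HahnSeries.C c) (e : R.ED u c Y) :
    e.b * u.totalDegree = e.a * e.v.totalDegree := by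
  classical
  have hY := ordY u hm c Y hu
  have hr := ED_r_ge hm hY e
  have hu0 : u ≠ 0 := by
    rintro rfl
    have := hm.1.1
    rw [map_zero, Polynomial.natDegree_zero] at this
    omega
  have hv0 : e.v ≠ 0 := by
    intro h
    have := e.hJ
    rw [h] at this
    simp [Jb] at this
  set I := (EY Y u).support with hI
  set I' := (EY Y e.v).support with hI'
  set cc : ℕ → ℚ := fun i => ((EY Y u).coeff i).order with hcc
  set cc' : ℕ → ℚ := fun i => ((EY Y e.v).coeff i).order with hcc'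
  set d := e.p.natDegree with hd
  have hd2 : 2 ≤ d := e.hd2
  have hdQ : (2 : ℚ) ≤ d := by exact_mod_cast hd2
  have ha := e.ha
  have hb := e.hb
  -- the index `d` of `u`
  have hcd : ((EY Y u).coeff d).coeff (-e.a - e.r * d) ≠ 0 := by
    rw [← Ph_coeff, ← EX_apply]
    have h1 : (EX e.r Y u).coeff (-e.a) = e.p := by
      have h2 := HahnSeries.leadingCoeff_eq (x := EX e.r Y u)
      rw [e.lc_u.1, e.lc_u.2] at h2
      exact h2.symm
    rw [h1]
    exact Polynomial.leadingCoeff_ne_zero.2 e.p_ne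
  have hdI : d ∈ I := by
    rw [hI, Polynomial.mem_support_iff]
    intro h; rw [h] at hcd; exact hcd rfl
  have hcd' : cc d ≤ -e.a - e.r * d := HahnSeries.order_le_of_coeff_ne_zero hcd
  have h0I' : 0 ∈ I' := by
    rw [hI', Polynomial.mem_support_iff, ← th_apply]
    exact e.hth.1
  have hc0' : cc' 0 = -e.b := by
    rw [hcc']
    change ((EY Y e.v).coeff 0).order = _
    rw [← th_apply]
    exact e.hth.2
  have hFle : ∀ s, s ≤ e.r → ∀ F i, IsT I cc s F i → F ≤ -e.a - 2 * (e.r - s) := by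
    intro s hs F i h
    have h1 := h.2.2.1 d hdI
    have : s * d - e.r * d ≤ -2 * (e.r - s) := by nlinarith
    linarith
  have hFle' : ∀ s F i, IsT I' cc' s F i → F ≤ -e.b := by
    intro s F i h
    have h1 := h.2.2.1 0 h0I'
    rw [hc0'] at h1
    simpa using h1
  have hmain := trop_ratio I I' cc cc' (-1) e.r (by
      intro s hs0 hs1 F i F' i' h h'
      have h1 := hFle s hs1.le F i h
      have h2 := hFle' s F' i' h'
      obtain ⟨L1, n1, z1, -⟩ := isT_ord Y u s F i h
      obtain ⟨L2, n2, z2, -⟩ := isT_ord Y e.v s F' i' h'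
      have hsum : F + F' < s - 1 := by have := e.hab; linarith
      have hbr := EX_bracket s Y u e.v
      rw [e.hJ, RingHom.map_one, mul_one] at hbr
      have hco := congrArg (fun x => HahnSeries.coeff x (F + F')) hbr
      simp only [HahnSeries.coeff_sub, HahnSeries.coeff_neg, HahnSeries.coeff_single] at hco
      rw [if_neg hsum.ne, neg_zero, (L1.eul k).coeff_mul L2.dxi, L1.dxi.coeff_mul (L2.eul k), eul_coeff, eul_coeff,
        dxi_coeff, dxi_coeff, Polynomial.algebraMap_eq] at hco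
      set P := (EX s Y u).coeff F with hP
      set Q := (EX s Y e.v).coeff F' with hQ
      have h3 : Polynomial.C ((F : ℚ) : k) * (P * (Polynomial.X * Polynomial.derivative Q)) -
          Polynomial.C ((F' : ℚ) : k) * ((Polynomial.X * Polynomial.derivative P) * Q) = 0 := by
        linear_combination Polynomial.X * hco
      have h4 := congrArg (fun T => Polynomial.coeff T (i + i')) h3
      simp only [Polynomial.coeff_sub, Polynomial.coeff_zero, Polynomial.coeff_C_mul] at h4
      rw [coeff_mul_low P _ i i' z1 (by intro b hb; rw [coeff_X_mul_der, z2 b hb, mul_zero]),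
        coeff_mul_low _ Q i i' (by intro b hb; rw [coeff_X_mul_der, z1 b hb, mul_zero]) z2,
        coeff_X_mul_der, coeff_X_mul_der] at h4
      have h5 : (((i' : ℚ) * F - i * F' : ℚ) : k) * (P.coeff i * Q.coeff i') = 0 := by
        push_cast
        linear_combination h4
      have h6 := (mul_eq_zero.1 h5).resolve_right (mul_ne_zero n1 n2)
      have h7 : ((i' : ℚ) * F - i * F' : ℚ) = 0 := by exact_mod_cast h6
      linarith)
    (by
      intro s hs0 hs1 F i h
      have := hFle s hs1 F i h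
      intro h0
      linarith)
  obtain ⟨F, i, hF⟩ := exists_isT I ⟨d, hdI⟩ cc (-1)
  obtain ⟨F', i', hF'⟩ := exists_isT I' ⟨0, h0I'⟩ cc' (-1)
  obtain ⟨G, j, hG⟩ := exists_isT I ⟨d, hdI⟩ cc e.r
  obtain ⟨G', j', hG'⟩ := exists_isT I' ⟨0, h0I'⟩ cc' e.r
  have hfin := hmain (i + i') (-1) le_rfl hr F i F' i' hF hF' le_rfl G j G' j' hG hG'
  have e1 : F = -(u.totalDegree : ℚ) := by
    rw [← (isT_ord Y u (-1) F i hF).2.2.2, ord_inf Y hY u hu0]
  have e2 : F' = -(e.v.totalDegree : ℚ) := by
    rw [← (isT_ord Y e.v (-1) F' i' hF').2.2.2, ord_inf Y hY e.v hv0]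
  have e3 : G = -e.a := by rw [← (isT_ord Y u e.r G j hG).2.2.2, e.lc_u.1]
  have e4 : G' = -e.b := by rw [← (isT_ord Y e.v e.r G' j' hG').2.2.2, e.lc_v.1]
  rw [e1, e2, e3, e4] at hfin
  linarith

end

end Pool.Agent.H922R2.EL
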