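import Mathlib
import Pool.Agent.H922R2.EL.Defs

set_option autoImplicit false
set_option linter.unusedSectionVars false

namespace Pool.Agent.H922R2.EL

open Pool.Agent.H922R2 (IsDer)
open Pool.Agent.H922R2.R

variable {k L : Type*} [Field k] [CharZero k] [Field L] [CharZero L] [Algebra k L] (V : OV k L)

/-- values on a stable subring -/
theorem lemM {D : L → L} (S : Subring L) (f : L) (c : ℚ) (hc : 0 < c)
    (hS0 : ∀ g ∈ S, g ≠ 0 → 0 ≤ V.o g) (hSD : ∀ g ∈ S, ∃ g' ∈ S, D g = f * g')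
    (hE : ∀ g, g ≠ 0 → V.o g ≠ 0 → D g ≠ 0 ∧ V.o (D g) = V.o g + V.o f - c) :
    ∀ g ∈ S, g ≠ 0 → ∃ n : ℕ, V.o g = n * c := by
  have main : ∀ N : ℕ, ∀ g ∈ S, g ≠ 0 → V.o g < N * c → ∃ n : ℕ, V.o g = n * c := by
    intro N
    induction N with
    | zero =>
      intro g hg h0 hlt
      have := hS0 g hg h0
      rw [Nat.cast_zero, zero_mul] at hlt
      linarith
    | succ N ih =>
      intro g hg h0 hlt
      by_cases hz : V.o g = 0
      · exact ⟨0, by rw [hz]; simp⟩
      obtain ⟨g', hg', he⟩ := hSD g hg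
      obtain ⟨h1, h2⟩ := hE g h0 hz
      rw [he] at h1 h2
      have hf0 : f ≠ 0 := left_ne_zero_of_mul h1
      have hg0 : g' ≠ 0 := right_ne_zero_of_mul h1
      rw [V.mul _ _ hf0 hg0] at h2
      have h3 : V.o g' = V.o g - c := by linarith
      obtain ⟨n, hn⟩ := ih g' hg' hg0 (by rw [h3]; push_cast at hlt; linarith)
      refine ⟨n + 1, ?_⟩
      push_cast
      linarith
  intro g hg h0
  obtain ⟨N, hN⟩ := exists_nat_gt (V.o g / c)
  exact main N g hg h0 (by rwa [div_lt_iff₀ hc] at hN)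

/-- fractions of a subring -/
theorem frac_sub (S : Subring L) (z : L) (T : Set L) (hT : ∀ t ∈ T, ∃ p ∈ S, ∃ q ∈ S, q ≠ 0 ∧ t = p / q)
    (hk : ∀ c : k, algebraMap k L c ∈ S) (hz : z ∈ IntermediateField.adjoin k T) :
    ∃ p ∈ S, ∃ q ∈ S, q ≠ 0 ∧ z = p / q := by
  induction hz using IntermediateField.adjoin_induction with
  | mem x hx => exact hT x hx
  | algebraMap x => exact ⟨_, hk x, 1, S.one_mem, one_ne_zero, by rw [div_one]⟩
  | add x y _ _ hx hy =>
    obtain ⟨p, hp, q, hq, hq0, rfl⟩ := hx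
    obtain ⟨p', hp', q', hq', hq0', rfl⟩ := hy
    exact ⟨p * q' + q * p', S.add_mem (S.mul_mem hp hq') (S.mul_mem hq hp'), q * q', S.mul_mem hq hq',
      mul_ne_zero hq0 hq0', div_add_div _ _ hq0 hq0'⟩
  | inv x _ hx =>
    obtain ⟨p, hp, q, hq, hq0, rfl⟩ := hx
    by_cases hp0 : p = 0
    · exact ⟨0, S.zero_mem, 1, S.one_mem, one_ne_zero, by rw [hp0]; simp⟩
    · exact ⟨q, hq, p, hp, hp0, by rw [inv_div]⟩
  | mul x y _ _ hx hy =>
    obtain ⟨p, hp, q, hq, hq0, rfl⟩ := hx
    obtain ⟨p', hp', q', hq', hq0', rfl⟩ := hy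
    exact ⟨p * p', S.mul_mem hp hp', q * q', S.mul_mem hq hq', mul_ne_zero hq0 hq0', div_mul_div_comm _ _ _ _⟩

variable {K : Type*} [Field K] (κ : K →+* L)

/-- all values are multiples of `c` -/
theorem lemM_L {D : L → L} (hD : IsDer D) (hκ : ∀ x : K, D (κ x) = 0) (hκo : ∀ x : K, x ≠ 0 → V.o (κ x) = 0)
    (hkκ : ∀ c : k, ∃ x : K, κ x = algebraMap k L c)
    (X Y f : L) (α β : K) (hXY : Y ^ 2 = X ^ 3 + κ α * X + κ β)
    (hX : D X = 2 * Y * f) (hY : D Y = (3 * X ^ 2 + κ α) * f) (hY0 : Y ≠ 0)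
    (T : Set L) (hT : ∀ t ∈ T, t = X ∨ t = Y ∨ ∃ x, t = κ x)
    (hgen : IntermediateField.adjoin k T = ⊤) (c : ℚ) (hc : 0 < c)
    (hE : ∀ g, g ≠ 0 → V.o g ≠ 0 → D g ≠ 0 ∧ V.o (D g) = V.o g + V.o f - c) (z : L) (hz0 : z ≠ 0) :
    ∃ n : ℤ, V.o z = n * c := by
  have h20 : (2 : L) ≠ 0 := two_ne_zero
  have ho2 : V.o (2 : L) = 0 := by simpa using V.nat 2 (by norm_num)
  have ho3 : V.o (3 : L) = 0 := by simpa using V.nat 3 (by norm_num)
  have gκ : ∀ x : K, V.ge 0 (κ x) := by
    intro x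
    by_cases hx : x = 0
    · rw [hx, map_zero]; exact V.ge_zero _
    · right; rw [hκo x hx]
  -- general closing argument
  have fin : ∀ S : Subring L, (∀ g ∈ S, V.ge 0 g) → (∀ g ∈ S, ∃ g' ∈ S, D g = f * g') →
      (∀ x : K, κ x ∈ S) → (∀ t ∈ T, ∃ p ∈ S, ∃ q ∈ S, q ≠ 0 ∧ t = p / q) → ∃ n : ℤ, V.o z = n * c := by
    intro S h1 h2 h3 h4
    have h5 := lemM V S f c hc (fun g hg h0 => (V.ge_iff h0).1 (h1 g hg)) h2 hE
    obtain ⟨p, hp, q, hq, hq0, he⟩ := frac_sub (k := k) S z T h4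
      (fun c => by obtain ⟨x, hx⟩ := hkκ c; rw [← hx]; exact h3 x) (by rw [hgen]; trivial)
    have hp0 : p ≠ 0 := by rintro rfl; rw [zero_div] at he; exact hz0 he
    obtain ⟨n, hn⟩ := h5 p hp hp0
    obtain ⟨m, hm⟩ := h5 q hq hq0
    refine ⟨n - m, ?_⟩
    rw [he, V.div _ _ hp0 hq0, hn, hm]
    push_cast; ring
  by_cases hX0 : V.ge 0 X
  · -- affine part
    have hYge : V.ge 0 Y := by
      right
      have h1 : V.ge 0 (Y ^ 2) := by
        rw [hXY]
        have h2 := hX0.pow 3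
        have h3 := (gκ α).mul hX0
        rw [mul_zero] at h2
        rw [add_zero] at h3
        exact (h2.add h3).add (gκ β)
      rw [V.ge_iff (pow_ne_zero _ hY0), V.pow _ hY0] at h1
      push_cast at h1
      linarith
    set S := Subring.closure ({X, Y} ∪ Set.range κ) with hS
    have hXS : X ∈ S := Subring.subset_closure (Or.inl (Or.inl rfl))
    have hYS : Y ∈ S := Subring.subset_closure (Or.inl (Or.inr rfl))
    have hκS : ∀ x, κ x ∈ S := fun x => Subring.subset_closure (Or.inr ⟨x, rfl⟩)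
    apply fin S
    · intro g hg
      induction hg using Subring.closure_induction with
      | mem x hx =>
        rcases hx with (rfl | rfl) | ⟨y, rfl⟩
        · exact hX0
        · exact hYge
        · exact gκ y
      | zero => exact V.ge_zero _
      | one => right; rw [V.one]
      | add x y _ _ hx hy => exact hx.add hy
      | neg x _ hx => exact hx.neg
      | mul x y _ _ hx hy => have := hx.mul hy; rwa [add_zero] at this
    · intro g hg
      induction hg using Subring.closure_induction with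
      | mem x hx =>
        rcases hx with (rfl | rfl) | ⟨y, rfl⟩
        · exact ⟨2 * Y, S.mul_mem (by simpa using S.natCast_mem 2) hYS, by rw [hX]; ring⟩
        · exact ⟨3 * X ^ 2 + κ α, S.add_mem (S.mul_mem (by simpa using S.natCast_mem 3) (S.pow_mem hXS 2)) (hκS α),
            by rw [hY]; ring⟩
        · exact ⟨0, S.zero_mem, by rw [hκ, mul_zero]⟩
      | zero => exact ⟨0, S.zero_mem, by rw [hD.zero, mul_zero]⟩
      | one => exact ⟨0, S.zero_mem, by rw [hD.one, mul_zero]⟩
      | add x y _ _ hx hy =>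
        obtain ⟨a, ha, ha'⟩ := hx
        obtain ⟨b, hb, hb'⟩ := hy
        exact ⟨a + b, S.add_mem ha hb, by rw [hD.add, ha', hb']; ring⟩
      | neg x _ hx =>
        obtain ⟨a, ha, ha'⟩ := hx
        exact ⟨-a, S.neg_mem ha, by rw [der_neg hD, ha']; ring⟩
      | mul x y hx' hy' hx hy =>
        obtain ⟨a, ha, ha'⟩ := hx
        obtain ⟨b, hb, hb'⟩ := hy
        exact ⟨x * b + y * a, S.add_mem (S.mul_mem hx' hb) (S.mul_mem hy' ha), by rw [hD.mul, ha', hb']; ring⟩
    · exact hκS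
    · intro t ht
      rcases hT t ht with rfl | rfl | ⟨x, rfl⟩
      · exact ⟨_, hXS, 1, S.one_mem, one_ne_zero, (div_one _).symm⟩
      · exact ⟨_, hYS, 1, S.one_mem, one_ne_zero, (div_one _).symm⟩
      · exact ⟨_, hκS x, 1, S.one_mem, one_ne_zero, (div_one _).symm⟩
  · -- the neighbourhood of infinity
    have hXne : X ≠ 0 := by rintro rfl; exact hX0 (V.ge_zero _)
    rw [V.ge_iff hXne] at hX0
    push Not at hX0
    have hX3 : V.o (X ^ 3) = 3 * V.o X := by rw [V.pow _ hXne]; push_cast; ring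
    have hY2 : 2 * V.o Y = 3 * V.o X := by
      have h1 := V.add_eq (pow_ne_zero 3 hXne) (c := V.o X)
        (y := κ α * X + κ β) ((((gκ α).mul (V.ge_self X)).mono (by linarith)).add ((gκ β).mono hX0.le))
        (by rw [hX3]; linarith)
      rw [← add_assoc, ← hXY, V.pow _ hY0, hX3] at h1
      have := h1.2
      push_cast at this
      linarith
    set zz := X / Y with hzz
    set w := Y⁻¹ with hw
    have hw0 : w ≠ 0 := inv_ne_zero hY0
    have gz : V.ge 0 zz := by right; rw [hzz, V.div _ _ hXne hY0]; linarith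
    have gw : V.ge 0 w := by right; rw [hw, V.inv _ hY0]; linarith
    have eX : X = zz / w := by rw [hzz, hw]; field_simp
    have eY : Y = 1 / w := by rw [hw]; field_simp
    have hDz : D zz = f * (-1 + 2 * κ α * zz * w + 3 * κ β * w ^ 2) := by
      rw [hzz, der_div hD _ _ hY0, hX, hY, hw]
      field_simp
      linear_combination (3 * f) * hXY
    have hDw : D w = f * (-3 * zz ^ 2 - κ α * w ^ 2) := by
      rw [hw, der_inv hD _ hY0, hY, hzz]
      field_simp
      ring
    set S := Subring.closure ({zz, w} ∪ Set.range κ) with hS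
    have hzS : zz ∈ S := Subring.subset_closure (Or.inl (Or.inl rfl))
    have hwS : w ∈ S := Subring.subset_closure (Or.inl (Or.inr rfl))
    have hκS : ∀ x, κ x ∈ S := fun x => Subring.subset_closure (Or.inr ⟨x, rfl⟩)
    have h2S : (2 : L) ∈ S := by simpa using S.natCast_mem 2
    have h3S : (3 : L) ∈ S := by simpa using S.natCast_mem 3
    apply fin S
    · intro g hg
      induction hg using Subring.closure_induction with
      | mem x hx =>
        rcases hx with (rfl | rfl) | ⟨y, rfl⟩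
        · exact gz
        · exact gw
        · exact gκ y
      | zero => exact V.ge_zero _
      | one => right; rw [V.one]
      | add x y _ _ hx hy => exact hx.add hy
      | neg x _ hx => exact hx.neg
      | mul x y _ _ hx hy => have := hx.mul hy; rwa [add_zero] at this
    · intro g hg
      induction hg using Subring.closure_induction with
      | mem x hx =>
        rcases hx with (rfl | rfl) | ⟨y, rfl⟩
        · exact ⟨_, S.add_mem (S.add_mem (S.neg_mem S.one_mem) (S.mul_mem (S.mul_mem (S.mul_mem h2S (hκS α)) hzS) hwS))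
            (S.mul_mem (S.mul_mem h3S (hκS β)) (S.pow_mem hwS 2)), hDz⟩
        · exact ⟨_, S.sub_mem (S.mul_mem (S.neg_mem h3S) (S.pow_mem hzS 2)) (S.mul_mem (hκS α) (S.pow_mem hwS 2)), hDw⟩
        · exact ⟨0, S.zero_mem, by rw [hκ, mul_zero]⟩
      | zero => exact ⟨0, S.zero_mem, by rw [hD.zero, mul_zero]⟩
      | one => exact ⟨0, S.zero_mem, by rw [hD.one, mul_zero]⟩
      | add x y _ _ hx hy =>
        obtain ⟨a, ha, ha'⟩ := hx
        obtain ⟨b, hb, hb'⟩ := hy
        exact ⟨a + b, S.add_mem ha hb, by rw [hD.add, ha', hb']; ring⟩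
      | neg x _ hx =>
        obtain ⟨a, ha, ha'⟩ := hx
        exact ⟨-a, S.neg_mem ha, by rw [der_neg hD, ha']; ring⟩
      | mul x y hx' hy' hx hy =>
        obtain ⟨a, ha, ha'⟩ := hx
        obtain ⟨b, hb, hb'⟩ := hy
        exact ⟨x * b + y * a, S.add_mem (S.mul_mem hx' hb) (S.mul_mem hy' ha), by rw [hD.mul, ha', hb']; ring⟩
    · exact hκS
    · intro t ht
      rcases hT t ht with rfl | rfl | ⟨x, rfl⟩
      · exact ⟨zz, hzS, w, hwS, hw0, eX⟩
      · exact ⟨1, S.one_mem, w, hwS, hw0, eY⟩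
      · exact ⟨_, hκS x, 1, S.one_mem, one_ne_zero, (div_one _).symm⟩

end Pool.Agent.H922R2.EL
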