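import Mathlib
import Pool.Agent.H922R2.EL.DR2
import Pool.Agent.H922R2.EL.M

set_option autoImplicit false
set_option linter.unusedSectionVars false
set_option linter.style.haveILetI false

open MvPolynomial

namespace Pool.Agent.H922R2.EL

open Pool.Agent.H922R2 (IsDer)
open Pool.Agent.H922R2.R
open Pool.Agent.Helper165.P1 (HQ Pui)

section

variable {k L : Type*} [Field k] [CharZero k] [IsAlgClosed k] [Field L] [Algebra (MvPolynomial (Fin 2) k) L]
  [IsFractionRing (MvPolynomial (Fin 2) k) L] [Algebra k L] [IsScalarTower k (MvPolynomial (Fin 2) k) L]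

theorem der_kap (u : MvPolynomial (Fin 2) k) (hu : Function.Injective (uP u)) (x : KK k) :
    DL L u (kap L hu x) = 0 := by
  obtain ⟨a, b, hb, rfl⟩ := IsFractionRing.div_surjective (A := Polynomial k) x
  have hb0 : b ≠ 0 := nonZeroDivisors.ne_zero hb
  have hb1 : algebraMap (MvPolynomial (Fin 2) k) L (uP u b) ≠ 0 :=
    alg_ne (by rw [Ne, map_eq_zero_iff _ hu]; exact hb0)
  rw [map_div₀, kap_algebraMap, kap_algebraMap, der_div (DL_isDer u) _ _ hb1, DL_alg, DL_alg, Jb_uP, Jb_uP]
  simp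

theorem disc_id {R : Type*} [CommRing R] (X P a b : R) (h : P = X ^ 3 + a * X + b) :
    4 * a ^ 3 + 27 * b ^ 2 = (3 * X ^ 2 + a) * (6 * a * X ^ 2 - 9 * b * X + 4 * a ^ 2) -
      P * (18 * a * X - 27 * b) := by
  rw [h]; ring

/-- data of the function `f` -/
theorem exists_f (u : MvPolynomial (Fin 2) k) (hu : Function.Injective (uP u)) (α β : Polynomial k)
    (hdisc : 4 * α ^ 3 + 27 * β ^ 2 ≠ 0) (X Y : L)
    (hXY : Y ^ 2 = X ^ 3 + algebraMap _ L (uP u α) * X + algebraMap _ L (uP u β)) (hX0 : DL L u X ≠ 0) :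
    ∃ f : L, DL L u X = 2 * Y * f ∧ DL L u Y = (3 * X ^ 2 + algebraMap _ L (uP u α)) * f ∧ Y ≠ 0 := by
  haveI : CharZero L := charZero_of_injective_algebraMap (algebraMap k L).injective
  set a := algebraMap _ L (uP u α) with ha
  set b := algebraMap _ L (uP u β) with hb
  have hDa : DL L u a = 0 := by rw [ha, DL_alg, Jb_uP, map_zero]
  have hDb : DL L u b = 0 := by rw [hb, DL_alg, Jb_uP, map_zero]
  have hdiff : 2 * Y * DL L u Y = (3 * X ^ 2 + a) * DL L u X := by
    have h1 := congrArg (DL L u) hXY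
    rw [(DL_isDer u).add, (DL_isDer u).add, (DL_isDer u).mul, hDa, hDb, (DL_isDer u).pow, (DL_isDer u).pow] at h1
    push_cast at h1
    linear_combination h1
  have hY0 : Y ≠ 0 := by
    rintro rfl
    have h1 : (3 * X ^ 2 + a) * DL L u X = 0 := by rw [← hdiff]; ring
    have h2 := (mul_eq_zero.1 h1).resolve_right hX0
    have h3 := disc_id X ((0 : L) ^ 2) a b hXY
    rw [h2, zero_mul] at h3
    have h4 : algebraMap _ L (uP u (4 * α ^ 3 + 27 * β ^ 2)) = 0 := by
      simp only [map_add, map_mul, map_pow, map_ofNat]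
      rw [← ha, ← hb, h3]; ring
    rw [map_eq_zero_iff _ (IsFractionRing.injective (MvPolynomial (Fin 2) k) L), map_eq_zero_iff _ hu] at h4
    exact hdisc h4
  have h2Y : 2 * Y ≠ 0 := mul_ne_zero two_ne_zero hY0
  refine ⟨DL L u X / (2 * Y), by rw [mul_div_cancel₀ _ h2Y], ?_, hY0⟩
  rw [mul_div_assoc', eq_div_iff h2Y, ← hdiff]; ring

/-- constant coefficients are impossible -/
theorem const_case (u : MvPolynomial (Fin 2) k) (α β : Polynomial k)
    (hα : α.natDegree = 0) (hβ : β.natDegree = 0)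
    (hdisc : 4 * α ^ 3 + 27 * β ^ 2 ≠ 0) (X Y : L)
    (hXY : Y ^ 2 = X ^ 3 + algebraMap _ L (uP u α) * X + algebraMap _ L (uP u β)) : DL L u X = 0 := by
  have key : ∀ w w' : MvPolynomial (Fin 2) k, Jb w w' = 1 → w ≠ 0 →
      (VE L (-1) (0 : HahnSeries ℚ k)).o (algebraMap _ L w) = -1 → DL L w X = 0 := by
    intro w w' hJ hw0 hwo
    by_contra hX0
    have hw := uP_inj_of w w' hJ
    have hc : ∀ s : Polynomial k, s.natDegree = 0 → uP u s = uP w s := by
      intro s hs
      rw [Polynomial.eq_C_of_natDegree_eq_zero hs, uP_C, uP_C]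
    rw [hc α hα, hc β hβ] at hXY
    obtain ⟨f, hf1, hf2, hY0⟩ := exists_f w hw α β hdisc X Y hXY hX0
    have hzero : ∀ s : Polynomial k, s.natDegree = 0 → ∀ (c : k) (m : ℕ), 0 < m →
        (Polynomial.X - Polynomial.C c) ^ m ∣ s → s = 0 := by
      intro s hs c m hm hd
      by_contra h0
      have h1 := Polynomial.natDegree_le_of_dvd hd h0
      rw [Polynomial.natDegree_pow, Polynomial.natDegree_X_sub_C, hs] at h1
      omega
    have hab : ¬ (α = 0 ∧ β = 0) := by
      rintro ⟨rfl, rfl⟩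
      apply hdisc; ring
    obtain ⟨F, hF⟩ := f_mem w hw α β hdisc (by
      rintro c ⟨h1, h2⟩
      exact hab ⟨hzero α hα c 4 (by norm_num) h1, hzero β hβ c 6 (by norm_num) h2⟩) X Y f hXY hf1 hf2 hX0
    have hF0 : F ≠ 0 := by
      rintro rfl
      rw [map_zero] at hF
      rw [hF, mul_zero] at hf1
      exact hX0 hf1
    have hJI : ∀ z : L, z ≠ 0 → (VE L (-1) (0 : HahnSeries ℚ k)).ge
        ((VE L (-1) (0 : HahnSeries ℚ k)).o z + (-1 + 1 - (-1))) (DL L w z) := by
      intro z hz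
      have := VE_jac (L := L) (-1) (0 : HahnSeries ℚ k) w z hz
      rw [VE_alg] at hwo
      rwa [hwo] at this
    have h1 := lemInf (VE L (-1) (0 : HahnSeries ℚ k)) w (-1) 1 one_pos hw0 hwo hJI α β 0 (by
      rintro ⟨h1, h2⟩
      apply hab
      constructor
      · rcases h1 with h | h
        · exact h
        · omega
      · rcases h2 with h | h
        · exact h
        · omega) X Y f hXY hf1 hf2 hX0
    have h2 := Vinf_le (L := L) F hF0
    rw [← hF] at h2
    push_cast at h1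
    linarith
  have hJ01 : Jb (MvPolynomial.X 0 : MvPolynomial (Fin 2) k) (MvPolynomial.X 1) = 1 := by
    rw [Jb, pderiv_X_self, pderiv_X_self, pderiv_X_of_ne (show (0 : Fin 2) ≠ 1 by decide),
      pderiv_X_of_ne (show (1 : Fin 2) ≠ 0 by decide)]
    ring
  have hJ10 : Jb (MvPolynomial.X 1 : MvPolynomial (Fin 2) k) (-MvPolynomial.X 0) = 1 := by
    have e : Jb (MvPolynomial.X 1 : MvPolynomial (Fin 2) k) (-MvPolynomial.X 0) =
      Jb (MvPolynomial.X 0 : MvPolynomial (Fin 2) k) (MvPolynomial.X 1) := by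
      simp only [Jb, map_neg]; ring
    rw [e]
    rw [Jb, pderiv_X_self, pderiv_X_self, pderiv_X_of_ne (show (0 : Fin 2) ≠ 1 by decide),
      pderiv_X_of_ne (show (1 : Fin 2) ≠ 0 by decide)]
    ring
  have h0 := key (MvPolynomial.X 0) (MvPolynomial.X 1) hJ01 (MvPolynomial.X_ne_zero _) Vinf_X0
  have h1 := key (MvPolynomial.X 1) (-MvPolynomial.X 0) hJ10 (MvPolynomial.X_ne_zero _) Vinf_X1
  have hE : DL L u = fun z => algebraMap (MvPolynomial (Fin 2) k) L (pderiv 0 u) *
      DL L (MvPolynomial.X 0 : MvPolynomial (Fin 2) k) z +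
      algebraMap (MvPolynomial (Fin 2) k) L (pderiv 1 u) * DL L (MvPolynomial.X 1 : MvPolynomial (Fin 2) k) z := by
    apply der_unique (k := k) (DL_isDer u)
    · constructor
      · intro x y; rw [(DL_isDer _).add, (DL_isDer _).add]; ring
      · intro x y; rw [(DL_isDer _).mul, (DL_isDer _).mul]; ring
    · intro a
      rw [DL_alg, DL_alg, DL_alg, ← map_mul, ← map_mul, ← map_add]
      congr 1
      simp only [Jb, pderiv_X_self, pderiv_X_of_ne (show (0 : Fin 2) ≠ 1 by decide),
        pderiv_X_of_ne (show (1 : Fin 2) ≠ 0 by decide)]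
      ring
  rw [hE]
  simp only [h0, h1]
  ring

end

end Pool.Agent.H922R2.EL
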