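import Mathlib
import Pool.Agent.H922R2.EL.ME

set_option autoImplicit false
set_option linter.unusedSectionVars false
set_option linter.style.haveILetI false

open MvPolynomial

namespace Pool.Agent.H922R2.EL

open Pool.Agent.H922R2 (IsDer)
open Pool.Agent.H922R2.R
open Pool.Agent.Helper165.P1 (HQ Pui)

section

variable {k L : Type*} [Field k] [CharZero k] [IsAlgClosed k] [Field L] [Algebra (MvPolynomial (Fin 2) k) L]
  [IsFractionRing (MvPolynomial (Fin 2) k) L] [Algebra k L] [IsScalarTower k (MvPolynomial (Fin 2) k) L]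

/-- existence of `E` at a component of a fibre, with all data -/
theorem exists_E' (u v π : MvPolynomial (Fin 2) k) (hπ : Prime π) (c : k) (hπu : π ∣ u - C c)
    (hJ : Jb u v = 1) (hm : MonY u) :
    ∃ (Y : HahnSeries ℚ k) (e : R.ED u c Y) (pl : k → GP u), th Y u = HahnSeries.C c ∧
      (∀ f, th Y f = 0 ↔ π ∣ f) ∧
      (∀ ρ, e.p.eval ρ = 0 → (pl ρ).v = e.v ∧ (pl ρ).b = e.b ∧
      (∀ f h, f ≠ 0 → Jb u f = f * h → ((pl ρ).ι f).order =
        e.a * ((EX e.r Y f).leadingCoeff.rootMultiplicity ρ : ℕ) + (EX e.r Y f).order)) := by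
  obtain ⟨Y, hY, hu, hv, hker⟩ := exists_place u v π hπ c hπu hJ hm
  obtain ⟨e⟩ := exists_ED Y u v c hu (by
    rw [EY_natDegree, (hm.sub c).1]; exact hm.1) hJ hv
  obtain ⟨pl, h1, h2⟩ := e.exists_pl hY hu
  exact ⟨Y, e, pl, hu, hker, h1⟩

theorem td_uP (u : MvPolynomial (Fin 2) k) (hu2 : 2 ≤ u.totalDegree) (w : Polynomial k) (hw : w ≠ 0) :
    uP u w ≠ 0 ∧ (uP u w).totalDegree = w.natDegree * u.totalDegree := by
  have hu0 : u ≠ 0 := by rintro rfl; rw [totalDegree_zero] at hu2; omega
  have h1 := ord_inf (0 : HahnSeries ℚ k) (Lb.zero _) u hu0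
  have hpos : (0 : ℚ) < u.totalDegree := by exact_mod_cast (by omega : 0 < u.totalDegree)
  obtain ⟨h2, h3⟩ := ord_uP (L := FractionRing (MvPolynomial (Fin 2) k)) (VE _ (-1) (0 : HahnSeries ℚ k)) u hu0
    (u.totalDegree) hpos (by rw [VE_alg, h1]) w hw
  have h4 : uP u w ≠ 0 := by
    intro h; rw [h, map_zero] at h2; exact h2 rfl
  refine ⟨h4, ?_⟩
  rw [VE_alg, ord_inf (0 : HahnSeries ℚ k) (Lb.zero _) _ h4] at h3
  have h5 : ((uP u w).totalDegree : ℚ) = w.natDegree * u.totalDegree := by linarith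
  exact_mod_cast h5

/-- `b ≤ a` at every `E` if `deg v ≤ deg u` -/
theorem b_le_a (u v : MvPolynomial (Fin 2) k) (hJ : Jb u v = 1) (hm : MonT u)
    (hdeg : v.totalDegree ≤ u.totalDegree) {c : k} {Y : HahnSeries ℚ k} (hu : th Y u = HahnSeries.C c)
    (e : R.ED u c Y) (g : GP u) : e.b ≤ e.a := by
  have hrat := ED_ratio hm hu e
  have hn2 : 2 ≤ u.totalDegree := by rw [← hm.2]; exact hm.1.1
  have hnQ : (2 : ℚ) ≤ u.totalDegree := by exact_mod_cast hn2
  obtain ⟨w, hw⟩ := g.ker (e.v - v) (by rw [Jb_sub, e.hJ, hJ, sub_self])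
  have hev : e.v = v + uP u w := by rw [← hw]; ring
  have hle : e.v.totalDegree ≤ u.totalDegree := by
    by_cases hw0 : w = 0
    · rw [hev, hw0, map_zero, add_zero]; exact hdeg
    obtain ⟨h1, h2⟩ := td_uP u hn2 w hw0
    rcases Nat.lt_or_ge w.natDegree 2 with h3 | h3
    · rw [hev]
      apply (totalDegree_add _ _).trans
      apply max_le hdeg
      rw [h2]
      have : w.natDegree ≤ 1 := by omega
      nlinarith
    · exfalso
      have h4 : v.totalDegree < (uP u w).totalDegree := by rw [h2]; nlinarith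
      have h5 : e.v.totalDegree = w.natDegree * u.totalDegree := by
        rw [hev, totalDegree_add_eq_right_of_totalDegree_lt h4, h2]
      rw [h5] at hrat
      apply e.hnon w.natDegree
      have h6 : (u.totalDegree : ℚ) ≠ 0 := by linarith
      apply mul_right_cancel₀ h6
      rw [hrat]; push_cast; ring
  have hle' : (e.v.totalDegree : ℚ) ≤ u.totalDegree := by exact_mod_cast hle
  have ha := e.ha
  by_contra hcon
  push Not at hcon
  nlinarith

/-- elliptic components of larger degree do not exist -/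
theorem main_EL (u v : MvPolynomial (Fin 2) k) (hJ : Jb u v = 1) (hm : MonT u)
    (hdeg : v.totalDegree ≤ u.totalDegree) (α β : Polynomial k) (hdisc : 4 * α ^ 3 + 27 * β ^ 2 ≠ 0)
    (hmin : ∀ c : k, ¬ ((Polynomial.X - Polynomial.C c) ^ 4 ∣ α ∧ (Polynomial.X - Polynomial.C c) ^ 6 ∣ β))
    (X Y : L) (hXY : Y ^ 2 = X ^ 3 + algebraMap _ L (uP u α) * X + algebraMap _ L (uP u β))
    (hgen : IntermediateField.adjoin k {algebraMap (MvPolynomial (Fin 2) k) L u, X, Y} = ⊤) : False := by
  classical
  haveI : CharZero L := charZero_of_injective_algebraMap (algebraMap k L).injective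
  have hu := uP_inj_of u v hJ
  have hn2 : 2 ≤ u.totalDegree := by rw [← hm.2]; exact hm.1.1
  have hu0 : u ≠ 0 := by rintro rfl; rw [totalDegree_zero] at hn2; omega
  have hDu : DL L u (algebraMap _ L u) = 0 := by rw [DL_alg, Jb_self, map_zero]
  -- `D X ≠ 0`
  have hX0 : DL L u X ≠ 0 := by
    intro hX
    have hY : DL L u Y = 0 := by
      have h1 := congrArg (DL L u) hXY
      rw [(DL_isDer u).add, (DL_isDer u).add, (DL_isDer u).mul, (DL_isDer u).pow, (DL_isDer u).pow, hX,
        DL_alg, DL_alg, Jb_uP, Jb_uP] at h1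
      push_cast at h1
      have h2 : Y * DL L u Y = 0 := by
        have h3 : (2 : L) * (Y * DL L u Y) = 0 := by
          simp only [map_zero, mul_zero, add_zero] at h1
          linear_combination h1
        exact (mul_eq_zero.1 h3).resolve_left two_ne_zero
      rcases mul_eq_zero.1 h2 with h | h
      · rw [h, (DL_isDer u).zero]
      · exact h
    have hall : ∀ z : L, DL L u z = 0 := by
      intro z
      have hz : z ∈ IntermediateField.adjoin k {algebraMap (MvPolynomial (Fin 2) k) L u, X, Y} := by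
        rw [hgen]; trivial
      induction hz using IntermediateField.adjoin_induction with
      | mem x hx =>
        rcases hx with rfl | rfl | rfl
        · exact hDu
        · exact hX
        · exact hY
      | algebraMap x =>
        rw [IsScalarTower.algebraMap_apply k (MvPolynomial (Fin 2) k) L, DL_alg, MvPolynomial.algebraMap_eq,
          Jb_C_right, map_zero]
      | add x y _ _ hx hy => rw [(DL_isDer u).add, hx, hy, add_zero]
      | inv x _ hx =>
        by_cases h0 : x = 0
        · rw [h0, inv_zero, (DL_isDer u).zero]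
        · rw [der_inv (DL_isDer u) _ h0, hx]; simp
      | mul x y _ _ hx hy => rw [(DL_isDer u).mul, hx, hy]; ring
    have h1 := hall (algebraMap _ L v)
    rw [DL_alg, hJ, map_one] at h1
    exact one_ne_zero h1
  obtain ⟨f, hf1, hf2, hY0⟩ := exists_f u hu α β hdisc X Y hXY hX0
  obtain ⟨F, hF⟩ := f_mem u hu α β hdisc hmin X Y f hXY hf1 hf2 hX0
  have hF0 : F ≠ 0 := by
    rintro rfl
    rw [map_zero] at hF
    rw [hF, mul_zero] at hf1
    exact hX0 hf1
  -- the number `N`
  have hNex : ∃ N : ℕ, α.natDegree ≤ 4 * N ∧ β.natDegree ≤ 6 * N :=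
    ⟨α.natDegree + β.natDegree, by omega, by omega⟩
  set N := Nat.find hNex with hNd
  have hN1 := Nat.find_spec hNex
  have hN2 : ∀ m < N, ¬ (α.natDegree ≤ 4 * m ∧ β.natDegree ≤ 6 * m) := fun m hm => Nat.find_min hNex hm
  rw [← hNd] at hN1
  have hNmin : ¬ ((α = 0 ∨ α.natDegree + 4 ≤ 4 * N) ∧ (β = 0 ∨ β.natDegree + 6 ≤ 6 * N)) := by
    rintro ⟨h1, h2⟩
    rcases Nat.eq_zero_or_pos N with h0 | h0
    · rw [h0] at h1 h2
      have ha : α = 0 := by rcases h1 with h | h; exact h; omega
      have hb : β = 0 := by rcases h2 with h | h; exact h; omega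
      apply hdisc; rw [ha, hb]; ring
    · apply hN2 (N - 1) (by omega)
      constructor
      · rcases h1 with h | h
        · rw [h, Polynomial.natDegree_zero]; omega
        · omega
      · rcases h2 with h | h
        · rw [h, Polynomial.natDegree_zero]; omega
        · omega
  have hN : N = 1 := by
    have hlt : N < 2 := by
      have hord := ord_inf (0 : HahnSeries ℚ k) (Lb.zero _) u hu0
      have hpos : (0 : ℚ) < u.totalDegree := by exact_mod_cast (by omega : 0 < u.totalDegree)
      have huo : (VE L (-1) (0 : HahnSeries ℚ k)).o (algebraMap _ L u) = -(u.totalDegree : ℚ) := by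
        rw [VE_alg, hord]
      have h1 := lemInf (VE L (-1) (0 : HahnSeries ℚ k)) u (-1) u.totalDegree hpos hu0 huo (by
        intro z hz
        have := VE_jac (L := L) (-1) (0 : HahnSeries ℚ k) u z hz
        rwa [hord] at this) α β N hNmin X Y f hXY hf1 hf2 hX0
      have h2 := Vinf_le (L := L) F hF0
      rw [← hF] at h2
      by_contra hcon
      push Not at hcon
      have hc' : (2 : ℚ) ≤ N := by exact_mod_cast hcon
      have : 0 ≤ ((N : ℚ) - 2) * u.totalDegree := mul_nonneg (by linarith) hpos.le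
      linarith
    have hne : N ≠ 0 := by
      intro h0
      rw [h0] at hN1
      exact hX0 (const_case u α β (by omega) (by omega) hdisc X Y hXY)
    omega
  rw [hN] at hNmin
  -- inequality at `E`
  have hEineq : ∀ {c : k} {Y' : HahnSeries ℚ k} (e : R.ED u c Y'), e.b < (EX e.r Y' F).order := by
    intro c Y' e
    have huo : (VE L e.r Y').o (algebraMap _ L u) = -e.a := by rw [VE_alg, e.lc_u.1]
    have h1 := lemInf (VE L e.r Y') u e.r e.a e.ha hu0 huo (by
      intro z hz
      have := VE_jac (L := L) e.r Y' u z hz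
      rwa [e.lc_u.1] at this) α β 1 hNmin X Y f hXY hf1 hf2 hX0
    rw [hF, VE_alg] at h1
    have := e.hab
    push_cast at h1
    linarith
  -- the generators
  have hT : ∀ t ∈ ({algebraMap (MvPolynomial (Fin 2) k) L u, X, Y} : Set L), t = X ∨ t = Y ∨ ∃ x, t = kap L hu x := by
    rintro t (rfl | rfl | rfl)
    · exact Or.inr (Or.inr ⟨algebraMap (Polynomial k) (KK k) Polynomial.X, by rw [kap_algebraMap, uP_X]⟩)
    · exact Or.inl rfl
    · exact Or.inr (Or.inl rfl)
  have hkκ : ∀ c : k, ∃ x : KK k, kap L hu x = algebraMap k L c := fun c =>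
    ⟨algebraMap (Polynomial k) (KK k) (Polynomial.C c), by
      rw [kap_algebraMap, uP_C, ← MvPolynomial.algebraMap_eq, ← IsScalarTower.algebraMap_apply]⟩
  have hXY' : Y ^ 2 = X ^ 3 + kap L hu (algebraMap (Polynomial k) (KK k) α) * X +
      kap L hu (algebraMap (Polynomial k) (KK k) β) := by
    rw [kap_algebraMap, kap_algebraMap]; exact hXY
  have hf2' : DL L u Y = (3 * X ^ 2 + kap L hu (algebraMap (Polynomial k) (KK k) α)) * f := by
    rw [kap_algebraMap]; exact hf2
  have hf0 : f ≠ 0 := by rw [hF]; exact alg_ne hF0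
  -- `F` has only vertical prime factors
  have hFv : VertF u F := by
    refine ⟨hF0, fun π hπ hπF => ?_⟩
    by_contra hcon
    push Not at hcon
    have hfo : (VP L hπ).o f = multiplicity π F := by rw [hF, VP_alg hπ hF0]
    have h1 : 1 ≤ multiplicity π F := by
      rw [← (fm hπ hF0).pow_dvd_iff_le_multiplicity, pow_one]; exact hπF
    have h1' : (1 : ℚ) ≤ multiplicity π F := by exact_mod_cast h1
    obtain ⟨n, hn⟩ := lemM_L (VP L hπ) (kap L hu) (DL_isDer u) (der_kap u hu)
      (fun x hx => VP_kap u hπ hcon hu x hx) hkκ X Y f _ _ hXY' hf1 hf2' hY0 _ hT hgen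
      ((VP L hπ).o f + 1) (by rw [hfo]; linarith) (by
        intro g hg hgo
        have := VP_E (L := L) u v hπ hJ hcon g hg hgo
        exact ⟨this.1, by rw [this.2]; ring⟩) (algebraMap _ L π) (alg_ne hπ.ne_zero)
    rw [VP_alg hπ hπ.ne_zero, hfo] at hn
    have h2 : multiplicity π π = 1 := multiplicity_self
    rw [h2] at hn
    have h3 : (1 : ℤ) = n * (multiplicity π F + 1) := by
      have : ((1 : ℤ) : ℚ) = ((n * (multiplicity π F + 1) : ℤ) : ℚ) := by push_cast; push_cast at hn; linarith
      exact_mod_cast this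
    have h4 : ((multiplicity π F : ℤ) + 1) ∣ 1 := Dvd.intro_left n h3.symm
    have h5 := Int.le_of_dvd one_pos h4
    omega
  obtain ⟨h, hh⟩ := vert_log u v hJ F hFv
  -- no prime factors at all
  have hnoprime : ∀ π : MvPolynomial (Fin 2) k, Prime π → ¬ π ∣ F := by
    intro π hπ hπF
    obtain ⟨c, hc⟩ := hFv.2 π hπ hπF
    obtain ⟨Y', e, pl, hthu, hker, hpl⟩ := exists_E' u v π hπ c hc hJ hm.1
    have hp0 : e.p.eval 0 = 0 := by rw [← Polynomial.coeff_zero_eq_eval_zero]; exact e.hp0
    obtain ⟨hv1, hb1, hord⟩ := hpl 0 hp0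
    have hordF := hord F h hF0 hh
    set g := pl 0 with hg
    have hEX0 : EX e.r Y' F ≠ 0 := by
      rw [Ne, map_eq_zero_iff _ (EX_injective _ _)]; exact hF0
    have hmult : 1 ≤ (EX e.r Y' F).leadingCoeff.rootMultiplicity 0 := by
      rw [Nat.one_le_iff_ne_zero, ← Nat.pos_iff_ne_zero, Polynomial.rootMultiplicity_pos
        (HahnSeries.leadingCoeff_ne_zero.2 hEX0), Polynomial.IsRoot.def, ← Polynomial.coeff_zero_eq_eval_zero,
        HahnSeries.leadingCoeff_eq, EX_apply, Ph_coeff, ← th_apply, (hker F).2 hπF]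
      rfl
    have hmult' : (1 : ℚ) ≤ ((EX e.r Y' F).leadingCoeff.rootMultiplicity 0 : ℕ) := by exact_mod_cast hmult
    have hba := b_le_a u v hJ hm hdeg hthu e g
    have hineq := hEineq e
    have ha := e.ha
    have hfo : (VG L g).o f = (g.ι F).order := by rw [hF, VG_alg]
    have hc1 : e.a < (VG L g).o f - e.b := by
      rw [hfo, hordF]
      nlinarith
    obtain ⟨n, hn⟩ := lemM_L (VG L g) (kap L hu) (DL_isDer u) (der_kap u hu)
      (fun x hx => VG_kap g hu x hx) hkκ X Y f _ _ hXY' hf1 hf2' hY0 _ hT hgen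
      ((VG L g).o f - e.b) (by linarith) (by
        intro z hz hzo
        have := VG_E (L := L) g z hz hzo
        exact ⟨this.1, by rw [this.2, hb1]; ring⟩) (algebraMap _ L g.v) (alg_ne (by
          intro h0
          have := g.hJ
          rw [h0] at this
          simp [Jb] at this))
    have hvo : (VG L g).o (algebraMap _ L g.v) = -e.b := by
      rw [VG_alg, ← hb1]
      exact order_eq_of g.hv (by rw [g.hvc]; exact Polynomial.C_ne_zero.2 g.hβ)
    rw [hvo] at hn
    set cc := (VG L g).o f - e.b with hcc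
    have hb := e.hb
    have hn0 : (n : ℚ) < 0 := by
      by_contra hcon
      push Not at hcon
      have : 0 ≤ (n : ℚ) * cc := mul_nonneg hcon (by linarith)
      linarith
    have hn1 : n ≤ -1 := by
      have : n < 0 := by exact_mod_cast hn0
      omega
    have hn1' : (n : ℚ) ≤ -1 := by exact_mod_cast hn1
    have : (n : ℚ) * cc ≤ -1 * cc := mul_le_mul_of_nonneg_right hn1' (by linarith)
    linarith
  -- so `F` is a constant
  have hFu : IsUnit F := by
    by_contra hnu
    obtain ⟨π, hπi, hπd⟩ := WfDvdMonoid.exists_irreducible_factor hnu hF0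
    exact hnoprime π hπi.prime hπd
  obtain ⟨t, ht, hte⟩ := MvPolynomial.isUnit_iff_eq_C_of_isReduced.1 hFu
  -- some component of a fibre
  have hnu : ¬ IsUnit (u - C (0 : k)) := by
    rw [map_zero, sub_zero]
    intro h1
    obtain ⟨t', _, h2⟩ := MvPolynomial.isUnit_iff_eq_C_of_isReduced.1 h1
    rw [h2, totalDegree_C] at hn2
    omega
  have hu1 : u - C (0 : k) ≠ 0 := by rw [map_zero, sub_zero]; exact hu0
  obtain ⟨π, hπi, hπd⟩ := WfDvdMonoid.exists_irreducible_factor hnu hu1
  obtain ⟨Y', e, pl, -, -, -⟩ := exists_E' u v π hπi.prime 0 hπd hJ hm.1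
  have h1 := hEineq e
  rw [hte, EX_C, HahnSeries.C_apply, HahnSeries.order_single (Polynomial.C_ne_zero.2 ht.ne_zero)] at h1
  linarith [e.hb]

end

end Pool.Agent.H922R2.EL
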