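import Mathlib
import Pool.Agent.H922R2.EL.MF

set_option autoImplicit false
set_option linter.unusedSectionVars false
set_option linter.style.haveILetI false

open MvPolynomial

namespace Pool.Agent.H922R2.EL

open Pool.Agent.H922R2 (IsDer GA sw elemX elemX_X0 elemX_X1 jac SS fF uy)
open Pool.Agent.H922R2.R

section

variable {k : Type*} [Field k] [CharZero k] [IsAlgClosed k]

/-- the shear `x ↦ x + l y` -/
noncomputable def shl (l : k) : GA k := elemX (Polynomial.C l * Polynomial.X)

theorem shl_X0 (l : k) : shl l (X 0) = X 0 + C l * X 1 := by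
  rw [shl, elemX_X0, uy, map_mul, Polynomial.aeval_C, Polynomial.aeval_X, MvPolynomial.algebraMap_eq]

theorem shl_X1 (l : k) : shl l (X 1) = X 1 := elemX_X1 _

theorem shl_td_le (l : k) (f : MvPolynomial (Fin 2) k) : (shl l f).totalDegree ≤ f.totalDegree := by
  conv_lhs => rw [f.as_sum, map_sum]
  apply (totalDegree_finsetSum _ _).trans
  apply Finset.sup_le
  intro m hm
  have h1 : (shl l (X 0 : MvPolynomial (Fin 2) k)).totalDegree ≤ 1 := by
    rw [shl_X0]
    apply (totalDegree_add _ _).trans
    apply max_le
    · rw [totalDegree_X]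
    · apply (totalDegree_mul _ _).trans
      rw [totalDegree_C, totalDegree_X]
  have h2 : (shl l (X 1 : MvPolynomial (Fin 2) k)).totalDegree ≤ 1 := by rw [shl_X1, totalDegree_X]
  have hC : shl l (C (coeff m f)) = C (coeff m f) := (shl l).commutes _
  rw [MvPolynomial.monomial_eq, map_mul, hC, Finsupp.prod_fintype _ _ (by simp), Fin.prod_univ_two, map_mul,
    map_pow, map_pow]
  apply (totalDegree_mul _ _).trans
  rw [totalDegree_C, zero_add]
  apply (totalDegree_mul _ _).trans
  have h3 := (totalDegree_pow (shl l (X 0 : MvPolynomial (Fin 2) k)) (m 0)).trans (Nat.mul_le_mul_left _ h1)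
  have h4 := (totalDegree_pow (shl l (X 1 : MvPolynomial (Fin 2) k)) (m 1)).trans (Nat.mul_le_mul_left _ h2)
  have h5 := le_td hm
  omega

theorem shl_shl (l : k) (f : MvPolynomial (Fin 2) k) : shl (-l) (shl l f) = f := by
  have h : ((shl (-l) : GA k) : MvPolynomial (Fin 2) k →ₐ[k] MvPolynomial (Fin 2) k).comp
      ((shl l : GA k) : MvPolynomial (Fin 2) k →ₐ[k] MvPolynomial (Fin 2) k) = AlgHom.id k _ := by
    apply MvPolynomial.algHom_ext
    intro i
    have hC : ∀ l' a : k, shl l' (C a) = C a := fun l' a => (shl l').commutes a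
    fin_cases i
    · change shl (-l) (shl l (X 0)) = X 0
      rw [shl_X0, map_add, map_mul, shl_X0, shl_X1, hC, map_neg]; ring
    · change shl (-l) (shl l (X 1)) = X 1
      rw [shl_X1, shl_X1]
  exact AlgHom.congr_fun h f

theorem shl_td (l : k) (f : MvPolynomial (Fin 2) k) : (shl l f).totalDegree = f.totalDegree := by
  apply le_antisymm (shl_td_le l f)
  conv_lhs => rw [← shl_shl l f]
  exact shl_td_le _ _

/-- evaluation on the line through the origin -/
noncomputable def lev (a b : k) : MvPolynomial (Fin 2) k →+* HahnSeries ℚ k :=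
  eval₂Hom HahnSeries.C (fun i => if i = 0 then HahnSeries.single (-1) a else HahnSeries.single (-1) b)

theorem lev_C (a b c : k) : lev a b (C c) = HahnSeries.C c := by simp [lev]
theorem lev_X0 (a b : k) : lev a b (X 0) = HahnSeries.single (-1) a := by simp [lev]
theorem lev_X1 (a b : k) : lev a b (X 1) = HahnSeries.single (-1) b := by simp [lev]

theorem lev_shl (l : k) (f : MvPolynomial (Fin 2) k) : lev 0 1 (shl l f) = lev l 1 f := by
  have h : (lev (k := k) 0 1).comp ((shl l : GA k) : MvPolynomial (Fin 2) k →+* MvPolynomial (Fin 2) k) = lev l 1 := by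
    apply MvPolynomial.ringHom_ext
    · intro a
      have hC : shl l (C a) = C a := (shl l).commutes a
      rw [RingHom.comp_apply, lev_C]
      change lev 0 1 (shl l (C a)) = _
      rw [hC, lev_C]
    · intro i
      fin_cases i
      · change lev 0 1 (shl l (X 0)) = lev l 1 (X 0)
        rw [shl_X0, map_add, map_mul, lev_X0, lev_X1, lev_X0, lev_C, HahnSeries.C_apply, HahnSeries.single_mul_single]
        simp
      · change lev 0 1 (shl l (X 1)) = lev l 1 (X 1)
        rw [shl_X1, lev_X1, lev_X1]
  exact RingHom.congr_fun h f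

theorem lev_lead (a b : k) (F : MvPolynomial (Fin 2) k) :
    (lev a b F).coeff (-(F.totalDegree : ℚ)) =
      ∑ m ∈ F.support.filter (fun m => (m 0 : ℚ) * (-1) + m 1 * (-1) = -(F.totalDegree : ℚ)),
        F.coeff m * (a ^ (m 0) * b ^ (m 1)) := by
  have h := wt_lead (lev a b) (RingHom.id k) (fun c => lev_C a b c) (-1) (-1) (by rw [lev_X0]; exact Lb_single _ _)
    (by rw [lev_X1]; exact Lb_single _ _) F (-(F.totalDegree : ℚ)) (by
      intro m hm
      have := le_td hm
      have : ((m 0 : ℚ) + m 1) ≤ F.totalDegree := by exact_mod_cast this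
      linarith)
  rw [h.2, lev_X0, lev_X1, HahnSeries.coeff_single, if_pos rfl, HahnSeries.coeff_single, if_pos rfl]
  rfl

/-- normalisation by a linear change of variables -/
theorem exists_monT (u : MvPolynomial (Fin 2) k) (hu : u ≠ 0) :
    ∃ l : k, (toY k (shl l u)).natDegree = (shl l u).totalDegree ∧
      ∃ κ : k, κ ≠ 0 ∧ (toY k (shl l u)).leadingCoeff = Polynomial.C κ := by
  classical
  set n := u.totalDegree with hn
  -- the top form as a polynomial
  set g : Polynomial k := ∑ m ∈ u.support.filter (fun m => (m 0 : ℚ) * (-1) + m 1 * (-1) = -(n : ℚ)),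
    Polynomial.monomial (m 0) (u.coeff m) with hg
  have hg0 : g ≠ 0 := by
    obtain ⟨m, hm, hmt⟩ := exists_td u hu
    intro h0
    have h1 := congrArg (fun P => Polynomial.coeff P (m 0)) h0
    simp only [Polynomial.coeff_zero] at h1
    rw [hg, Polynomial.finsetSum_coeff, Finset.sum_eq_single m] at h1
    · rw [Polynomial.coeff_monomial, if_pos rfl] at h1
      exact (MvPolynomial.mem_support_iff.1 hm) h1
    · intro m' hm' hne
      rw [Polynomial.coeff_monomial, if_neg]
      intro h3
      apply hne
      rw [Finset.mem_filter] at hm'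
      have h4 : (m' 0 : ℚ) + m' 1 = n := by linarith [hm'.2]
      have h5 : m' 0 + m' 1 = n := by exact_mod_cast h4
      ext i
      fin_cases i
      · exact h3
      · change m' 1 = m 1; omega
    · intro hcon
      exfalso
      apply hcon
      rw [Finset.mem_filter]
      refine ⟨hm, ?_⟩
      have : ((m 0 : ℚ) + m 1) = n := by exact_mod_cast hmt
      linarith
  obtain ⟨l, hl⟩ : ∃ l : k, g.eval l ≠ 0 := by
    by_contra h
    push Not at h
    exact hg0 (Polynomial.funext fun r => by rw [h r, Polynomial.eval_zero])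
  refine ⟨l, ?_⟩
  set w := shl l u with hw
  have hwn : w.totalDegree = n := shl_td l u
  have hne : (lev 0 1 w).coeff (-(w.totalDegree : ℚ)) ≠ 0 := by
    rw [hwn, hw, lev_shl, hn, lev_lead]
    convert hl using 1
    rw [hg, Polynomial.eval_finsetSum]
    apply Finset.sum_congr rfl
    intro m _
    rw [Polynomial.eval_monomial, one_pow, mul_one]
  rw [lev_lead] at hne
  obtain ⟨m, hm, hmne⟩ := Finset.exists_ne_zero_of_sum_ne_zero hne
  rw [Finset.mem_filter] at hm
  have hm0 : m 0 = 0 := by
    by_contra h
    rw [zero_pow h, zero_mul, mul_zero] at hmne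
    exact hmne rfl
  have hm1 : m 1 = n := by
    have h1 := hm.2
    rw [hm0, hwn] at h1
    have : (m 1 : ℚ) = n := by push_cast at h1; linarith
    exact_mod_cast this
  have hcoef : ((toY k w).coeff n).coeff 0 ≠ 0 := by
    have := toY_coeff w m
    rw [hm0, hm1] at this
    rw [this]
    exact MvPolynomial.mem_support_iff.1 hm.1
  have hzero : ∀ i j : ℕ, n < j + i → ((toY k w).coeff i).coeff j = 0 := by
    intro i j hij
    set m' : Fin 2 →₀ ℕ := Finsupp.single 0 j + Finsupp.single 1 i with hm'
    have e0 : m' 0 = j := by rw [hm']; simp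
    have e1 : m' 1 = i := by rw [hm']; simp
    have := toY_coeff w m'
    rw [e0, e1] at this
    rw [this]
    by_contra h
    have h2 := le_td (MvPolynomial.mem_support_iff.2 h)
    rw [e0, e1, hwn] at h2
    omega
  have hnd : (toY k w).natDegree = n := by
    apply le_antisymm
    · rw [Polynomial.natDegree_le_iff_coeff_eq_zero]
      intro i hi
      ext j
      rw [hzero i j (by omega), Polynomial.coeff_zero]
    · apply Polynomial.le_natDegree_of_ne_zero
      intro h
      rw [h] at hcoef
      exact hcoef rfl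
  refine ⟨by rw [hnd, hwn], ((toY k w).coeff n).coeff 0, hcoef, ?_⟩
  rw [Polynomial.leadingCoeff, hnd]
  ext j
  rcases j with _ | j
  · simp
  · rw [hzero n (j + 1) (by omega), Polynomial.coeff_C_succ]

end

end Pool.Agent.H922R2.EL
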