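import Mathlib
import Pool.Agent.H922R2.EL.LN

set_option autoImplicit false
set_option linter.unusedSectionVars false
set_option linter.style.haveILetI false

open MvPolynomial

namespace Pool.Agent.H922R2.EL

open Pool.Agent.H922R2 (IsDer GA sw elemX elemX_X0 elemX_X1 jac SS fF uy DJ_apply det_jac)
open Pool.Agent.H922R2.R

section minimal

variable {k L : Type*} [Field k] [CharZero k] [IsAlgClosed k] [Field L] [Algebra (MvPolynomial (Fin 2) k) L]
  [IsFractionRing (MvPolynomial (Fin 2) k) L] [Algebra k L] [IsScalarTower k (MvPolynomial (Fin 2) k) L]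

theorem adj_le {S T : Set L} (h : ∀ t ∈ S, t ∈ IntermediateField.adjoin k T)
    (hS : IntermediateField.adjoin k S = ⊤) : IntermediateField.adjoin k T = ⊤ := by
  rw [eq_top_iff, ← hS, IntermediateField.adjoin_le_iff]
  exact h

theorem alg_mem_adj {u : MvPolynomial (Fin 2) k} {T : Set L}
    (hu : algebraMap (MvPolynomial (Fin 2) k) L u ∈ IntermediateField.adjoin k T) (s : Polynomial k) :
    algebraMap (MvPolynomial (Fin 2) k) L (uP u s) ∈ IntermediateField.adjoin k T := by
  induction s using Polynomial.induction_on' with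
  | add p q hp hq => rw [map_add, map_add]; exact add_mem hp hq
  | monomial n a =>
    rw [← Polynomial.C_mul_X_pow_eq_monomial, map_mul, map_pow, uP_C, uP_X, map_mul, map_pow,
      ← MvPolynomial.algebraMap_eq, ← IsScalarTower.algebraMap_apply]
    exact mul_mem (IntermediateField.algebraMap_mem _ _) (pow_mem hu n)

/-- minimal Weierstrass equations -/
theorem exists_min (u : MvPolynomial (Fin 2) k) (hu : Function.Injective (uP u)) (N : ℕ) :
    ∀ (α β : Polynomial k) (X Y : L), α.natDegree + β.natDegree ≤ N → 4 * α ^ 3 + 27 * β ^ 2 ≠ 0 →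
      Y ^ 2 = X ^ 3 + algebraMap _ L (uP u α) * X + algebraMap _ L (uP u β) →
      IntermediateField.adjoin k {algebraMap (MvPolynomial (Fin 2) k) L u, X, Y} = ⊤ →
      ∃ (α' β' : Polynomial k) (X' Y' : L), 4 * α' ^ 3 + 27 * β' ^ 2 ≠ 0 ∧
        (∀ c : k, ¬ ((Polynomial.X - Polynomial.C c) ^ 4 ∣ α' ∧ (Polynomial.X - Polynomial.C c) ^ 6 ∣ β')) ∧
        Y' ^ 2 = X' ^ 3 + algebraMap _ L (uP u α') * X' + algebraMap _ L (uP u β') ∧
        IntermediateField.adjoin k {algebraMap (MvPolynomial (Fin 2) k) L u, X', Y'} = ⊤ := by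
  induction N using Nat.strong_induction_on with
  | _ N ih =>
  intro α β X Y hN hdisc hXY hgen
  by_cases hmin : ∀ c : k, ¬ ((Polynomial.X - Polynomial.C c) ^ 4 ∣ α ∧ (Polynomial.X - Polynomial.C c) ^ 6 ∣ β)
  · exact ⟨α, β, X, Y, hdisc, hmin, hXY, hgen⟩
  push Not at hmin
  obtain ⟨c, ⟨α', hα⟩, ⟨β', hβ⟩⟩ := hmin
  set l := Polynomial.X - Polynomial.C c with hl
  have hl0 : l ≠ 0 := Polynomial.X_sub_C_ne_zero c
  have hdisc' : 4 * α' ^ 3 + 27 * β' ^ 2 ≠ 0 := by
    intro h
    apply hdisc
    rw [hα, hβ]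
    linear_combination l ^ 12 * h
  set w := algebraMap (MvPolynomial (Fin 2) k) L (uP u l) with hw
  have hw0 : w ≠ 0 := alg_ne (by rw [Ne, map_eq_zero_iff _ hu]; exact hl0)
  have hαe : algebraMap _ L (uP u α) = w ^ 4 * algebraMap _ L (uP u α') := by
    rw [hα, map_mul, map_mul, map_pow, map_pow]
  have hβe : algebraMap _ L (uP u β) = w ^ 6 * algebraMap _ L (uP u β') := by
    rw [hβ, map_mul, map_mul, map_pow, map_pow]
  have hXY' : (Y / w ^ 3) ^ 2 = (X / w ^ 2) ^ 3 + algebraMap _ L (uP u α') * (X / w ^ 2) +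
      algebraMap _ L (uP u β') := by
    rw [hαe, hβe] at hXY
    field_simp
    linear_combination hXY
  have hgen' : IntermediateField.adjoin k {algebraMap (MvPolynomial (Fin 2) k) L u, X / w ^ 2, Y / w ^ 3} = ⊤ := by
    apply adj_le _ hgen
    have hum : algebraMap (MvPolynomial (Fin 2) k) L u ∈
        IntermediateField.adjoin k {algebraMap (MvPolynomial (Fin 2) k) L u, X / w ^ 2, Y / w ^ 3} :=
      IntermediateField.subset_adjoin _ _ (Or.inl rfl)
    have hwm := alg_mem_adj hum l
    rw [← hw] at hwm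
    rintro t (rfl | rfl | rfl)
    · exact hum
    · have h1 : t / w ^ 2 ∈ IntermediateField.adjoin k
          {algebraMap (MvPolynomial (Fin 2) k) L u, t / w ^ 2, Y / w ^ 3} :=
        IntermediateField.subset_adjoin _ _ (Or.inr (Or.inl rfl))
      have h2 := mul_mem h1 (pow_mem hwm 2)
      rwa [div_mul_cancel₀ _ (pow_ne_zero 2 hw0)] at h2
    · have h1 : t / w ^ 3 ∈ IntermediateField.adjoin k
          {algebraMap (MvPolynomial (Fin 2) k) L u, X / w ^ 2, t / w ^ 3} :=
        IntermediateField.subset_adjoin _ _ (Or.inr (Or.inr rfl))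
      have h2 := mul_mem h1 (pow_mem hwm 3)
      rwa [div_mul_cancel₀ _ (pow_ne_zero 3 hw0)] at h2
  have hd : ∀ (s : Polynomial k) (m : ℕ), s ≠ 0 → (l ^ m * s).natDegree = m + s.natDegree := by
    intro s m hs
    rw [Polynomial.natDegree_mul (pow_ne_zero _ hl0) hs, Polynomial.natDegree_pow, hl,
      Polynomial.natDegree_X_sub_C, mul_one]
  have hlt : α'.natDegree + β'.natDegree < α.natDegree + β.natDegree := by
    by_cases ha : α' = 0
    · by_cases hb : β' = 0
      · exfalso; apply hdisc'; rw [ha, hb]; ring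
      · rw [hα, hβ, ha, mul_zero, Polynomial.natDegree_zero, hd _ _ hb]; omega
    · by_cases hb : β' = 0
      · rw [hα, hβ, hb, mul_zero, Polynomial.natDegree_zero, hd _ _ ha]; omega
      · rw [hα, hβ, hd _ _ hb, hd _ _ ha]; omega
  exact ih _ (by omega) α' β' _ _ le_rfl hdisc' hXY' hgen'

theorem mem_kap (u : MvPolynomial (Fin 2) k) (hu : Function.Injective (uP u)) (z : L)
    (hz : z ∈ IntermediateField.adjoin k {algebraMap (MvPolynomial (Fin 2) k) L u}) : ∃ x : KK k, kap L hu x = z := by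
  induction hz using IntermediateField.adjoin_induction with
  | mem x hx =>
    rw [Set.mem_singleton_iff] at hx
    exact ⟨algebraMap (Polynomial k) (KK k) Polynomial.X, by rw [kap_algebraMap, uP_X, hx]⟩
  | algebraMap x =>
    exact ⟨algebraMap (Polynomial k) (KK k) (Polynomial.C x), by
      rw [kap_algebraMap, uP_C, ← MvPolynomial.algebraMap_eq, ← IsScalarTower.algebraMap_apply]⟩
  | add x y _ _ hx hy =>
    obtain ⟨a, rfl⟩ := hx
    obtain ⟨b, rfl⟩ := hy
    exact ⟨a + b, map_add _ _ _⟩
  | inv x _ hx =>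
    obtain ⟨a, rfl⟩ := hx
    exact ⟨a⁻¹, map_inv₀ _ _⟩
  | mul x y _ _ hx hy =>
    obtain ⟨a, rfl⟩ := hx
    obtain ⟨b, rfl⟩ := hy
    exact ⟨a * b, map_mul _ _ _⟩

/-- integral Weierstrass equations -/
theorem exists_int (u : MvPolynomial (Fin 2) k) (hu : Function.Injective (uP u)) (a b X Y : L)
    (ha : a ∈ IntermediateField.adjoin k {algebraMap (MvPolynomial (Fin 2) k) L u})
    (hb : b ∈ IntermediateField.adjoin k {algebraMap (MvPolynomial (Fin 2) k) L u})
    (hdisc : 4 * a ^ 3 + 27 * b ^ 2 ≠ 0) (hXY : Y ^ 2 = X ^ 3 + a * X + b)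
    (hgen : IntermediateField.adjoin k {algebraMap (MvPolynomial (Fin 2) k) L u, X, Y} = ⊤) :
    ∃ (α β : Polynomial k) (X' Y' : L), 4 * α ^ 3 + 27 * β ^ 2 ≠ 0 ∧
      Y' ^ 2 = X' ^ 3 + algebraMap _ L (uP u α) * X' + algebraMap _ L (uP u β) ∧
      IntermediateField.adjoin k {algebraMap (MvPolynomial (Fin 2) k) L u, X', Y'} = ⊤ := by
  obtain ⟨xa, rfl⟩ := mem_kap u hu a ha
  obtain ⟨xb, rfl⟩ := mem_kap u hu b hb
  obtain ⟨p, q, hq, rfl⟩ := IsFractionRing.div_surjective (A := Polynomial k) xa
  obtain ⟨p', q', hq', rfl⟩ := IsFractionRing.div_surjective (A := Polynomial k) xb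
  have hq0 : q ≠ 0 := nonZeroDivisors.ne_zero hq
  have hq0' : q' ≠ 0 := nonZeroDivisors.ne_zero hq'
  have hne : ∀ s : Polynomial k, s ≠ 0 → algebraMap (MvPolynomial (Fin 2) k) L (uP u s) ≠ 0 := fun s hs =>
    alg_ne (by rw [Ne, map_eq_zero_iff _ hu]; exact hs)
  rw [map_div₀, map_div₀] at hXY hdisc
  simp only [kap_algebraMap] at hXY hdisc
  set Q := algebraMap (MvPolynomial (Fin 2) k) L (uP u q) with hQ
  set Q' := algebraMap (MvPolynomial (Fin 2) k) L (uP u q') with hQ'
  set P := algebraMap (MvPolynomial (Fin 2) k) L (uP u p) with hP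
  set P' := algebraMap (MvPolynomial (Fin 2) k) L (uP u p') with hP'
  have hQ0 : Q ≠ 0 := hne q hq0
  have hQ0' : Q' ≠ 0 := hne q' hq0'
  set w := Q * Q' with hw
  have hw0 : w ≠ 0 := mul_ne_zero hQ0 hQ0'
  have hα : algebraMap (MvPolynomial (Fin 2) k) L (uP u (q ^ 3 * q' ^ 4 * p)) = w ^ 4 * (P / Q) := by
    simp only [map_mul, map_pow]
    rw [← hQ, ← hQ', ← hP, hw]
    field_simp
  have hβ : algebraMap (MvPolynomial (Fin 2) k) L (uP u (q ^ 6 * q' ^ 5 * p')) = w ^ 6 * (P' / Q') := by
    simp only [map_mul, map_pow]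
    rw [← hQ, ← hQ', ← hP', hw]
    field_simp
  refine ⟨q ^ 3 * q' ^ 4 * p, q ^ 6 * q' ^ 5 * p', w ^ 2 * X, w ^ 3 * Y, ?_, ?_, ?_⟩
  · intro h
    have h1 := congrArg (fun s => algebraMap (MvPolynomial (Fin 2) k) L (uP u s)) h
    simp only [map_zero] at h1
    rw [map_add, map_add, map_mul, map_mul, map_mul, map_mul, map_pow, map_pow, map_pow, map_pow, hα, hβ] at h1
    simp only [map_ofNat] at h1
    apply hdisc
    have h2 : w ^ 12 * (4 * (P / Q) ^ 3 + 27 * (P' / Q') ^ 2) = 0 := by linear_combination h1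
    exact (mul_eq_zero.1 h2).resolve_left (pow_ne_zero _ hw0)
  · rw [hα, hβ]
    linear_combination w ^ 6 * hXY
  · apply adj_le _ hgen
    have hum : algebraMap (MvPolynomial (Fin 2) k) L u ∈
        IntermediateField.adjoin k {algebraMap (MvPolynomial (Fin 2) k) L u, w ^ 2 * X, w ^ 3 * Y} :=
      IntermediateField.subset_adjoin _ _ (Or.inl rfl)
    have hwm : w ∈ IntermediateField.adjoin k {algebraMap (MvPolynomial (Fin 2) k) L u, w ^ 2 * X, w ^ 3 * Y} :=
      mul_mem (alg_mem_adj hum q) (alg_mem_adj hum q')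
    rintro t (rfl | rfl | rfl)
    · exact hum
    · have h1 : w ^ 2 * t ∈ IntermediateField.adjoin k
          {algebraMap (MvPolynomial (Fin 2) k) L u, w ^ 2 * t, w ^ 3 * Y} :=
        IntermediateField.subset_adjoin _ _ (Or.inr (Or.inl rfl))
      have h2 := div_mem h1 (pow_mem hwm 2)
      rwa [mul_div_cancel_left₀ _ (pow_ne_zero 2 hw0)] at h2
    · have h1 : w ^ 3 * t ∈ IntermediateField.adjoin k
          {algebraMap (MvPolynomial (Fin 2) k) L u, w ^ 2 * X, w ^ 3 * t} :=
        IntermediateField.subset_adjoin _ _ (Or.inr (Or.inr rfl))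
      have h2 := div_mem h1 (pow_mem hwm 3)
      rwa [mul_div_cancel_left₀ _ (pow_ne_zero 3 hw0)] at h2

/-- singular cubics are rational -/
theorem sing_gen (u : MvPolynomial (Fin 2) k) (a b X Y : L)
    (ha : a ∈ IntermediateField.adjoin k {algebraMap (MvPolynomial (Fin 2) k) L u})
    (hb : b ∈ IntermediateField.adjoin k {algebraMap (MvPolynomial (Fin 2) k) L u})
    (hdisc : 4 * a ^ 3 + 27 * b ^ 2 = 0) (hXY : Y ^ 2 = X ^ 3 + a * X + b)
    (hgen : IntermediateField.adjoin k {algebraMap (MvPolynomial (Fin 2) k) L u, X, Y} = ⊤) : ∃ T : L, Gen u T := by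
  haveI : CharZero L := charZero_of_injective_algebraMap (algebraMap k L).injective
  have key : ∀ T : L, X ∈ IntermediateField.adjoin k {algebraMap (MvPolynomial (Fin 2) k) L u, T} →
      Y ∈ IntermediateField.adjoin k {algebraMap (MvPolynomial (Fin 2) k) L u, T} → Gen u T := by
    intro T hX hY
    apply adj_le _ hgen
    rintro t (rfl | rfl | rfl)
    · exact IntermediateField.subset_adjoin _ _ (Or.inl rfl)
    · exact hX
    · exact hY
  have hmono : ∀ T z : L, z ∈ IntermediateField.adjoin k {algebraMap (MvPolynomial (Fin 2) k) L u} →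
      z ∈ IntermediateField.adjoin k {algebraMap (MvPolynomial (Fin 2) k) L u, T} := by
    intro T z hz
    exact IntermediateField.adjoin.mono k {algebraMap (MvPolynomial (Fin 2) k) L u}
      {algebraMap (MvPolynomial (Fin 2) k) L u, T} (by
        intro t ht; rw [Set.mem_singleton_iff] at ht; left; exact ht) hz
  have hTm : ∀ T : L, T ∈ IntermediateField.adjoin k {algebraMap (MvPolynomial (Fin 2) k) L u, T} := fun T =>
    IntermediateField.subset_adjoin _ _ (Or.inr rfl)
  have hnat : ∀ (T : L) (n : ℕ), (n : L) ∈ IntermediateField.adjoin k {algebraMap (MvPolynomial (Fin 2) k) L u, T} :=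
    fun T n => natCast_mem _ n
  by_cases ha0 : a = 0
  · have hb0 : b = 0 := by
      rw [ha0] at hdisc
      have : (27 : L) * b ^ 2 = 0 := by linear_combination hdisc
      exact pow_eq_zero_iff (two_ne_zero) |>.1 ((mul_eq_zero.1 this).resolve_left (by norm_num))
    rw [ha0, hb0, zero_mul, add_zero, add_zero] at hXY
    by_cases hX : X = 0
    · have hY : Y = 0 := by
        rw [hX] at hXY
        exact pow_eq_zero_iff (two_ne_zero) |>.1 (by rw [hXY]; ring)
      exact ⟨0, key 0 (by rw [hX]; exact zero_mem _) (by rw [hY]; exact zero_mem _)⟩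
    · refine ⟨Y / X, key _ ?_ ?_⟩
      · have e : X = (Y / X) ^ 2 := by field_simp; linear_combination -hXY
        have h1 := pow_mem (hTm (Y / X)) 2
        rwa [← e] at h1
      · have e : Y = (Y / X) ^ 3 := by
          field_simp
          linear_combination (-Y) * hXY
        have h1 := pow_mem (hTm (Y / X)) 3
        rwa [← e] at h1
  · set r := -(3 * b) / (2 * a) with hr
    have h2a : 2 * a ≠ 0 := mul_ne_zero two_ne_zero ha0
    have hra : a = -3 * r ^ 2 := by
      rw [hr]; field_simp; linear_combination hdisc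
    have hrb : b = 2 * r ^ 3 := by
      rw [hr]; field_simp; linear_combination b * hdisc
    have hrm : r ∈ IntermediateField.adjoin k {algebraMap (MvPolynomial (Fin 2) k) L u} := by
      rw [hr]
      have e3 : (3 : L) ∈ IntermediateField.adjoin k {algebraMap (MvPolynomial (Fin 2) k) L u} := by
        have h3 := natCast_mem (IntermediateField.adjoin k {algebraMap (MvPolynomial (Fin 2) k) L u}) 3
        push_cast at h3
        exact h3
      have e2 : (2 : L) ∈ IntermediateField.adjoin k {algebraMap (MvPolynomial (Fin 2) k) L u} := by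
        have h3 := natCast_mem (IntermediateField.adjoin k {algebraMap (MvPolynomial (Fin 2) k) L u}) 2
        push_cast at h3
        exact h3
      exact div_mem (neg_mem (mul_mem e3 hb)) (mul_mem e2 ha)
    have hfac : Y ^ 2 = (X - r) ^ 2 * (X + 2 * r) := by
      rw [hXY, hra, hrb]; ring
    by_cases hX : X - r = 0
    · have hY : Y = 0 := by
        rw [hX] at hfac
        exact pow_eq_zero_iff (two_ne_zero) |>.1 (by rw [hfac]; ring)
      refine ⟨0, key 0 ?_ (by rw [hY]; exact zero_mem _)⟩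
      rw [sub_eq_zero.1 hX]
      exact hmono 0 r hrm
    · set T := Y / (X - r) with hT
      have e : X = T ^ 2 - 2 * r := by
        rw [hT]; field_simp; linear_combination -hfac
      have hXm : X ∈ IntermediateField.adjoin k {algebraMap (MvPolynomial (Fin 2) k) L u, T} := by
        have e2 := hnat T 2
        push_cast at e2
        have h1 := sub_mem (pow_mem (hTm T) 2) (mul_mem e2 (hmono T r hrm))
        rwa [← e] at h1
      refine ⟨T, key T hXm ?_⟩
      have e2 : Y = T * (X - r) := by rw [hT]; field_simp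
      rw [e2]
      exact mul_mem (hTm T) (sub_mem hXm (hmono T r hrm))

end minimal

end Pool.Agent.H922R2.EL
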