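import Mathlib
import Pool.Agent.H922R2.EL.FI

set_option autoImplicit false
set_option linter.unusedSectionVars false
set_option linter.style.haveILetI false

open MvPolynomial

namespace Pool.Agent.H922R2.EL

open Pool.Agent.H922R2 (IsDer GA sw elemX elemX_X0 elemX_X1 jac SS fF uy DJ_apply det_jac)
open Pool.Agent.H922R2.R

section transport

variable {k₁ k₂ : Type*} [Field k₁] [Field k₂]
variable {L₁ : Type*} [Field L₁] [Algebra (MvPolynomial (Fin 2) k₁) L₁] [IsFractionRing (MvPolynomial (Fin 2) k₁) L₁]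
  [Algebra k₁ L₁] [IsScalarTower k₁ (MvPolynomial (Fin 2) k₁) L₁]
variable {L₂ : Type*} [Field L₂] [Algebra (MvPolynomial (Fin 2) k₂) L₂] [IsFractionRing (MvPolynomial (Fin 2) k₂) L₂]
  [Algebra k₂ L₂] [IsScalarTower k₂ (MvPolynomial (Fin 2) k₂) L₂]

theorem transport_gen (j : MvPolynomial (Fin 2) k₁ →+* MvPolynomial (Fin 2) k₂) (hj : Function.Injective j)
    (hC : ∀ a : k₁, ∃ b : k₂, j (C a) = C b) (hX : ∀ i, ∃ p, j p = X i) :
    ∃ φ : L₁ →+* L₂, (∀ p, φ (algebraMap (MvPolynomial (Fin 2) k₁) L₁ p) = algebraMap (MvPolynomial (Fin 2) k₂) L₂ (j p)) ∧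
      (∀ (T : Set L₁) (z : L₁), z ∈ IntermediateField.adjoin k₁ T → φ z ∈ IntermediateField.adjoin k₂ (φ '' T)) ∧
      (∀ T : Set L₁, IntermediateField.adjoin k₁ T = ⊤ → IntermediateField.adjoin k₂ (φ '' T) = ⊤) := by
  set φ : L₁ →+* L₂ := IsFractionRing.lift (A := MvPolynomial (Fin 2) k₁) (K := L₁)
    (g := (algebraMap (MvPolynomial (Fin 2) k₂) L₂).comp j)
    ((IsFractionRing.injective (MvPolynomial (Fin 2) k₂) L₂).comp hj) with hφ
  have hφa : ∀ p, φ (algebraMap (MvPolynomial (Fin 2) k₁) L₁ p) = algebraMap (MvPolynomial (Fin 2) k₂) L₂ (j p) := by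
    intro p
    rw [hφ, IsFractionRing.lift_algebraMap]; rfl
  have hmem : ∀ (T : Set L₁) (z : L₁), z ∈ IntermediateField.adjoin k₁ T →
      φ z ∈ IntermediateField.adjoin k₂ (φ '' T) := by
    intro T z hz
    induction hz using IntermediateField.adjoin_induction with
    | mem x hx => exact IntermediateField.subset_adjoin _ _ ⟨x, hx, rfl⟩
    | algebraMap x =>
      rw [IsScalarTower.algebraMap_apply k₁ (MvPolynomial (Fin 2) k₁) L₁, hφa, MvPolynomial.algebraMap_eq]
      obtain ⟨b, hb⟩ := hC x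
      rw [hb, ← MvPolynomial.algebraMap_eq, ← IsScalarTower.algebraMap_apply]
      exact IntermediateField.algebraMap_mem _ _
    | add x y _ _ hx hy => rw [map_add]; exact add_mem hx hy
    | inv x _ hx => rw [map_inv₀]; exact inv_mem hx
    | mul x y _ _ hx hy => rw [map_mul]; exact mul_mem hx hy
  refine ⟨φ, hφa, hmem, ?_⟩
  intro T hT
  have hall : ∀ z : L₁, φ z ∈ IntermediateField.adjoin k₂ (φ '' T) := fun z => hmem T z (by rw [hT]; trivial)
  have hpoly : ∀ p : MvPolynomial (Fin 2) k₂, algebraMap (MvPolynomial (Fin 2) k₂) L₂ p ∈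
      IntermediateField.adjoin k₂ (φ '' T) := by
    intro p
    induction p using MvPolynomial.induction_on with
    | C a =>
      rw [← MvPolynomial.algebraMap_eq, ← IsScalarTower.algebraMap_apply]
      exact IntermediateField.algebraMap_mem _ _
    | add p q hp hq => rw [map_add]; exact add_mem hp hq
    | mul_X p i hp =>
      rw [map_mul]
      apply mul_mem hp
      obtain ⟨q, hq⟩ := hX i
      rw [← hq, ← hφa]
      exact hall _
  rw [eq_top_iff]
  intro z _
  obtain ⟨a, b, _, rfl⟩ := IsFractionRing.div_surjective (A := MvPolynomial (Fin 2) k₂) z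
  exact div_mem (hpoly a) (hpoly b)

end transport

section closed

variable {k : Type*} [Field k] [CharZero k] [IsAlgClosed k]

/-- no elliptic component of larger degree, over an algebraically closed field -/
theorem EL_false {L : Type*} [Field L] [Algebra (MvPolynomial (Fin 2) k) L]
    [IsFractionRing (MvPolynomial (Fin 2) k) L] [Algebra k L] [IsScalarTower k (MvPolynomial (Fin 2) k) L]
    (F : Fin 2 → MvPolynomial (Fin 2) k) (hJ : IsUnit (Matrix.det (jac F)))
    (hdeg : (F 1).totalDegree ≤ (F 0).totalDegree) (a b X Y : L)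
    (ha : a ∈ IntermediateField.adjoin k {algebraMap (MvPolynomial (Fin 2) k) L (F 0)})
    (hb : b ∈ IntermediateField.adjoin k {algebraMap (MvPolynomial (Fin 2) k) L (F 0)})
    (hdisc : 4 * a ^ 3 + 27 * b ^ 2 ≠ 0) (hXY : Y ^ 2 = X ^ 3 + a * X + b)
    (hgen : IntermediateField.adjoin k {algebraMap (MvPolynomial (Fin 2) k) L (F 0), X, Y} = ⊤) : False := by
  have hF0 : F 0 ≠ 0 := by
    intro ha
    rw [det_jac, DJ_apply, ha] at hJ
    simp at hJ
  obtain ⟨l, hl1, hl2⟩ := exists_monT (F 0) hF0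
  set θ : GA k := shl l with hθ
  have hJ' := Pool.Agent.H922R2.jac_comp θ F hJ
  obtain ⟨δ, hδ, hδe⟩ := MvPolynomial.isUnit_iff_eq_C_of_isReduced.1 (by rw [det_jac] at hJ'; exact hJ')
  have hδ0 : δ ≠ 0 := hδ.ne_zero
  set u := θ (F 0) with hu
  set v := C δ⁻¹ * θ (F 1) with hv
  have hJb : Jb u v = 1 := by
    have h1 : Jb (θ (F 0)) (θ (F 1)) = C δ := by
      rw [← hδe, DJ_apply]; rfl
    rw [hu, hv, Jb_mul, h1, Jb_C_right, mul_zero, add_zero, ← C_mul, inv_mul_cancel₀ hδ0, C_1]
  have hut : u.totalDegree = (F 0).totalDegree := shl_td l _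
  have hvt : v.totalDegree ≤ u.totalDegree := by
    rw [hut, hv]
    apply (totalDegree_mul _ _).trans
    rw [totalDegree_C, zero_add, hθ, shl_td]
    exact hdeg
  -- transport
  obtain ⟨φ, hφa, hφm, hφt⟩ := transport_gen (L₁ := L) (L₂ := L)
    ((θ : MvPolynomial (Fin 2) k ≃ₐ[k] _) : MvPolynomial (Fin 2) k →+* _) θ.injective
    (fun a => ⟨a, θ.commutes a⟩) (fun i => ⟨θ.symm (MvPolynomial.X i), θ.apply_symm_apply _⟩)
  have hφu : φ (algebraMap _ L (F 0)) = algebraMap _ L u := hφa (F 0)
  have hgen' := hφt _ hgen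
  have ha' := hφm _ _ ha
  have hb' := hφm _ _ hb
  rw [Set.image_singleton, hφu] at ha' hb'
  rw [Set.image_insert_eq, Set.image_insert_eq, Set.image_singleton, hφu] at hgen'
  have hXY' : (φ Y) ^ 2 = (φ X) ^ 3 + φ a * φ X + φ b := by
    rw [← map_pow, hXY, map_add, map_add, map_mul, map_pow]
  have hdisc' : 4 * (φ a) ^ 3 + 27 * (φ b) ^ 2 ≠ 0 := by
    have h1 : φ (4 * a ^ 3 + 27 * b ^ 2) ≠ 0 := by
      rw [Ne, map_eq_zero]; exact hdisc
    rw [map_add, map_mul, map_mul, map_pow, map_pow, map_ofNat, map_ofNat] at h1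
    exact h1
  have huinj := uP_inj_of u v hJb
  obtain ⟨α, β, X1, Y1, h1, h2, h3⟩ := exists_int u huinj _ _ _ _ ha' hb' hdisc' hXY' hgen'
  obtain ⟨α', β', X2, Y2, g1, g2, g3, g4⟩ := exists_min u huinj _ α β X1 Y1 le_rfl h1 h2 h3
  have hu0 : u ≠ 0 := by
    intro h
    have := hJb
    rw [h] at this
    simp [Jb] at this
  by_cases hn : 2 ≤ u.totalDegree
  · exact main_EL u v hJb ⟨⟨by rw [hl1]; exact hn, hl2⟩, hl1⟩ hvt α' β' g1 g2 X2 Y2 g3 g4
  · -- linear `u`
    haveI : CharZero L := charZero_of_injective_algebraMap (algebraMap k L).injective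
    have hn1 : u.totalDegree = 1 := by
      have h0 : u.totalDegree ≠ 0 := by
        intro h0
        have h4 := MvPolynomial.totalDegree_eq_zero_iff_eq_C.1 h0
        rw [h4] at hJb
        simp [Jb] at hJb
      omega
    have hDu : DL L u (algebraMap _ L u) = 0 := by rw [DL_alg, Jb_self, map_zero]
    have hX0 : DL L u X2 ≠ 0 := by
      intro hX
      have hY : DL L u Y2 = 0 := by
        have h1 := congrArg (DL L u) g3
        rw [(DL_isDer u).add, (DL_isDer u).add, (DL_isDer u).mul, (DL_isDer u).pow, (DL_isDer u).pow, hX,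
          DL_alg, DL_alg, Jb_uP, Jb_uP] at h1
        push_cast at h1
        have h2 : Y2 * DL L u Y2 = 0 := by
          have h3 : (2 : L) * (Y2 * DL L u Y2) = 0 := by
            simp only [map_zero, mul_zero, add_zero] at h1
            linear_combination h1
          exact (mul_eq_zero.1 h3).resolve_left two_ne_zero
        rcases mul_eq_zero.1 h2 with h | h
        · rw [h, (DL_isDer u).zero]
        · exact h
      have hall : ∀ z : L, DL L u z = 0 := by
        intro z
        have hz : z ∈ IntermediateField.adjoin k {algebraMap (MvPolynomial (Fin 2) k) L u, X2, Y2} := by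
          rw [g4]; trivial
        induction hz using IntermediateField.adjoin_induction with
        | mem x hx =>
          rcases hx with rfl | rfl | rfl
          · exact hDu
          · exact hX
          · exact hY
        | algebraMap x =>
          rw [IsScalarTower.algebraMap_apply k (MvPolynomial (Fin 2) k) L, DL_alg, MvPolynomial.algebraMap_eq,
            Jb_C_right, map_zero]
        | add x y _ _ hx hy => rw [(DL_isDer u).add, hx, hy, add_zero]
        | inv x _ hx =>
          by_cases h0 : x = 0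
          · rw [h0, inv_zero, (DL_isDer u).zero]
          · rw [der_inv (DL_isDer u) _ h0, hx]; simp
        | mul x y _ _ hx hy => rw [(DL_isDer u).mul, hx, hy]; ring
      have h1 := hall (algebraMap _ L v)
      rw [DL_alg, hJb, map_one] at h1
      exact one_ne_zero h1
    obtain ⟨f, hf1, hf2, hY0⟩ := exists_f u huinj α' β' g1 X2 Y2 g3 hX0
    obtain ⟨G, hG⟩ := f_mem u huinj α' β' g1 g2 X2 Y2 f g3 hf1 hf2 hX0
    have hG0 : G ≠ 0 := by
      rintro rfl
      rw [map_zero] at hG
      rw [hG, mul_zero] at hf1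
      exact hX0 hf1
    have hNex : ∃ N : ℕ, α'.natDegree ≤ 4 * N ∧ β'.natDegree ≤ 6 * N :=
      ⟨α'.natDegree + β'.natDegree, by omega, by omega⟩
    classical
    set N := Nat.find hNex with hNd
    have hN1 := Nat.find_spec hNex
    have hN2 : ∀ m < N, ¬ (α'.natDegree ≤ 4 * m ∧ β'.natDegree ≤ 6 * m) := fun m hm => Nat.find_min hNex hm
    rw [← hNd] at hN1
    have hNmin : ¬ ((α' = 0 ∨ α'.natDegree + 4 ≤ 4 * N) ∧ (β' = 0 ∨ β'.natDegree + 6 ≤ 6 * N)) := by
      rintro ⟨h1, h2⟩
      rcases Nat.eq_zero_or_pos N with h0 | h0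
      · rw [h0] at h1 h2
        have ha : α' = 0 := by rcases h1 with h | h; exact h; omega
        have hb : β' = 0 := by rcases h2 with h | h; exact h; omega
        apply g1; rw [ha, hb]; ring
      · apply hN2 (N - 1) (by omega)
        constructor
        · rcases h1 with h | h
          · rw [h, Polynomial.natDegree_zero]; omega
          · omega
        · rcases h2 with h | h
          · rw [h, Polynomial.natDegree_zero]; omega
          · omega
    have hord := ord_inf (0 : HahnSeries ℚ k) (Lb.zero _) u hu0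
    rw [hn1] at hord
    push_cast at hord
    have h5 := lemInf (VE L (-1) (0 : HahnSeries ℚ k)) u (-1) 1 one_pos hu0 (by rw [VE_alg, hord]) (by
      intro z hz
      have := VE_jac (L := L) (-1) (0 : HahnSeries ℚ k) u z hz
      rwa [hord] at this) α' β' N hNmin X2 Y2 f g3 hf1 hf2 hX0
    have h6 := Vinf_le (L := L) G hG0
    rw [← hG] at h6
    have h7 : (0 : ℚ) ≤ N := Nat.cast_nonneg _
    linarith

/-- Weierstrass cubics, over an algebraically closed field -/
theorem EL_closed (F : Fin 2 → MvPolynomial (Fin 2) k) (hJ : IsUnit (Matrix.det (jac F)))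
    (hdeg : (F 1).totalDegree ≤ (F 0).totalDegree)
    (a b X Y : FractionRing (MvPolynomial (Fin 2) k))
    (ha : a ∈ IntermediateField.adjoin k {algebraMap (MvPolynomial (Fin 2) k) (FractionRing (MvPolynomial (Fin 2) k)) (F 0)})
    (hb : b ∈ IntermediateField.adjoin k {algebraMap (MvPolynomial (Fin 2) k) (FractionRing (MvPolynomial (Fin 2) k)) (F 0)})
    (hXY : Y ^ 2 = X ^ 3 + a * X + b)
    (hgen : IntermediateField.adjoin k
      {algebraMap (MvPolynomial (Fin 2) k) (FractionRing (MvPolynomial (Fin 2) k)) (F 0), X, Y} = ⊤) :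
    4 * a ^ 3 + 27 * b ^ 2 = 0 ∧ SS F = ⊤ := by
  by_cases hdisc : 4 * a ^ 3 + 27 * b ^ 2 = 0
  · refine ⟨hdisc, ?_⟩
    obtain ⟨T, hT⟩ := sing_gen (F 0) a b X Y ha hb hdisc hXY hgen
    exact R_closed F hJ T hT
  · exact (EL_false F hJ hdeg a b X Y ha hb hdisc hXY hgen).elim

end closed

section any

variable {k : Type*} [Field k] [CharZero k] {E : Type*} [Field E] [Algebra k E]

/-- Weierstrass cubics over any field -/
theorem EL_any (F : Fin 2 → MvPolynomial (Fin 2) k) (hJ : IsUnit (Matrix.det (jac F)))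
    (hdeg : (F 1).totalDegree ≤ (F 0).totalDegree)
    (a b X Y : FractionRing (MvPolynomial (Fin 2) E))
    (ha : a ∈ IntermediateField.adjoin E {algebraMap (MvPolynomial (Fin 2) E)
      (FractionRing (MvPolynomial (Fin 2) E)) (map (algebraMap k E) (F 0))})
    (hb : b ∈ IntermediateField.adjoin E {algebraMap (MvPolynomial (Fin 2) E)
      (FractionRing (MvPolynomial (Fin 2) E)) (map (algebraMap k E) (F 0))})
    (hXY : Y ^ 2 = X ^ 3 + a * X + b)
    (hgen : IntermediateField.adjoin E
      {algebraMap (MvPolynomial (Fin 2) E) (FractionRing (MvPolynomial (Fin 2) E)) (map (algebraMap k E) (F 0)), X, Y} = ⊤) :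
    4 * a ^ 3 + 27 * b ^ 2 = 0 ∧ SS F = ⊤ := by
  haveI : CharZero E := charZero_of_injective_algebraMap (algebraMap k E).injective
  haveI : CharZero (AlgebraicClosure E) := charZero_of_injective_algebraMap
    (algebraMap E (AlgebraicClosure E)).injective
  letI : Algebra k (AlgebraicClosure E) := ((algebraMap E (AlgebraicClosure E)).comp (algebraMap k E)).toAlgebra
  obtain ⟨φ, hφa, hφm, hφt⟩ := transport_gen (L₁ := FractionRing (MvPolynomial (Fin 2) E))
    (L₂ := FractionRing (MvPolynomial (Fin 2) (AlgebraicClosure E)))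
    (map (algebraMap E (AlgebraicClosure E))) (MvPolynomial.map_injective _ (algebraMap E (AlgebraicClosure E)).injective)
    (fun a => ⟨algebraMap E (AlgebraicClosure E) a, map_C _ _⟩) (fun i => ⟨MvPolynomial.X i, map_X _ _⟩)
  have he : map (algebraMap E (AlgebraicClosure E)) (map (algebraMap k E) (F 0)) =
      Pool.Agent.H922R2.mE k (AlgebraicClosure E) (Fin 2) (F 0) := by
    rw [Pool.Agent.H922R2.mE, MvPolynomial.map_map]
    rfl
  have hφu := hφa (map (algebraMap k E) (F 0))
  rw [he] at hφu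
  have hgen' := hφt _ hgen
  have ha' := hφm _ _ ha
  have hb' := hφm _ _ hb
  rw [Set.image_singleton, hφu] at ha' hb'
  rw [Set.image_insert_eq, Set.image_insert_eq, Set.image_singleton, hφu] at hgen'
  have hXY' : (φ Y) ^ 2 = (φ X) ^ 3 + φ a * φ X + φ b := by
    rw [← map_pow, hXY, map_add, map_add, map_mul, map_pow]
  have htd : ∀ i, (Pool.Agent.H922R2.mE k (AlgebraicClosure E) (Fin 2) (F i)).totalDegree = (F i).totalDegree := by
    intro i
    rw [Pool.Agent.H922R2.mE, MvPolynomial.totalDegree, MvPolynomial.totalDegree,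
      MvPolynomial.support_map_of_injective _ (algebraMap k (AlgebraicClosure E)).injective]
  have hmain := EL_closed (fun i => Pool.Agent.H922R2.mE k (AlgebraicClosure E) (Fin 2) (F i))
    (Pool.Agent.H922R2.jac_mE (E := AlgebraicClosure E) F hJ) (by rw [htd, htd]; exact hdeg)
    (φ a) (φ b) (φ X) (φ Y) ha' hb' hXY' hgen'
  refine ⟨?_, Pool.Agent.H922R2.SS_descent (E := AlgebraicClosure E) F hmain.2⟩
  have h1 : φ (4 * a ^ 3 + 27 * b ^ 2) = 0 := by
    rw [map_add, map_mul, map_mul, map_pow, map_pow, map_ofNat, map_ofNat]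
    exact hmain.1
  rwa [map_eq_zero] at h1

end any

end Pool.Agent.H922R2.EL
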